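import Pool.Agent.H65.Qm.Rad

/-!
# The action of the rational numbers on the plane
-/

set_option autoImplicit false

namespace Pool.Agent.H65.Qm

open Set Topology Filter
open Pool.Agent.Q238.AR (pp pp_eq pp_norm pp_cont pp_surj EE Dsc Dsc_pp)

lemma pr_add' (u : ℝ) (m : ℤ) : pr (u + m) = pr u + m := pr_add u m

/-- the map in polar coordinates (radius, angle) -/
noncomputable def gm (c : ℚ) (p : ℝ × ℝ) : ℝ × ℝ := (rd c (pr p.2) p.1, al c p.1 p.2)

lemma gm_cont (c : ℚ) : Continuous (gm c) := by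
  have h1 := rd_cont c
  have h2 := al_cont c
  have h3 : Continuous fun p : ℝ × ℝ => (pr p.2, p.1) :=
    (pr_cont.comp continuous_snd).prodMk continuous_fst
  exact (h1.comp h3).prodMk h2

lemma rd_ge (c : ℚ) (x : ℝ) {r : ℝ} (h : 3 / 4 ≤ r) : 3 / 4 ≤ rd c x r := by
  have := (rd_strict c x).monotone h
  rwa [rd_small c x le_rfl] at this

lemma gm_small {c : ℚ} {r t : ℝ} (h : r ≤ 3 / 4) : gm c (r, t) = (r, al c r t) := by
  unfold gm
  simp only
  rw [rd_small _ _ h]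

lemma gm_large {c : ℚ} {r t : ℝ} (h : 3 / 4 ≤ r) : gm c (r, t) = (rd c (pr t) r, tau c t) := by
  unfold gm
  simp only
  rw [al_large h]

lemma gm_add (c d : ℚ) (p : ℝ × ℝ) : gm (c + d) p = gm c (gm d p) := by
  obtain ⟨r, t⟩ := p
  rcases le_total r (3 / 4) with h | h
  · rw [gm_small h, gm_small h, gm_small h, al_add]
  · rw [gm_large h, gm_large h, gm_large (rd_ge d _ h), tau_add, pr_tau, rd_add]

lemma gm_zero (p : ℝ × ℝ) : gm 0 p = p := by
  unfold gm
  rw [rd_zero, al_zero]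

/-- the map as a homeomorphism -/
noncomputable def GM (c : ℚ) : ℝ × ℝ ≃ₜ ℝ × ℝ where
  toFun := gm c
  invFun := gm (-c)
  left_inv p := by rw [← gm_add, neg_add_cancel, gm_zero]
  right_inv p := by rw [← gm_add, add_neg_cancel, gm_zero]
  continuous_toFun := gm_cont c
  continuous_invFun := gm_cont (-c)

lemma GM_apply (c : ℚ) (p : ℝ × ℝ) : GM c p = gm c p := rfl

lemma rd_nonpos (c : ℚ) (x r : ℝ) : rd c x r ≤ 0 ↔ r ≤ 0 := by
  have h1 : rd c x 0 = 0 := rd_small c x (by norm_num)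
  constructor
  · intro h
    by_contra h2
    push Not at h2
    have := rd_strict c x h2
    rw [h1] at this
    linarith
  · intro h
    rw [rd_small c x (by linarith)]
    exact h

lemma GM_mem (c : ℚ) : GM c ∈ EE := by
  refine ⟨fun x => ?_, fun x => ?_⟩
  · obtain ⟨r, t⟩ := x
    have h1 : ((r, t) : ℝ × ℝ) + (0, 1) = (r, t + ((1 : ℤ) : ℝ)) := by simp
    rw [h1, GM_apply, GM_apply]
    unfold gm
    simp only
    rw [pr_add, rd_per, al_add_int]
    simp
  · rw [GM_apply]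
    exact rd_nonpos _ _ _

/-- the action on the plane -/
noncomputable def Ph (c : ℚ) : ℂ ≃ₜ ℂ := Dsc ⟨GM c, GM_mem c⟩

lemma Ph_pp (c : ℚ) (x : ℝ × ℝ) : Ph c (pp x) = pp (gm c x) := Dsc_pp _ x

lemma Ph_add (c d : ℚ) (z : ℂ) : Ph (c + d) z = Ph c (Ph d z) := by
  obtain ⟨x, rfl⟩ := pp_surj z
  rw [Ph_pp, Ph_pp, Ph_pp, gm_add]

lemma Ph_zero (z : ℂ) : Ph 0 z = z := by
  obtain ⟨x, rfl⟩ := pp_surj z
  rw [Ph_pp, gm_zero]

/-- the surface in polar coordinates: the slit of `q` is removed -/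
def St : Set (ℝ × ℝ) := {x | ∀ q : ℚ, lo q < x.2 → x.2 < hi q → x.1 ≤ sg q}

lemma gm_St' {c : ℚ} {x : ℝ × ℝ} (h : x ∈ St) : gm c x ∈ St := by
  obtain ⟨r, t⟩ := x
  rcases le_total r (3 / 4) with hr | hr
  · rw [gm_small hr]
    intro q _ _
    have := sg_ge q
    simp only
    linarith
  · rw [gm_large hr]
    intro q h1 h2
    simp only at h1 h2 ⊢
    have h3 : pr (tau c t) = q := pr_eq h1.le h2.le
    rw [pr_tau] at h3
    have h4 : pr t = ((q - c : ℚ) : ℝ) := by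
      push_cast
      linarith
    have h5 : q - c + c = q := by ring
    have h6 : lo ((q - c : ℚ) : ℝ) < t := by
      rw [← (tau_strict c).lt_iff_lt, tau_lo_eq]
      push_cast
      rwa [sub_add_cancel]
    have h7 : t < hi ((q - c : ℚ) : ℝ) := by
      rw [← (tau_strict c).lt_iff_lt, tau_hi_eq]
      push_cast
      rwa [sub_add_cancel]
    have h8 := (rd_strict c ((q - c : ℚ) : ℝ)).monotone (h _ h6 h7)
    rw [rd_sg, h5] at h8
    rw [h4]
    exact h8

lemma gm_St {c : ℚ} {x : ℝ × ℝ} : gm c x ∈ St ↔ x ∈ St := by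
  refine ⟨fun h => ?_, gm_St'⟩
  have := gm_St' (c := -c) h
  rwa [← gm_add, neg_add_cancel, gm_zero] at this

lemma St_small {x : ℝ × ℝ} (h : x.1 ≤ 1) : x ∈ St := fun q _ _ => h.trans (sg_ge q)

lemma sg_add_int (q : ℚ) (m : ℤ) : sg (q + m) = sg q := by
  unfold sg
  rw [lev_add_int]

lemma St_add_int {x : ℝ × ℝ} (m : ℤ) : x + (0, (m : ℝ)) ∈ St ↔ x ∈ St := by
  have h : ∀ (x : ℝ × ℝ) (m : ℤ), x ∈ St → x + (0, (m : ℝ)) ∈ St := by
    intro x m h q h1 h2
    have e : ((q : ℚ) : ℝ) = ((q - m : ℚ) : ℝ) + m := by push_cast; ring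
    simp only [Prod.snd_add, Prod.fst_add, add_zero] at h1 h2 ⊢
    rw [e, lo_add] at h1
    rw [e, hi_add] at h2
    have h3 := h (q - m) (by linarith) (by linarith)
    have h4 := sg_add_int (q - m) m
    rw [sub_add_cancel] at h4
    rwa [h4]
  refine ⟨fun h1 => ?_, h x m⟩
  have h2 := h _ (-m) h1
  have h3 : x + (0, (m : ℝ)) + (0, ((-m : ℤ) : ℝ)) = x := by
    rw [add_assoc]
    simp
  rwa [h3] at h2

/-- the surface -/
def SS : Set ℂ := pp '' St

lemma pp_SS {x : ℝ × ℝ} : pp x ∈ SS ↔ x ∈ St := by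
  constructor
  · rintro ⟨y, hy, hxy⟩
    rw [pp_eq] at hxy
    rcases hxy with ⟨-, h⟩ | ⟨h1, m, h2⟩
    · exact St_small (by linarith)
    · have h3 : y = x + (0, (m : ℝ)) := by
        ext
        · simp [h1]
        · simp [h2]
      rwa [h3, St_add_int] at hy
  · exact fun h => ⟨x, h, rfl⟩

lemma Ph_SS (c : ℚ) (z : ℂ) : z ∈ SS ↔ Ph c z ∈ SS := by
  obtain ⟨x, rfl⟩ := pp_surj z
  rw [Ph_pp, pp_SS, pp_SS, gm_St]

end Pool.Agent.H65.Qm
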