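import Pool.Agent.H65.Qm.Denj
import Pool.Graph.R_pool_sql_team_seeded_3997aac3.Q238.AR.Maps

/-!
# The angular part of the action

On the circle of radius `r` it is `tau c` for `3 / 4 ≤ r`, the rotation by `c` for `r = 5 / 8` and
the identity for `r ≤ 1 / 2`.
-/

set_option autoImplicit false

namespace Pool.Agent.H65.Qm

open Set Topology Filter
open Pool.Agent.Q238.AR (fib surj_of_near)

/-- `x ↦ x + a * pr x` -/
noncomputable def mix (p : ℝ × ℝ) : ℝ := p.2 + max p.1 0 * pr p.2

lemma mix_cont : Continuous mix := by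
  have := pr_cont
  unfold mix
  fun_prop

lemma mix_mono (a : ℝ) : StrictMono fun x => mix (a, x) := by
  intro x y h
  have h1 := pr_mono h.le
  have h2 : 0 ≤ max a 0 := le_max_right _ _
  change x + max a 0 * pr x < y + max a 0 * pr y
  have := mul_le_mul_of_nonneg_left h1 h2
  linarith

lemma mix_surj (a : ℝ) : Function.Surjective fun x => mix (a, x) := by
  have h2 : 0 ≤ max a 0 := le_max_right _ _
  have h3 : Function.Surjective fun x => mix (a, x) / (1 + max a 0) := by
    refine surj_of_near ?_ 1 fun x => ?_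
    · have := mix_cont
      have h4 : Continuous fun x => mix (a, x) := this.comp (by fun_prop)
      exact h4.div_const _
    · have h4 := pr_near x
      have h5 : mix (a, x) / (1 + max a 0) - x = -(max a 0 / (1 + max a 0)) * (x - pr x) := by
        unfold mix
        field_simp
        ring
      rw [h5, abs_mul, abs_neg, abs_of_nonneg (by positivity)]
      have h6 : max a 0 / (1 + max a 0) ≤ 1 := by
        rw [div_le_one (by positivity)]
        linarith
      have h7 : 0 ≤ max a 0 / (1 + max a 0) := by positivity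
      nlinarith [abs_nonneg (x - pr x)]
  intro y
  obtain ⟨x, hx⟩ := h3 (y / (1 + max a 0))
  refine ⟨x, ?_⟩
  simp only at hx ⊢
  have h4 : (1 + max a 0) ≠ 0 := by positivity
  field_simp at hx
  exact hx

/-- the homeomorphism `(a, x) ↦ (a, x + a * pr x)` -/
noncomputable def Mix : ℝ × ℝ ≃ₜ ℝ × ℝ := fib mix mix_cont mix_mono mix_surj

/-- the solution of `(1 - s) * u + s * pr u = y`, for `0 ≤ s < 1` -/
noncomputable def sol (s y : ℝ) : ℝ := (Mix.symm (s / (1 - s), y / (1 - s))).2

lemma sol_spec {s : ℝ} (h0 : 0 ≤ s) (h1 : s < 1) (y : ℝ) :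
    (1 - s) * sol s y + s * pr (sol s y) = y := by
  have h2 : Mix (Mix.symm (s / (1 - s), y / (1 - s))) = (s / (1 - s), y / (1 - s)) :=
    Mix.apply_symm_apply _
  have h3 : (Mix.symm (s / (1 - s), y / (1 - s))).1 = s / (1 - s) := congrArg Prod.fst h2
  have h4 : mix (Mix.symm (s / (1 - s), y / (1 - s))) = y / (1 - s) := congrArg Prod.snd h2
  have h5 : 0 < 1 - s := by linarith
  unfold mix at h4
  rw [h3, max_eq_left (by positivity)] at h4
  unfold sol
  field_simp at h4
  linarith

lemma comb_strict {s : ℝ} (h0 : 0 ≤ s) (h1 : s < 1) :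
    StrictMono fun u => (1 - s) * u + s * pr u := by
  intro u v h
  have h2 := pr_mono h.le
  have h3 : 0 < 1 - s := by linarith
  have h4 := mul_lt_mul_of_pos_left h h3
  have h5 := mul_le_mul_of_nonneg_left h2 h0
  change (1 - s) * u + s * pr u < (1 - s) * v + s * pr v
  linarith

lemma sol_eq {s : ℝ} (h0 : 0 ≤ s) (h1 : s < 1) {y u : ℝ} (h : (1 - s) * u + s * pr u = y) :
    sol s y = u :=
  (comb_strict h0 h1).injective (by
    rw [sol_spec h0 h1, h])

lemma sol_strict {s : ℝ} (h0 : 0 ≤ s) (h1 : s < 1) : StrictMono (sol s) := by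
  intro y z h
  by_contra h2
  push Not at h2
  have := (comb_strict h0 h1).monotone h2
  rw [sol_spec h0 h1, sol_spec h0 h1] at this
  linarith

lemma sol_zero (y : ℝ) : sol 0 y = y := sol_eq le_rfl one_pos (by ring)

lemma sol_add {s : ℝ} (h0 : 0 ≤ s) (h1 : s < 1) (y : ℝ) (m : ℤ) :
    sol s (y + m) = sol s y + m := by
  apply sol_eq h0 h1
  rw [pr_add]
  have := sol_spec h0 h1 y
  linear_combination this

/-- the parameter of the blow up at the radius `r` -/
noncomputable def ss (r : ℝ) : ℝ := max 0 (min 1 (6 - 8 * r))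

/-- the parameter of the rotation at the radius `r` -/
noncomputable def la (r : ℝ) : ℝ := max 0 (min 1 (8 * r - 4))

lemma ss_cont : Continuous ss := by unfold ss; fun_prop

lemma la_cont : Continuous la := by unfold la; fun_prop

lemma ss_nonneg (r : ℝ) : 0 ≤ ss r := le_max_left _ _

lemma ss_le (r : ℝ) : ss r ≤ 1 := max_le zero_le_one (min_le_left _ _)

lemma ss_small {r : ℝ} (h : r ≤ 5 / 8) : ss r = 1 := by
  unfold ss
  rw [min_eq_left (by linarith), max_eq_right (by norm_num)]

lemma ss_large {r : ℝ} (h : 3 / 4 ≤ r) : ss r = 0 := by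
  unfold ss
  rw [max_eq_left]
  exact (min_le_right _ _).trans (by linarith)

lemma ss_lt {r : ℝ} (h : 5 / 8 < r) : ss r < 1 := by
  unfold ss
  refine max_lt one_pos (lt_of_le_of_lt (min_le_right _ _) (by linarith))

lemma la_small {r : ℝ} (h : r ≤ 1 / 2) : la r = 0 := by
  unfold la
  rw [max_eq_left]
  exact (min_le_right _ _).trans (by linarith)

lemma la_large {r : ℝ} (h : 5 / 8 ≤ r) : la r = 1 := by
  unfold la
  rw [min_eq_left (by linarith), max_eq_right (by norm_num)]

/-- the deviation of the angular map from a rotation -/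
noncomputable def dev (c : ℚ) (r y : ℝ) : ℝ :=
  (1 - ss r) * (tau c (sol (ss r) y) - sol (ss r) y - c)

/-- the angular map -/
noncomputable def al (c : ℚ) (r y : ℝ) : ℝ := y + c * la r + dev c r y

lemma dev_bound (c : ℚ) (r y : ℝ) : |dev c r y| ≤ 2 * (1 - ss r) := by
  have h1 := ss_le r
  have h2 := tau_near c (sol (ss r) y)
  unfold dev
  rw [abs_mul, abs_of_nonneg (by linarith)]
  nlinarith

lemma dev_cont (c : ℚ) : Continuous fun p : ℝ × ℝ => dev c p.1 p.2 := by
  rw [continuous_iff_continuousAt]
  intro p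
  by_cases h : ss p.1 < 1
  · have h1 : 1 - ss p.1 ≠ 0 := by linarith
    have h2 : ContinuousAt (fun p : ℝ × ℝ => sol (ss p.1) p.2) p := by
      have h3 := ss_cont
      have h4 : ContinuousAt (fun p : ℝ × ℝ => (ss p.1 / (1 - ss p.1), p.2 / (1 - ss p.1))) p := by
        apply ContinuousAt.prodMk
        · exact ContinuousAt.div (by fun_prop) (by fun_prop) h1
        · exact ContinuousAt.div (by fun_prop) (by fun_prop) h1
      have h5 : Continuous fun x : ℝ × ℝ => (Mix.symm x).2 :=
        continuous_snd.comp Mix.symm.continuous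
      exact h5.continuousAt.comp h4
    have h3 := tau_cont c
    have h4 := ss_cont
    unfold dev
    apply ContinuousAt.mul
    · fun_prop
    · apply ContinuousAt.sub _ continuousAt_const
      apply ContinuousAt.sub _ h2
      exact h3.continuousAt.comp h2
  · have h1 : ss p.1 = 1 := le_antisymm (ss_le _) (not_lt.1 h)
    have h2 : dev c p.1 p.2 = 0 := by
      unfold dev
      rw [h1]
      ring
    change Tendsto (fun p : ℝ × ℝ => dev c p.1 p.2) (𝓝 p) (𝓝 (dev c p.1 p.2))
    rw [h2]
    have h3 : Tendsto (fun p : ℝ × ℝ => 2 * (1 - ss p.1)) (𝓝 p) (𝓝 0) := by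
      have h4 : Continuous fun p : ℝ × ℝ => 2 * (1 - ss p.1) := by
        have := ss_cont
        fun_prop
      have h5 := h4.tendsto p
      rw [h1] at h5
      simpa using h5
    exact squeeze_zero_norm (fun q => dev_bound c q.1 q.2) h3

lemma al_cont (c : ℚ) : Continuous fun p : ℝ × ℝ => al c p.1 p.2 := by
  have h1 := dev_cont c
  have h2 := la_cont
  unfold al
  fun_prop

lemma al_small {c : ℚ} {r : ℝ} (h : r ≤ 5 / 8) (y : ℝ) : al c r y = y + c * la r := by
  unfold al dev
  rw [ss_small h]
  ring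

lemma al_mid {c : ℚ} {r : ℝ} (h : 5 / 8 < r) (y : ℝ) :
    al c r y = (1 - ss r) * tau c (sol (ss r) y) + ss r * pr (tau c (sol (ss r) y)) := by
  have h1 := sol_spec (ss_nonneg r) (ss_lt h) y
  unfold al dev
  rw [la_large h.le, pr_tau]
  linear_combination -h1

lemma al_large {c : ℚ} {r : ℝ} (h : 3 / 4 ≤ r) (y : ℝ) : al c r y = tau c y := by
  rw [al_mid (by linarith), ss_large h, sol_zero]
  ring

lemma al_strict (c : ℚ) (r : ℝ) : StrictMono (al c r) := by
  by_cases h : r ≤ 5 / 8
  · intro y z hyz
    rw [al_small h, al_small h]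
    linarith
  · push Not at h
    intro y z hyz
    rw [al_mid h, al_mid h]
    exact comb_strict (ss_nonneg r) (ss_lt h) (tau_strict c (sol_strict (ss_nonneg r) (ss_lt h) hyz))

lemma al_add (c d : ℚ) (r y : ℝ) : al (c + d) r y = al c r (al d r y) := by
  by_cases h : r ≤ 5 / 8
  · rw [al_small h, al_small h, al_small h]
    push_cast
    ring
  · push Not at h
    have h1 : sol (ss r) (al d r y) = tau d (sol (ss r) y) :=
      sol_eq (ss_nonneg r) (ss_lt h) (al_mid h y).symm
    rw [al_mid h, al_mid h (al d r y), h1, tau_add]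

lemma al_zero (r y : ℝ) : al 0 r y = y := by
  unfold al dev
  rw [tau_zero]
  simp

lemma al_add_int (c : ℚ) (r y : ℝ) (m : ℤ) : al c r (y + m) = al c r y + m := by
  by_cases h : r ≤ 5 / 8
  · rw [al_small h, al_small h]
    ring
  · push Not at h
    rw [al_mid h, al_mid h, sol_add (ss_nonneg r) (ss_lt h), tau_add_int, pr_add]
    ring

lemma al_int (m : ℤ) (r y : ℝ) : al m r y = y + m * la r := by
  unfold al dev
  rw [tau_int]
  push_cast
  ring

end Pool.Agent.H65.Qm
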