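import Mathlib

/-!
# A Denjoy blow-up of the line at all rational points

`lo x ≤ hi x` are the end points of the interval which replaces the point `x`; the interval is not
degenerate if and only if `x` is rational.
-/

set_option autoImplicit false

namespace Pool.Agent.H65.Qm

open Set Topology Filter
open scoped Nat

/-- the weights -/
noncomputable def W (k : ℕ) : ℝ := (1 / 2) ^ (k + 1) / ((k + 1)! : ℝ)

lemma fac_pos (k : ℕ) : (0 : ℝ) < ((k + 1)! : ℝ) := by exact_mod_cast Nat.factorial_pos _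

lemma fac_ge (k : ℕ) : (1 : ℝ) ≤ ((k + 1)! : ℝ) := by exact_mod_cast Nat.factorial_pos _

lemma W_pos (k : ℕ) : 0 < W k := by
  have := fac_pos k
  unfold W
  positivity

lemma W_mul (k : ℕ) : W k * ((k + 1)! : ℝ) = (1 / 2) ^ (k + 1) := by
  have := fac_pos k
  unfold W
  field_simp

lemma W_le (k : ℕ) : W k ≤ (1 / 2) ^ (k + 1) := by
  rw [← W_mul]
  have := W_pos k
  have := fac_ge k
  nlinarith

lemma geo_sum : Summable fun k : ℕ => (1 / 2 : ℝ) ^ (k + 1) :=
  (summable_nat_add_iff 1).2 (summable_geometric_of_lt_one (by norm_num) (by norm_num))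

lemma geo_tsum : ∑' k : ℕ, (1 / 2 : ℝ) ^ (k + 1) = 1 := by
  have h := tsum_geometric_two
  rw [(summable_geometric_of_lt_one (by norm_num) (by norm_num)).tsum_eq_zero_add] at h
  norm_num at h ⊢
  linarith

/-- the terms of the series for the left end points -/
noncomputable def fl (x : ℝ) (k : ℕ) : ℝ := W k * ⌈((k + 1)! : ℝ) * x⌉

/-- the terms of the series for the right end points -/
noncomputable def fh (x : ℝ) (k : ℕ) : ℝ := W k * (⌊((k + 1)! : ℝ) * x⌋ + 1)

lemma fl_bound (x : ℝ) (k : ℕ) : ‖fl x k‖ ≤ (|x| + 1) * (1 / 2) ^ (k + 1) := by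
  have h1 := W_pos k
  have h0 := fac_ge k
  have h2 : |((⌈((k + 1)! : ℝ) * x⌉ : ℤ) : ℝ)| ≤ ((k + 1)! : ℝ) * (|x| + 1) := by
    have e1 := Int.le_ceil (((k + 1)! : ℝ) * x)
    have e2 := Int.ceil_lt_add_one (((k + 1)! : ℝ) * x)
    have e3 : |((k + 1)! : ℝ) * x| = ((k + 1)! : ℝ) * |x| := by
      rw [abs_mul, abs_of_pos (fac_pos k)]
    have e4 := abs_le.1 e3.le
    rw [abs_le]
    constructor <;> nlinarith [e4.1, e4.2]
  rw [fl, Real.norm_eq_abs, abs_mul, abs_of_pos h1, ← W_mul]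
  nlinarith

lemma fh_bound (x : ℝ) (k : ℕ) : ‖fh x k‖ ≤ (|x| + 1) * (1 / 2) ^ (k + 1) := by
  have h1 := W_pos k
  have h0 := fac_ge k
  have h2 : |((⌊((k + 1)! : ℝ) * x⌋ : ℤ) : ℝ) + 1| ≤ ((k + 1)! : ℝ) * (|x| + 1) := by
    have e1 := Int.floor_le (((k + 1)! : ℝ) * x)
    have e2 := Int.lt_floor_add_one (((k + 1)! : ℝ) * x)
    have e3 : |((k + 1)! : ℝ) * x| = ((k + 1)! : ℝ) * |x| := by
      rw [abs_mul, abs_of_pos (fac_pos k)]
    have e4 := abs_le.1 e3.le
    rw [abs_le]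
    constructor <;> nlinarith [e4.1, e4.2]
  rw [fh, Real.norm_eq_abs, abs_mul, abs_of_pos h1, ← W_mul]
  nlinarith

lemma fl_summable (x : ℝ) : Summable (fl x) :=
  Summable.of_norm_bounded (geo_sum.mul_left (|x| + 1)) (fl_bound x)

lemma fh_summable (x : ℝ) : Summable (fh x) :=
  Summable.of_norm_bounded (geo_sum.mul_left (|x| + 1)) (fh_bound x)

/-- the left end point -/
noncomputable def lo (x : ℝ) : ℝ := (x + ∑' k, fl x k) / 2

/-- the right end point -/
noncomputable def hi (x : ℝ) : ℝ := (x + ∑' k, fh x k) / 2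

lemma fl_le_fh (x : ℝ) (k : ℕ) : fl x k ≤ fh x k := by
  have h1 := W_pos k
  have h2 : ((⌈((k + 1)! : ℝ) * x⌉ : ℤ) : ℝ) ≤ ⌊((k + 1)! : ℝ) * x⌋ + 1 := by
    exact_mod_cast Int.ceil_le_floor_add_one _
  exact mul_le_mul_of_nonneg_left h2 h1.le

lemma lo_le_hi (x : ℝ) : lo x ≤ hi x := by
  have := (fl_summable x).tsum_le_tsum (fl_le_fh x) (fh_summable x)
  unfold lo hi
  linarith

lemma fh_le_fl {x y : ℝ} (h : x < y) (k : ℕ) : fh x k ≤ fl y k := by
  have h1 := W_pos k
  have h2 : ⌊((k + 1)! : ℝ) * x⌋ + 1 ≤ ⌈((k + 1)! : ℝ) * y⌉ := by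
    rw [Int.add_one_le_iff, Int.lt_ceil]
    calc ((⌊((k + 1)! : ℝ) * x⌋ : ℤ) : ℝ) ≤ ((k + 1)! : ℝ) * x := Int.floor_le _
      _ < ((k + 1)! : ℝ) * y := mul_lt_mul_of_pos_left h (fac_pos k)
  have h3 : ((⌊((k + 1)! : ℝ) * x⌋ : ℤ) : ℝ) + 1 ≤ ⌈((k + 1)! : ℝ) * y⌉ := by exact_mod_cast h2
  exact mul_le_mul_of_nonneg_left h3 h1.le

lemma hi_lt_lo {x y : ℝ} (h : x < y) : hi x < lo y := by
  have := (fh_summable x).tsum_le_tsum (fh_le_fl h) (fl_summable y)
  unfold lo hi
  linarith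

lemma lo_strict : StrictMono lo := fun _ _ h => (lo_le_hi _).trans_lt (hi_lt_lo h)

lemma hi_strict : StrictMono hi := fun _ _ h => (hi_lt_lo h).trans_le (lo_le_hi _)

lemma lo_add (x : ℝ) (m : ℤ) : lo (x + m) = lo x + m := by
  have h1 : ∀ k, fl (x + m) k = fl x k + m * (1 / 2) ^ (k + 1) := by
    intro k
    have e : ((k + 1)! : ℝ) * (x + m) = ((k + 1)! : ℝ) * x + (((k + 1)! : ℤ) * m : ℤ) := by
      push_cast
      ring
    unfold fl
    rw [e, Int.ceil_add_intCast, ← W_mul]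
    push_cast
    ring
  have h2 : ∑' k, fl (x + m) k = ∑' k, fl x k + m := by
    rw [tsum_congr h1, (fl_summable x).tsum_add (geo_sum.mul_left _), tsum_mul_left, geo_tsum,
      mul_one]
  unfold lo
  rw [h2]
  ring

lemma hi_add (x : ℝ) (m : ℤ) : hi (x + m) = hi x + m := by
  have h1 : ∀ k, fh (x + m) k = fh x k + m * (1 / 2) ^ (k + 1) := by
    intro k
    have e : ((k + 1)! : ℝ) * (x + m) = ((k + 1)! : ℝ) * x + (((k + 1)! : ℤ) * m : ℤ) := by
      push_cast
      ring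
    unfold fh
    rw [e, Int.floor_add_intCast, ← W_mul]
    push_cast
    ring
  have h2 : ∑' k, fh (x + m) k = ∑' k, fh x k + m := by
    rw [tsum_congr h1, (fh_summable x).tsum_add (geo_sum.mul_left _), tsum_mul_left, geo_tsum,
      mul_one]
  unfold hi
  rw [h2]
  ring

lemma lo_zero : lo 0 = 0 := by
  unfold lo fl
  simp

lemma lo_int (m : ℤ) : lo m = m := by
  have := lo_add 0 m
  rwa [zero_add, lo_zero, zero_add] at this

lemma hi_zero : 1 / 4 ≤ hi 0 := by
  have h1 : fh 0 0 ≤ ∑' k, fh 0 k := (fh_summable 0).le_tsum 0 fun k _ => by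
    have := W_pos k
    unfold fh
    simp [this.le]
  have h2 : fh 0 0 = 1 / 2 := by
    unfold fh W
    simp
  unfold hi
  linarith

/-- for rational points the interval is not degenerate -/
lemma lo_lt_hi (q : ℚ) : lo q < hi q := by
  have h : fl q q.den < fh q q.den := by
    have h1 := W_pos q.den
    obtain ⟨m, hm⟩ : ∃ m : ℤ, ((q.den + 1)! : ℝ) * q = m := by
      obtain ⟨d, hd⟩ : q.den ∣ (q.den + 1)! :=
        Nat.dvd_factorial q.den_pos (Nat.le_succ _)
      refine ⟨d * q.num, ?_⟩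
      have h2 : (q : ℝ) * q.den = q.num := by
        exact_mod_cast Rat.mul_den_eq_num q
      rw [hd]
      push_cast
      linear_combination (d : ℝ) * h2
    have h2 : ((⌈((q.den + 1)! : ℝ) * q⌉ : ℤ) : ℝ) < ⌊((q.den + 1)! : ℝ) * q⌋ + 1 := by
      rw [hm, Int.ceil_intCast, Int.floor_intCast]
      linarith
    exact mul_lt_mul_of_pos_left h2 h1
  have := (fl_summable q).tsum_lt_tsum (fl_le_fh q) h (fh_summable q)
  unfold lo hi
  linarith

/-- for irrational points the interval is degenerate -/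
lemma lo_eq_hi {x : ℝ} (h : ∀ q : ℚ, x ≠ q) : lo x = hi x := by
  have h1 : ∀ k, fl x k = fh x k := by
    intro k
    have h2 : (⌈((k + 1)! : ℝ) * x⌉ : ℤ) = ⌊((k + 1)! : ℝ) * x⌋ + 1 := by
      rw [Int.ceil_eq_floor_add_one_iff_notMem]
      rintro ⟨m, hm⟩
      apply h (m / ((k + 1)! : ℚ))
      have := fac_pos k
      push_cast
      rw [hm]
      field_simp
    unfold fl fh
    rw [h2]
    push_cast
    ring
  unfold lo hi
  rw [tsum_congr h1]

/-! ### one sided continuity -/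

lemma ceil_left {n : ℝ} (hn : 0 < n) (x : ℝ) : ∀ᶠ y in 𝓝[≤] x, ⌈n * y⌉ = ⌈n * x⌉ := by
  have h1 : ∀ᶠ y in 𝓝[≤] x, ((⌈n * x⌉ : ℤ) : ℝ) - 1 < n * y := by
    apply nhdsWithin_le_nhds
    have h2 : ((⌈n * x⌉ : ℤ) : ℝ) - 1 < n * x := by
      have := Int.ceil_lt_add_one (n * x)
      linarith
    exact (isOpen_lt continuous_const (by fun_prop)).mem_nhds h2
  filter_upwards [h1, self_mem_nhdsWithin] with y h2 h3
  rw [Int.ceil_eq_iff]
  exact ⟨h2, (mul_le_mul_of_nonneg_left h3 hn.le).trans (Int.le_ceil _)⟩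

lemma floor_right {n : ℝ} (hn : 0 < n) (x : ℝ) : ∀ᶠ y in 𝓝[≥] x, ⌊n * y⌋ = ⌊n * x⌋ := by
  have h1 : ∀ᶠ y in 𝓝[≥] x, n * y < ((⌊n * x⌋ : ℤ) : ℝ) + 1 := by
    apply nhdsWithin_le_nhds
    exact (isOpen_lt (by fun_prop) continuous_const).mem_nhds (Int.lt_floor_add_one (n * x))
  filter_upwards [h1, self_mem_nhdsWithin] with y h2 h3
  rw [Int.floor_eq_iff]
  exact ⟨(Int.floor_le _).trans (mul_le_mul_of_nonneg_left h3 hn.le), h2⟩

lemma near_bound (x : ℝ) : ∀ᶠ y in 𝓝 x, |y| ≤ |x| + 1 := by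
  have h1 : Ioo (x - 1) (x + 1) ∈ 𝓝 x := Ioo_mem_nhds (by linarith) (by linarith)
  filter_upwards [h1] with y hy
  have h2 : |y - x| ≤ 1 := abs_le.2 ⟨by linarith [hy.1], by linarith [hy.2]⟩
  have h3 : |y| ≤ |y - x| + |x| := by
    have := abs_add_le (y - x) x
    rwa [sub_add_cancel] at this
  linarith

lemma lo_left (x : ℝ) : Tendsto lo (𝓝[≤] x) (𝓝 (lo x)) := by
  have h1 : Tendsto (fun y => ∑' k, fl y k) (𝓝[≤] x) (𝓝 (∑' k, fl x k)) := by
    refine tendsto_tsum_of_dominated_convergence (geo_sum.mul_left (|x| + 2)) (fun k => ?_) ?_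
    · refine tendsto_const_nhds.congr' ?_
      filter_upwards [ceil_left (fac_pos k) x] with y hy
      unfold fl
      rw [hy]
    · filter_upwards [nhdsWithin_le_nhds (near_bound x)] with y hy k
      refine (fl_bound y k).trans ?_
      have : (0 : ℝ) < (1 / 2) ^ (k + 1) := by positivity
      nlinarith
  have h2 : Tendsto (fun y : ℝ => y) (𝓝[≤] x) (𝓝 x) := tendsto_id.mono_left nhdsWithin_le_nhds
  exact (h2.add h1).div_const 2

lemma hi_right (x : ℝ) : Tendsto hi (𝓝[≥] x) (𝓝 (hi x)) := by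
  have h1 : Tendsto (fun y => ∑' k, fh y k) (𝓝[≥] x) (𝓝 (∑' k, fh x k)) := by
    refine tendsto_tsum_of_dominated_convergence (geo_sum.mul_left (|x| + 2)) (fun k => ?_) ?_
    · refine tendsto_const_nhds.congr' ?_
      filter_upwards [floor_right (fac_pos k) x] with y hy
      unfold fh
      rw [hy]
    · filter_upwards [nhdsWithin_le_nhds (near_bound x)] with y hy k
      refine (fh_bound y k).trans ?_
      have : (0 : ℝ) < (1 / 2) ^ (k + 1) := by positivity
      nlinarith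
  have h2 : Tendsto (fun y : ℝ => y) (𝓝[≥] x) (𝓝 x) := tendsto_id.mono_left nhdsWithin_le_nhds
  exact (h2.add h1).div_const 2

/-! ### the collapse map -/

/-- the collapse map -/
noncomputable def pr (u : ℝ) : ℝ := sSup {x | lo x ≤ u}

lemma set_ne (u : ℝ) : {x | lo x ≤ u}.Nonempty := ⟨⌊u⌋, by
  change lo _ ≤ u
  rw [lo_int]
  exact Int.floor_le u⟩

lemma set_bdd (u : ℝ) : BddAbove {x | lo x ≤ u} := ⟨⌈u⌉, fun x hx => by
  by_contra h
  push Not at h
  have h1 := lo_strict h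
  rw [lo_int] at h1
  have h2 : lo x ≤ u := hx
  have := Int.le_ceil u
  linarith⟩

lemma lo_pr (u : ℝ) : lo (pr u) ≤ u := by
  by_contra h
  push Not at h
  have h1 : ∀ᶠ y in 𝓝[≤] (pr u), u < lo y := (lo_left (pr u)).eventually_const_lt h
  have h1' : ∀ᶠ y in 𝓝[<] (pr u), u < lo y := nhdsWithin_mono _ Iio_subset_Iic_self h1
  obtain ⟨y, hy, hy2⟩ := (h1'.and self_mem_nhdsWithin).exists
  obtain ⟨z, hz, hyz⟩ := exists_lt_of_lt_csSup (set_ne u) hy2
  have h2 := lo_strict hyz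
  have h3 : lo z ≤ u := hz
  linarith

lemma le_hi_pr (u : ℝ) : u ≤ hi (pr u) := by
  by_contra h
  push Not at h
  have h1 : ∀ᶠ y in 𝓝[≥] (pr u), hi y < u := (hi_right (pr u)).eventually_lt_const h
  have h1' : ∀ᶠ y in 𝓝[>] (pr u), hi y < u := nhdsWithin_mono _ Ioi_subset_Ici_self h1
  obtain ⟨y, hy, hy2⟩ := (h1'.and self_mem_nhdsWithin).exists
  have h2 : y ≤ pr u := le_csSup (set_bdd u) (show lo y ≤ u from (lo_le_hi y).trans hy.le)
  exact absurd hy2 (not_lt.2 h2)

lemma pr_eq {x u : ℝ} (h1 : lo x ≤ u) (h2 : u ≤ hi x) : pr u = x := by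
  rcases lt_trichotomy (pr u) x with h | h | h
  · have := hi_lt_lo h
    have := le_hi_pr u
    linarith
  · exact h
  · have := hi_lt_lo h
    have := lo_pr u
    linarith

lemma pr_lo (x : ℝ) : pr (lo x) = x := pr_eq le_rfl (lo_le_hi x)

lemma pr_hi (x : ℝ) : pr (hi x) = x := pr_eq (lo_le_hi x) le_rfl

lemma pr_mono : Monotone pr := by
  intro u v h
  by_contra h1
  push Not at h1
  have := hi_lt_lo h1
  have := lo_pr u
  have := le_hi_pr v
  linarith

lemma pr_surj : Function.Surjective pr := fun x => ⟨lo x, pr_lo x⟩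

lemma pr_cont : Continuous pr := pr_mono.continuous_of_surjective pr_surj

lemma pr_add (u : ℝ) (m : ℤ) : pr (u + m) = pr u + m := by
  apply pr_eq
  · rw [lo_add]
    have := lo_pr u
    linarith
  · rw [hi_add]
    have := le_hi_pr u
    linarith

lemma pr_near (u : ℝ) : |u - pr u| ≤ 1 := by
  have h1 := lo_pr u
  have h2 := le_hi_pr u
  have h3 : lo ⌊pr u⌋ ≤ lo (pr u) := lo_strict.monotone (Int.floor_le _)
  have h4 : hi (pr u) < lo (⌊pr u⌋ + 1 : ℤ) := hi_lt_lo (by
    push_cast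
    exact Int.lt_floor_add_one _)
  rw [lo_int] at h3 h4
  push_cast at h4
  have h5 := Int.floor_le (pr u)
  have h6 := Int.lt_floor_add_one (pr u)
  rw [abs_le]
  constructor <;> linarith

/-! ### the action -/

/-- the length of the interval over a point -/
noncomputable def wd (x : ℝ) : ℝ := hi x - lo x

lemma wd_nonneg (x : ℝ) : 0 ≤ wd x := sub_nonneg.2 (lo_le_hi x)

lemma wd_pos (q : ℚ) : 0 < wd q := sub_pos.2 (lo_lt_hi q)

lemma wd_eq_zero {x : ℝ} (h : wd x = 0) (c : ℚ) : wd (x + c) = 0 := by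
  have h1 : ∀ q : ℚ, x + c ≠ q := by
    intro q hq
    have h2 : x = ((q - c : ℚ) : ℝ) := by
      push_cast
      linarith
    have := wd_pos (q - c)
    rw [← h2, h] at this
    exact lt_irrefl _ this
  unfold wd
  rw [lo_eq_hi h1, sub_self]

lemma wd_ne_zero {x : ℝ} (h : wd x ≠ 0) (c : ℚ) : 0 < wd (x + c) := by
  refine (wd_nonneg _).lt_of_ne' fun h1 => h ?_
  have := wd_eq_zero h1 (-c)
  push_cast at this
  rwa [add_neg_cancel_right] at this

/-- the action of the rational numbers on the blown up line -/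
noncomputable def tau (c : ℚ) (u : ℝ) : ℝ :=
  lo (pr u + c) + (u - lo (pr u)) * (wd (pr u + c) / wd (pr u))

lemma tau_def (c : ℚ) (u : ℝ) :
    tau c u = lo (pr u + c) + (u - lo (pr u)) * (wd (pr u + c) / wd (pr u)) := rfl

lemma tau_lo {c : ℚ} {u : ℝ} : lo (pr u + c) ≤ tau c u := by
  have h1 := lo_pr u
  have h2 : 0 ≤ wd (pr u + c) / wd (pr u) := div_nonneg (wd_nonneg _) (wd_nonneg _)
  unfold tau
  nlinarith

lemma tau_hi {c : ℚ} {u : ℝ} : tau c u ≤ hi (pr u + c) := by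
  have h1 := lo_pr u
  have h3 := le_hi_pr u
  by_cases h : wd (pr u) = 0
  · have h2 := wd_eq_zero h c
    unfold tau
    rw [h2, zero_div, mul_zero, add_zero]
    exact lo_le_hi _
  · have h4 : (u - lo (pr u)) * (wd (pr u + c) / wd (pr u)) ≤ wd (pr u + c) := by
      have h5 : 0 < wd (pr u) := (wd_nonneg _).lt_of_ne' h
      have h6 := wd_nonneg (pr u + c)
      rw [← mul_div_assoc, div_le_iff₀ h5, mul_comm (wd (pr u + c))]
      apply mul_le_mul_of_nonneg_right _ h6
      unfold wd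
      linarith
    unfold tau
    have h7 : hi (pr u + c) = lo (pr u + c) + wd (pr u + c) := by
      unfold wd
      ring
    linarith

lemma pr_tau (c : ℚ) (u : ℝ) : pr (tau c u) = pr u + c := pr_eq tau_lo tau_hi

lemma tau_zero (u : ℝ) : tau 0 u = u := by
  have h1 := lo_pr u
  have h3 := le_hi_pr u
  unfold tau
  rw [Rat.cast_zero, add_zero]
  by_cases h : wd (pr u) = 0
  · rw [h, div_zero, mul_zero]
    unfold wd at h
    linarith
  · rw [div_self h]
    ring

lemma tau_add (c d : ℚ) (u : ℝ) : tau (c + d) u = tau c (tau d u) := by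
  have e : pr u + ((c + d : ℚ) : ℝ) = pr u + d + c := by
    push_cast
    ring
  have h1 : tau c (tau d u) = lo (pr u + d + c) + (tau d u - lo (pr u + d)) *
      (wd (pr u + d + c) / wd (pr u + d)) := by
    rw [tau_def c (tau d u), pr_tau]
  rw [h1]
  have h2 : tau d u - lo (pr u + d) = (u - lo (pr u)) * (wd (pr u + d) / wd (pr u)) := by
    unfold tau
    ring
  have h3 : tau (c + d) u = lo (pr u + d + c) + (u - lo (pr u)) *
      (wd (pr u + d + c) / wd (pr u)) := by
    unfold tau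
    rw [e]
  rw [h2, h3]
  by_cases h : wd (pr u) = 0
  · rw [h]
    simp
  · have h4 := wd_ne_zero h d
    field_simp

lemma tau_strict (c : ℚ) : StrictMono (tau c) := by
  intro u v h
  rcases (pr_mono h.le).lt_or_eq with h1 | h1
  · have h2 : hi (pr u + c) < lo (pr v + c) := hi_lt_lo (by linarith)
    exact (tau_hi.trans_lt h2).trans_le tau_lo
  · have h2 : wd (pr u) ≠ 0 := by
      intro h3
      unfold wd at h3
      have := lo_pr u
      have := le_hi_pr v
      rw [← h1] at this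
      linarith
    have h3 := wd_ne_zero h2 c
    have h4 : 0 < wd (pr u) := (wd_nonneg _).lt_of_ne' h2
    have h5 : 0 < wd (pr u + c) / wd (pr u) := by positivity
    unfold tau
    rw [← h1]
    nlinarith

lemma tau_surj (c : ℚ) : Function.Surjective (tau c) := fun u => ⟨tau (-c) u, by
  rw [← tau_add, add_neg_cancel, tau_zero]⟩

lemma tau_cont (c : ℚ) : Continuous (tau c) :=
  (tau_strict c).monotone.continuous_of_surjective (tau_surj c)

lemma wd_add (x : ℝ) (m : ℤ) : wd (x + m) = wd x := by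
  unfold wd
  rw [lo_add, hi_add]
  ring

lemma tau_add_int (c : ℚ) (u : ℝ) (m : ℤ) : tau c (u + m) = tau c u + m := by
  have e : pr u + m + c = pr u + c + m := by ring
  unfold tau
  rw [pr_add, e, lo_add, lo_add, wd_add, wd_add]
  ring

lemma tau_int (m : ℤ) (u : ℝ) : tau m u = u + m := by
  have h1 : tau (m : ℚ) u = tau 0 u + m := by
    unfold tau
    rw [Rat.cast_intCast, Rat.cast_zero, add_zero, lo_add, wd_add]
    ring
  rw [h1, tau_zero]

lemma tau_hi_eq (c q : ℚ) : tau c (hi q) = hi (q + c) := by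
  unfold tau
  rw [pr_hi]
  have h := wd_pos q
  have h1 : hi q - lo q = wd q := rfl
  rw [h1]
  have h2 : wd q * (wd (q + c) / wd q) = wd (q + c) := by field_simp
  rw [h2]
  unfold wd
  ring

lemma tau_lo_eq (c q : ℚ) : tau c (lo q) = lo (q + c) := by
  unfold tau
  rw [pr_lo]
  ring

/-- the middle of the interval over a point -/
noncomputable def mid (x : ℝ) : ℝ := (lo x + hi x) / 2

lemma pr_mid (x : ℝ) : pr (mid x) = x := by
  have := lo_le_hi x
  apply pr_eq <;> (unfold mid; linarith)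

lemma tau_mid (c q : ℚ) : tau c (mid q) = mid (q + c) := by
  unfold tau
  rw [pr_mid]
  have h := wd_pos q
  have h1 : mid q - lo q = wd q / 2 := by
    unfold mid wd
    ring
  rw [h1]
  have h2 : wd q / 2 * (wd (q + c) / wd q) = wd (q + c) / 2 := by field_simp
  rw [h2]
  unfold mid wd
  ring

lemma mid_add (x : ℝ) (m : ℤ) : mid (x + m) = mid x + m := by
  unfold mid
  rw [lo_add, hi_add]
  ring

lemma lo_lt_mid (q : ℚ) : lo q < mid q := by
  have := lo_lt_hi q
  unfold mid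
  linarith

lemma mid_lt_hi (q : ℚ) : mid q < hi q := by
  have := lo_lt_hi q
  unfold mid
  linarith

lemma tau_near (c : ℚ) (u : ℝ) : |tau c u - u - c| ≤ 2 := by
  have h1 := pr_near u
  have h2 := pr_near (tau c u)
  rw [pr_tau] at h2
  rw [abs_le] at *
  constructor <;> linarith [h1.1, h1.2, h2.1, h2.2]

end Pool.Agent.H65.Qm
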