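import Pool.Agent.H65.Qm.Ord

/-!
# The rational numbers as a subgroup
-/

set_option autoImplicit false

namespace Pool.Agent.H65.Qm

open Pool.Agent.Q238.AR (RigidSurface)

/-- the homomorphism to the mapping class group -/
noncomputable def FQ : Multiplicative ℚ →* YY.Mod := YY.cls.comp FC

lemma FQ_one {c : ℚ} (h : FQ (Multiplicative.ofAdd c) = 1) : YY.Isotopic (fc c) := by
  have h1 : FC (Multiplicative.ofAdd c) ∈ YY.Iso.subgroupOf YY.Grp :=
    (QuotientGroup.eq_one_iff _).1 h
  exact h1

lemma FQ_ker (c : ℚ) (hx : FQ (Multiplicative.ofAdd c) = 1) : c = 0 := by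
  have h1 : FQ (Multiplicative.ofAdd ((c.num : ℤ) : ℚ)) = 1 := by
    have h2 : Multiplicative.ofAdd ((c.num : ℤ) : ℚ) = (Multiplicative.ofAdd c) ^ c.den := by
      rw [← ofAdd_nsmul]
      congr 1
      rw [nsmul_eq_mul, mul_comm]
      exact (Rat.mul_den_eq_num c).symm
    rw [h2, map_pow, hx, one_pow]
  exact Rat.num_eq_zero.1 (twist_inf (FQ_one h1))

lemma FQ_inj : Function.Injective FQ := by
  rw [injective_iff_map_eq_one]
  intro x hx
  have h := FQ_ker x.toAdd hx
  exact Multiplicative.toAdd.injective h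

end Pool.Agent.H65.Qm
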