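import Pool.Agent.H65.Qm.Sec
import Pool.Graph.R_pool_sql_team_seeded_3997aac3.Q238.AR.Poly

/-!
# Sets in polar coordinates
-/

set_option autoImplicit false

namespace Pool.Agent.H65.Qm

open Set Topology Filter
open Pool.Agent.Q238.AR (pp pp_eq pp_norm pp_cont pp_surj pp_quot EE Dsc Dsc_pp fib homeo_of_inj)

lemma pp_inj {x y : ℝ × ℝ} (h : pp x = pp y) (hx : 0 < x.1) : x.1 = y.1 ∧ ∃ m : ℤ, x.2 = y.2 + m := by
  rw [pp_eq] at h
  rcases h with ⟨h1, -⟩ | h
  · linarith
  · exact h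

lemma pp_add_int (r t : ℝ) (m : ℤ) : pp (r, t + m) = pp (r, t) := by
  rw [pp_eq]
  exact Or.inr ⟨rfl, m, rfl⟩

lemma pp_open {W : Set (ℝ × ℝ)} (hW : IsOpen W) (hp : ∀ x ∈ W, 0 < x.1) : IsOpen (pp '' W) := by
  rw [← pp_quot.isOpen_preimage]
  have h : pp ⁻¹' (pp '' W) = ⋃ m : ℤ, (fun x : ℝ × ℝ => (x.1, x.2 + m)) ⁻¹' W := by
    ext x
    rw [mem_iUnion]
    constructor
    · rintro ⟨y, hy, hxy⟩
      obtain ⟨h1, m, h2⟩ := pp_inj hxy (hp y hy)
      refine ⟨m, ?_⟩
      have : y = (x.1, x.2 + m) := Prod.ext h1 h2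
      rw [this] at hy
      exact hy
    · rintro ⟨m, hm⟩
      exact ⟨_, hm, pp_add_int x.1 x.2 m⟩
  rw [h]
  exact isOpen_iUnion fun m => hW.preimage (by fun_prop)

lemma int_zero {m : ℤ} (h1 : (m : ℝ) < 1) (h2 : -1 < (m : ℝ)) : m = 0 := by
  have h3 : m < 1 := by exact_mod_cast h1
  have h4 : -1 < m := by exact_mod_cast h2
  omega

/-- a graph in polar coordinates is an arc -/
lemma arc_graph {a b : ℝ} (hab : a < b) (hb : b < a + 1) {f : ℝ → ℝ} (hf : Continuous f)
    (hpos : ∀ t ∈ Icc a b, 0 < f t) :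
    Nonempty ({z | ∃ t ∈ Icc a b, z = pp (f t, t)} ≃ₜ unitInterval) := by
  let g : Icc a b → ℂ := fun t => pp (f t, t)
  have hg : Continuous g := pp_cont.comp (by fun_prop)
  have hi : Function.Injective g := by
    intro s t hst
    obtain ⟨-, m, h2⟩ := pp_inj hst (hpos s s.2)
    simp only at h2
    have a1 := s.2.1
    have a2 := s.2.2
    have b1 := t.2.1
    have b2 := t.2.2
    have h6 : m = 0 := int_zero (by linarith) (by linarith)
    rw [h6] at h2
    apply Subtype.ext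
    simpa using h2
  have hr : range g = {z | ∃ t ∈ Icc a b, z = pp (f t, t)} := by
    ext z
    constructor
    · rintro ⟨t, rfl⟩
      exact ⟨t, t.2, rfl⟩
    · rintro ⟨t, ht, rfl⟩
      exact ⟨⟨t, ht⟩, rfl⟩
  obtain ⟨e⟩ := homeo_of_inj hg hi hr
  exact ⟨e.symm.trans (iccHomeoI _ _ hab)⟩

/-- a convex set in polar coordinates is a disc -/
lemma conv_disc {K : Set ℂ} (hc : Convex ℝ K) (hcl : IsClosed K) (hb : Bornology.IsBounded K)
    (hne : (interior K).Nonempty) (hpos : ∀ z ∈ K, 0 < z.re)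
    (hw : ∀ z ∈ K, ∀ w ∈ K, z.im - w.im < 1) :
    Nonempty ((fun z : ℂ => pp (z.re, z.im)) '' K ≃ₜ Metric.closedBall (0 : ℂ) 1) := by
  have : CompactSpace K :=
    isCompact_iff_compactSpace.1 (Metric.isCompact_of_isClosed_isBounded hcl hb)
  let f : K → ℂ := fun z => pp (z.1.re, z.1.im)
  have hf : Continuous f := by
    refine pp_cont.comp ?_
    have h1 := Complex.continuous_re
    have h2 := Complex.continuous_im
    fun_prop
  have hi : Function.Injective f := by
    intro z w hzw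
    obtain ⟨h1, m, h2⟩ := pp_inj hzw (hpos z z.2)
    simp only at h1 h2
    have a1 := hw z z.2 w w.2
    have a2 := hw w w.2 z z.2
    have h6 : m = 0 := int_zero (by linarith) (by linarith)
    rw [h6] at h2
    exact Subtype.ext (Complex.ext h1 (by simpa using h2))
  have hr : range f = (fun z : ℂ => pp (z.re, z.im)) '' K := by
    ext z
    constructor
    · rintro ⟨t, rfl⟩
      exact ⟨t, t.2, rfl⟩
    · rintro ⟨t, ht, rfl⟩
      exact ⟨⟨t, ht⟩, rfl⟩
  obtain ⟨e⟩ := homeo_of_inj hf hi hr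
  obtain ⟨h, -, h2, -⟩ := exists_homeomorph_image_interior_closure_frontier_eq_unitBall hc hne hb
  rw [hcl.closure_eq] at h2
  have e2 : K ≃ₜ h '' K := h.image K
  rw [h2] at e2
  exact ⟨e.symm.trans e2⟩

/-! ### the disc of radius `1` -/

lemma hi_zero_lt : hi 0 < 1 := by
  have h := hi_lt_lo (show (0 : ℝ) < ((1 : ℤ) : ℝ) by norm_num)
  rw [lo_int] at h
  simpa using h

/-- the angles of the two punctures near the origin -/
noncomputable def tn (b : Bool) : ℝ := if b then 3 * hi 0 / 4 else hi 0 / 4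

lemma tn_true : tn true = 3 * hi 0 / 4 := if_pos rfl

lemma tn_false : tn false = hi 0 / 4 := if_neg (by simp)

lemma tn_mem (b : Bool) : hi 0 / 4 ≤ tn b ∧ tn b ≤ 3 * hi 0 / 4 := by
  have := hi_zero
  cases b
  · rw [tn_false]
    constructor <;> linarith
  · rw [tn_true]
    constructor <;> linarith

/-- the boundary of the central polygon -/
noncomputable def e0 (x : ℝ) : ℝ :=
  min 1 (min (1 / 8 + 35 * |x - tn false|) (1 / 8 + 35 * |x - tn true|))

/-- the boundary of the central polygon -/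
noncomputable def ep (t : ℝ) : ℝ := e0 (Int.fract t)

lemma e0_le (x : ℝ) : e0 x ≤ 1 := min_le_left _ _

lemma e0_le' (x : ℝ) (b : Bool) : e0 x ≤ 1 / 8 + 35 * |x - tn b| := by
  unfold e0
  cases b
  · exact (min_le_right _ _).trans (min_le_left _ _)
  · exact (min_le_right _ _).trans (min_le_right _ _)

lemma e0_ge (x : ℝ) : 1 / 8 ≤ e0 x := by
  unfold e0
  have h1 := abs_nonneg (x - tn false)
  have h2 := abs_nonneg (x - tn true)
  exact le_min (by norm_num) (le_min (by linarith) (by linarith))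

lemma e0_far {x : ℝ} (h : ∀ b, 1 / 40 ≤ |x - tn b|) : e0 x = 1 := by
  unfold e0
  have h1 := h false
  have h2 := h true
  exact min_eq_left (le_min (by linarith) (by linarith))

lemma e0_near {x : ℝ} {b : Bool} (h : |x - tn b| ≤ 1 / 40) : e0 x = 1 / 8 + 35 * |x - tn b| := by
  have hw := hi_zero
  obtain ⟨h1, h2⟩ := abs_le.1 h
  apply le_antisymm (e0_le' x b)
  unfold e0
  refine le_min (by linarith) ?_
  cases b
  · refine le_min le_rfl ?_
    rw [tn_false] at h1 h2
    have : 1 / 40 ≤ |x - tn true| := by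
      rw [tn_true]
      exact le_trans (by linarith) (neg_le_abs _)
    linarith
  · refine le_min ?_ le_rfl
    rw [tn_true] at h1 h2
    have : 1 / 40 ≤ |x - tn false| := by
      rw [tn_false]
      exact le_trans (by linarith) (le_abs_self _)
    linarith

lemma e0_lt {x : ℝ} (h : e0 x < 1) : ∃ b, e0 x = 1 / 8 + 35 * |x - tn b| := by
  by_contra hcon
  push Not at hcon
  have h1 : ∀ b, 1 / 40 ≤ |x - tn b| := by
    intro b
    by_contra h2
    push Not at h2
    exact hcon b (e0_near h2.le)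
  rw [e0_far h1] at h
  exact lt_irrefl _ h

lemma e0_zero : e0 0 = 1 := e0_far fun b => by
  have := (tn_mem b).1
  have hw := hi_zero
  exact le_trans (by linarith) (neg_le_abs _)

lemma e0_slit {x : ℝ} (h : hi 0 ≤ x) : e0 x = 1 := e0_far fun b => by
  have := (tn_mem b).2
  have hw := hi_zero
  exact le_trans (by linarith) (le_abs_self _)

lemma e0_cont : Continuous e0 := by
  unfold e0
  fun_prop

lemma ep_cont : Continuous ep := by
  refine ContinuousOn.comp_fract'' e0_cont.continuousOn ?_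
  rw [e0_zero, e0_slit hi_zero_lt.le]

lemma ep_add (t : ℝ) (m : ℤ) : ep (t + m) = ep t := by
  unfold ep
  rw [Int.fract_add_intCast]

lemma ep_le (t : ℝ) : ep t ≤ 1 := e0_le _

lemma ep_ge (t : ℝ) : 1 / 8 ≤ ep t := e0_ge _

lemma ep_eq {t : ℝ} (h0 : 0 ≤ t) (h1 : t < 1) : ep t = e0 t := by
  unfold ep
  rw [Int.fract_eq_self.2 ⟨h0, h1⟩]

lemma ep_near {t : ℝ} {b : Bool} (h : |t - tn b| ≤ 1 / 40) : ep t = 1 / 8 + 35 * |t - tn b| := by
  have hw := hi_zero
  have hw1 := hi_zero_lt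
  obtain ⟨h1, h2⟩ := abs_le.1 h
  obtain ⟨h3, h4⟩ := tn_mem b
  rw [ep_eq (by linarith) (by linarith), e0_near h]

lemma ep_slit {t : ℝ} (h : hi 0 ≤ t) (h' : t ≤ 1) : ep t = 1 := by
  have hw := hi_zero
  rcases h'.lt_or_eq with h1 | h1
  · rw [ep_eq (by linarith) h1, e0_slit h]
  · have : t = 0 + ((1 : ℤ) : ℝ) := by
      rw [h1]
      norm_num
    rw [this, ep_add, ep_eq le_rfl (by norm_num), e0_zero]

lemma ep_mid : ep (hi 0 / 2) = 1 := by
  have hw := hi_zero
  have hw1 := hi_zero_lt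
  rw [ep_eq (by linarith) (by linarith)]
  refine e0_far fun b => ?_
  cases b
  · rw [tn_false]
    exact le_trans (by linarith) (le_abs_self _)
  · rw [tn_true]
    exact le_trans (by linarith) (neg_le_abs _)

/-- the radial map which maps the disc to the central polygon -/
noncomputable def BE : ℝ × ℝ ≃ₜ ℝ × ℝ :=
  (Homeomorph.prodComm ℝ ℝ).trans ((fib (fun x => ep x.1 * x.2)
    (by have := ep_cont; fun_prop)
    (fun t => by
      intro r s h
      have := ep_ge t
      exact mul_lt_mul_of_pos_left h (by simp only; linarith))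
    (fun t r => ⟨r / ep t, by
      have := ep_ge t
      have h : ep t ≠ 0 := by linarith
      simp only
      field_simp⟩)).trans (Homeomorph.prodComm ℝ ℝ))

lemma BE_apply (r t : ℝ) : BE (r, t) = (ep t * r, t) := rfl

lemma BE_mem : BE ∈ EE := by
  refine ⟨fun x => ?_, fun x => ?_⟩
  · obtain ⟨r, t⟩ := x
    have h1 : ((r, t) : ℝ × ℝ) + (0, 1) = (r, t + ((1 : ℤ) : ℝ)) := by simp
    rw [h1, BE_apply, BE_apply, ep_add]
    simp
  · obtain ⟨r, t⟩ := x
    rw [BE_apply]
    have := ep_ge t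
    simp only
    constructor
    · intro h
      by_contra hcon
      push Not at hcon
      have := mul_pos (show 0 < ep t by linarith) hcon
      linarith
    · intro h
      nlinarith

/-- the central polygon in polar coordinates -/
def R0 : Set (ℝ × ℝ) := {x | x.1 ≤ ep x.2}

lemma mem_R0 {x : ℝ × ℝ} : pp x ∈ pp '' R0 ↔ x.1 ≤ ep x.2 := by
  constructor
  · rintro ⟨y, hy, hxy⟩
    have hy' : y.1 ≤ ep y.2 := hy
    rw [pp_eq] at hxy
    rcases hxy with ⟨-, h⟩ | ⟨h1, m, h2⟩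
    · have := ep_ge x.2
      linarith
    · rw [h1, h2, ep_add] at hy'
      exact hy'
  · exact fun h => ⟨x, h, rfl⟩

lemma root_disc : Nonempty (pp '' R0 ≃ₜ Metric.closedBall (0 : ℂ) 1) := by
  have h1 : Dsc ⟨BE, BE_mem⟩ '' Metric.closedBall (0 : ℂ) 1 = pp '' R0 := by
    ext z
    constructor
    · rintro ⟨y, hy, rfl⟩
      obtain ⟨⟨r, t⟩, rfl⟩ := pp_surj y
      rw [mem_closedBall_zero_iff, pp_norm] at hy
      have hr : r ≤ 1 := (le_max_left _ _).trans hy
      rw [Dsc_pp]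
      change pp (BE (r, t)) ∈ pp '' R0
      rw [mem_R0, BE_apply]
      have hb := ep_ge t
      simp only
      nlinarith
    · rintro ⟨⟨r, t⟩, h2, rfl⟩
      have h2' : r ≤ ep t := h2
      have hb := ep_ge t
      refine ⟨pp (r / ep t, t), ?_, ?_⟩
      · rw [mem_closedBall_zero_iff, pp_norm]
        refine max_le ?_ (by norm_num)
        simp only
        rw [div_le_one (by linarith)]
        exact h2'
      · rw [Dsc_pp]
        change pp (BE (r / ep t, t)) = pp (r, t)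
        rw [BE_apply]
        have : ep t ≠ 0 := by linarith
        congr 2
        field_simp
  rw [← h1]
  exact ⟨((Dsc ⟨BE, BE_mem⟩).image _).symm⟩

/-- the polygons around the two punctures near the origin -/
def RN (b : Bool) : Set (ℝ × ℝ) := {x | 1 / 8 + 35 * |x.2 - tn b| ≤ x.1 ∧ x.1 ≤ 1}

lemma mem_RN {b : Bool} {x : ℝ × ℝ} : pp x ∈ pp '' RN b ↔
    (∃ m : ℤ, 1 / 8 + 35 * |x.2 + m - tn b| ≤ x.1) ∧ x.1 ≤ 1 := by
  constructor
  · rintro ⟨y, ⟨hy, hy2⟩, hxy⟩
    have h0 := abs_nonneg (y.2 - tn b)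
    obtain ⟨h1, m, h2⟩ := pp_inj hxy (by linarith)
    rw [h1, h2] at hy
    exact ⟨⟨m, hy⟩, by rw [← h1]; exact hy2⟩
  · rintro ⟨⟨m, hm⟩, h⟩
    exact ⟨(x.1, x.2 + m), ⟨hm, h⟩, pp_add_int _ _ _⟩

/-- the other polygons -/
def RO (n : ℕ) (i : ℤ) : Set (ℝ × ℝ) := {x | n + 1 ≤ x.1 ∧ x.1 ≤ n + 2 ∧ Sec (cN n) i x.2}

lemma mem_RO {n : ℕ} {i : ℤ} {x : ℝ × ℝ} : pp x ∈ pp '' RO n i ↔
    n + 1 ≤ x.1 ∧ x.1 ≤ n + 2 ∧ ∃ m : ℤ, Sec (cN n) i (x.2 + m) := by
  constructor
  · rintro ⟨y, ⟨hy, hy2, hy3⟩, hxy⟩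
    have h0 : (0 : ℝ) ≤ n := by positivity
    obtain ⟨h1, m, h2⟩ := pp_inj hxy (by linarith)
    rw [h2] at hy3
    rw [h1] at hy hy2
    exact ⟨hy, hy2, m, hy3⟩
  · rintro ⟨h1, h2, m, h3⟩
    exact ⟨(x.1, x.2 + m), ⟨h1, h2, h3⟩, pp_add_int _ _ _⟩

lemma notch_disc (b : Bool) : Nonempty (pp '' RN b ≃ₜ Metric.closedBall (0 : ℂ) 1) := by
  let K : Set ℂ := {z | 1 / 8 + 35 * |z.im - tn b| ≤ z.re ∧ z.re ≤ 1}
  have h : pp '' RN b = (fun z : ℂ => pp (z.re, z.im)) '' K := by
    ext z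
    constructor
    · rintro ⟨x, hx, rfl⟩
      exact ⟨⟨x.1, x.2⟩, hx, rfl⟩
    · rintro ⟨x, hx, rfl⟩
      exact ⟨(x.re, x.im), hx, rfl⟩
  rw [h]
  have key : ∀ z ∈ K, |z.im - tn b| ≤ 1 / 40 := by
    rintro z ⟨h1, h2⟩
    linarith
  have hw := hi_zero
  have hw1 := hi_zero_lt
  obtain ⟨t1, t2⟩ := tn_mem b
  refine conv_disc ?_ ?_ ?_ ?_ ?_ ?_
  · rintro x ⟨x1, x2⟩ y ⟨y1, y2⟩ a c ha hc hac
    have hre : (a • x + c • y).re = a * x.re + c * y.re := by simp
    have him : (a • x + c • y).im = a * x.im + c * y.im := by simp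
    refine ⟨?_, ?_⟩
    · rw [hre, him]
      have h1 : a * x.im + c * y.im - tn b = a * (x.im - tn b) + c * (y.im - tn b) := by
        have : tn b = (a + c) * tn b := by rw [hac, one_mul]
        linear_combination -this
      have h2 : |a * x.im + c * y.im - tn b| ≤ a * |x.im - tn b| + c * |y.im - tn b| := by
        rw [h1]
        refine (abs_add_le _ _).trans ?_
        rw [abs_mul, abs_mul, abs_of_nonneg ha, abs_of_nonneg hc]
      have h3 := mul_le_mul_of_nonneg_left x1 ha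
      have h4 := mul_le_mul_of_nonneg_left y1 hc
      have h5 : a * (1 / 8) + c * (1 / 8) = (1 : ℝ) / 8 := by
        rw [← add_mul, hac, one_mul]
      linarith
    · rw [hre]
      nlinarith
  · refine (isClosed_le (f := fun z : ℂ => 1 / 8 + 35 * |z.im - tn b|)
      (g := fun z : ℂ => z.re) ?_ Complex.continuous_re).inter
      (isClosed_le Complex.continuous_re continuous_const)
    have := Complex.continuous_im
    fun_prop
  · refine (Metric.isBounded_closedBall (x := (0 : ℂ)) (r := 3)).subset ?_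
    intro z hz
    obtain ⟨h3, h4⟩ := abs_le.1 (key z hz)
    obtain ⟨h1, h2⟩ := hz
    rw [mem_closedBall_zero_iff]
    have h5 := Complex.norm_le_abs_re_add_abs_im z
    have h6 := abs_nonneg (z.im - tn b)
    rw [abs_of_nonneg (show 0 ≤ z.re by linarith), abs_of_nonneg (show 0 ≤ z.im by linarith)] at h5
    linarith
  · refine ⟨⟨1 / 2, tn b⟩, ?_⟩
    rw [mem_interior]
    refine ⟨{z | 1 / 8 + 35 * |z.im - tn b| < z.re} ∩ {z | z.re < 1}, ?_, ?_, ?_⟩
    · rintro z ⟨h1, h2⟩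
      simp only [mem_ofPred_eq] at h1 h2
      exact ⟨h1.le, h2.le⟩
    · refine (isOpen_lt (f := fun z : ℂ => 1 / 8 + 35 * |z.im - tn b|)
        (g := fun z : ℂ => z.re) ?_ Complex.continuous_re).inter
        (isOpen_lt Complex.continuous_re continuous_const)
      have := Complex.continuous_im
      fun_prop
    · refine ⟨?_, ?_⟩ <;> simp only [mem_ofPred_eq]
      · rw [sub_self, abs_zero]
        norm_num
      · norm_num
  · rintro z ⟨h1, h2⟩
    have h6 := abs_nonneg (z.im - tn b)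
    linarith
  · intro z hz w hw
    obtain ⟨h3, h4⟩ := abs_le.1 (key z hz)
    obtain ⟨h5, h6⟩ := abs_le.1 (key w hw)
    linarith

lemma out_disc (n : ℕ) (i : ℤ) : Nonempty (pp '' RO n i ≃ₜ Metric.closedBall (0 : ℂ) 1) := by
  have hN := cN_pos n
  let K : Set ℂ := {z | n + 1 ≤ z.re ∧ z.re ≤ n + 2 ∧ Sec (cN n) i z.im}
  have h : pp '' RO n i = (fun z : ℂ => pp (z.re, z.im)) '' K := by
    ext z
    constructor
    · rintro ⟨x, hx, rfl⟩
      exact ⟨⟨x.1, x.2⟩, hx, rfl⟩
    · rintro ⟨x, hx, rfl⟩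
      exact ⟨(x.re, x.im), hx, rfl⟩
  rw [h]
  have h0 : (0 : ℝ) ≤ n := by positivity
  have hlt := sec_lt hN i
  set a := hi ((i : ℝ) / cN n) with ha
  set b := lo (((i : ℝ) + 1) / cN n) with hb
  have hK : K = {z : ℂ | (n : ℝ) + 1 ≤ z.re} ∩ ({z | z.re ≤ n + 2} ∩
      ({z | a ≤ z.im} ∩ {z | z.im ≤ b})) := rfl
  refine conv_disc ?_ ?_ ?_ ?_ ?_ ?_
  · rw [hK]
    refine (convex_halfSpace_re_ge _).inter ((convex_halfSpace_re_le _).inter
      ((convex_halfSpace_im_ge _).inter (convex_halfSpace_im_le _)))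
  · rw [hK]
    exact (isClosed_le continuous_const Complex.continuous_re).inter
      ((isClosed_le Complex.continuous_re continuous_const).inter
      ((isClosed_le continuous_const Complex.continuous_im).inter
      (isClosed_le Complex.continuous_im continuous_const)))
  · refine (Metric.isBounded_closedBall (x := (0 : ℂ)) (r := n + 2 + (|a| + |b|))).subset ?_
    rintro z ⟨h1, h2, h3, h4⟩
    rw [mem_closedBall_zero_iff]
    have h5 := Complex.norm_le_abs_re_add_abs_im z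
    rw [abs_of_nonneg (show 0 ≤ z.re by linarith)] at h5
    have h6 : |z.im| ≤ |a| + |b| := by
      rw [abs_le]
      have a1 := neg_abs_le a
      have a2 := le_abs_self b
      have a3 := abs_nonneg a
      have a4 := abs_nonneg b
      constructor <;> linarith
    linarith
  · refine ⟨⟨n + 3 / 2, (a + b) / 2⟩, ?_⟩
    rw [mem_interior]
    refine ⟨{z : ℂ | (n : ℝ) + 1 < z.re} ∩ ({z | z.re < n + 2} ∩
      ({z | a < z.im} ∩ {z | z.im < b})), ?_, ?_, ?_⟩
    · rintro z ⟨h1, h2, h3, h4⟩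
      simp only [mem_ofPred_eq] at h1 h2 h3 h4
      exact ⟨h1.le, h2.le, h3.le, h4.le⟩
    · exact (isOpen_lt continuous_const Complex.continuous_re).inter
        ((isOpen_lt Complex.continuous_re continuous_const).inter
        ((isOpen_lt continuous_const Complex.continuous_im).inter
        (isOpen_lt Complex.continuous_im continuous_const)))
    · refine ⟨?_, ?_, ?_, ?_⟩ <;> simp only [mem_ofPred_eq] <;> linarith
  · rintro z ⟨h1, -⟩
    linarith
  · rintro z ⟨-, -, h3⟩ w ⟨-, -, h4⟩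
    exact sec_width hN h3 h4

end Pool.Agent.H65.Qm
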