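import Pool.Agent.H65.Qm.Pol

/-!
# The action by asymptotically rigid homeomorphisms
-/

set_option autoImplicit false

namespace Pool.Agent.H65.Qm

open Set Topology Filter
open scoped Nat
open Pool.Agent.Q238.AR (pp pp_eq pp_norm pp_cont pp_surj RigidSurface)

lemma Ph_S (c : ℚ) (z : ℂ) : z ∈ YY.S ↔ Ph c z ∈ YY.S := by
  rw [YY_S]
  exact Ph_SS c z

/-- the action on the surface -/
noncomputable def fc (c : ℚ) : YY.S ≃ₜ YY.S := (Ph c).subtype (Ph_S c)

lemma fc_val (c : ℚ) (z : YY.S) : (fc c z : ℂ) = Ph c z := rfl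

lemma fc_add' (c d : ℚ) (z : YY.S) : fc (c + d) z = fc c (fc d z) := by
  apply Subtype.ext
  rw [fc_val, fc_val, fc_val, Ph_add]

lemma fc_add (c d : ℚ) : fc (c + d) = fc c * fc d := Homeomorph.ext (fc_add' c d)

lemma fc_zero : fc 0 = 1 := Homeomorph.ext fun _ => Subtype.ext (Ph_zero _)

lemma fc_neg (c : ℚ) (z : YY.S) : fc (-c) (fc c z) = z := by
  rw [← fc_add', neg_add_cancel, fc_zero]
  rfl

lemma fc_neg' (c : ℚ) (z : YY.S) : fc c (fc (-c) z) = z := by
  rw [← fc_add', add_neg_cancel, fc_zero]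
  rfl

/-! ### the punctures -/

lemma rho_ge (q : ℚ) : 3 / 4 ≤ rho q := by
  by_cases h : lev q = 0
  · unfold rho
    rw [if_pos h]
    norm_num
  · obtain ⟨K, hK⟩ := Nat.exists_eq_succ_of_ne_zero h
    have h1 : Lev (K + 1) q := lev_le.1 (by omega)
    have h2 : ¬ Lev K q := fun h => by
      have := lev_le.2 h
      omega
    have h3 := (rho_new_ge h1 h2).1
    have h4 := nr_ge' K
    have h5 : (0 : ℝ) ≤ K := by positivity
    linarith

lemma qn_mul (n i : ℕ) : ((Lv n + 1)! : ℚ) * qn n i = i + jn n / (Lv n + 2) := by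
  have hN : (cN n : ℚ) ≠ 0 := by exact_mod_cast (cN_pos n).ne'
  have h1 : ((Lv n + 1)! : ℚ) = cN n := rfl
  have h2 : ((Lv n : ℚ) + 2) ≠ 0 := by positivity
  unfold qn
  rw [h1]
  field_simp

lemma qn_fract (n i : ℕ) : ((Lv n : ℝ) + 2) * Int.fract (((Lv n + 1)! : ℝ) * qn n i) = jn n := by
  have h1 : ((Lv n + 1)! : ℝ) * qn n i = (i : ℤ) + jn n / (Lv n + 2) := by
    have := qn_mul n i
    have h2 : ((((Lv n + 1)! : ℚ) * qn n i : ℚ) : ℝ) = ((i + jn n / (Lv n + 2) : ℚ) : ℝ) := by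
      rw [this]
    push_cast at h2 ⊢
    exact h2
  obtain ⟨-, h3, -⟩ := jn_mem n
  have h4 : (jn n : ℝ) ≤ Lv n + 1 := by exact_mod_cast h3
  have h5 : (0 : ℝ) < Lv n + 2 := by positivity
  have h6 : Int.fract ((jn n : ℝ) / (Lv n + 2)) = jn n / (Lv n + 2) := by
    rw [Int.fract_eq_self]
    refine ⟨by positivity, ?_⟩
    rw [div_lt_one h5]
    linarith
  rw [h1, Int.fract_intCast_add, h6]
  field_simp

lemma qn_lev (n i : ℕ) : Lev (Lv n + 1) (qn n i) := by
  refine ⟨(Lv n + 2) * i + jn n, ?_⟩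
  rw [Nat.factorial_succ (Lv n + 1)]
  push_cast
  have h2 : ((Lv n : ℚ) + 2) ≠ 0 := by positivity
  have h3 := qn_mul n i
  calc ((Lv n : ℚ) + 1 + 1) * ((Lv n + 1)! : ℚ) * qn n i
      = ((Lv n : ℚ) + 2) * (((Lv n + 1)! : ℚ) * qn n i) := by ring
    _ = (Lv n + 2) * i + jn n := by
      rw [h3]
      field_simp

lemma qn_not_lev (n i : ℕ) : ¬ Lev (Lv n) (qn n i) := by
  intro h
  have h1 := fract_lev' h
  have h2 := qn_fract n i
  rw [h1, mul_zero] at h2
  have h3 := (jn_mem n).1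
  have h4 : jn n = 0 := by exact_mod_cast h2.symm
  omega

lemma rho_qn (n i : ℕ) : rho (qn n i) = n + 3 / 2 := by
  rw [rho_succ (qn_lev n i) (qn_not_lev n i) (qn_fract n i)]
  have h3 := (jn_mem n).2.2
  have h4 : (jn n : ℝ) + nr (Lv n) = n + 2 := by exact_mod_cast h3
  linarith

lemma lev_int (m : ℤ) : lev m = 0 := Nat.le_zero.1 (lev_le.2 (Lev_int 0 m))

lemma rho_int (m : ℤ) : rho m = 7 / 8 := rho_zero (Lev_int 0 m)

lemma marked_iff (z : YY.S) : z ∈ YY.marked ↔
    (∃ b, (z : ℂ) = pp (1 / 4, tn b)) ∨ ∃ q : ℚ, (z : ℂ) = pp (rho q, mid q) := by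
  constructor
  · rintro ⟨v, hv⟩
    have hv' : (z : ℂ) = ptV v := hv
    rcases v with _ | b | ⟨n, i, hi'⟩
    · right
      refine ⟨((0 : ℤ) : ℚ), ?_⟩
      rw [rho_int, hv']
      unfold mid ptV
      simp [lo_zero]
    · left
      exact ⟨b, hv'⟩
    · right
      refine ⟨qn n i, ?_⟩
      rw [rho_qn, hv']
      rfl
  · rintro (⟨b, hb⟩ | ⟨q, hq⟩)
    · exact ⟨.notch b, hb⟩
    · by_cases h : lev q = 0
      · obtain ⟨m, rfl⟩ := Lev_zero (lev_le.1 h.le)
        refine ⟨.root, ?_⟩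
        rw [hq, rho_int, Rat.cast_intCast]
        have h1 := mid_add 0 m
        rw [zero_add] at h1
        rw [h1, pp_add_int]
        change pp (7 / 8, mid 0) = pp (7 / 8, hi 0 / 2)
        unfold mid
        rw [lo_zero, zero_add]
      · obtain ⟨K, hK⟩ := Nat.exists_eq_succ_of_ne_zero h
        have h1 : Lev (K + 1) q := lev_le.1 (by omega)
        have h2 : ¬ Lev K q := fun h => by
          have := lev_le.2 h
          omega
        obtain ⟨j, hj1, hj2, hj⟩ := fract_lev h1 h2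
        have hnr := nr_ge K
        obtain ⟨n, hn⟩ : ∃ n, n + 2 = nr K + j := ⟨nr K + j - 2, by omega⟩
        have hL : Lv n = K := by
          apply Lv_unique (by omega)
          change n + 1 < nr K + (K + 1)
          omega
        have hjn : jn n = j := by
          have := (jn_mem n).2.2
          rw [hL] at this
          omega
        have hN := cN_pos n
        have hpz : (0 : ℤ) < cN n := by exact_mod_cast hN
        set e := ⌊((K + 1)! : ℝ) * q⌋ with he
        have hj0 : 0 ≤ e % cN n := Int.emod_nonneg _ hpz.ne'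
        have hj1 : e % cN n < cN n := Int.emod_lt_of_pos _ hpz
        obtain ⟨i, hi'⟩ := Int.eq_ofNat_of_zero_le hj0
        have hi2 : i < cN n := by
          have : (i : ℤ) < cN n := by rw [← hi']; exact hj1
          exact_mod_cast this
        have hd : (e / cN n) * cN n + i = e := by
          have := Int.ediv_mul_add_emod e (cN n)
          rw [hi'] at this
          exact_mod_cast this
        have hq2 : q = qn n i + ((e / cN n : ℤ) : ℚ) := by
          have h3 := Int.floor_add_fract (((K + 1)! : ℝ) * q)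
          have hK2 : (0 : ℝ) < K + 2 := by positivity
          have h4 : Int.fract (((K + 1)! : ℝ) * q) = j / (K + 2) := by
            field_simp
            linarith
          rw [h4, ← he] at h3
          have h5 : ((e : ℚ) + j / (K + 2) : ℚ) = ((K + 1)! : ℚ) * q := by
            have h6 : ((((e : ℚ) + j / (K + 2) : ℚ)) : ℝ) = ((((K + 1)! : ℚ) * q : ℚ) : ℝ) := by
              push_cast
              exact h3
            exact_mod_cast h6
          have h6 : ((K + 1)! : ℚ) = cN n := by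
            unfold cN
            rw [hL]
          have hN' : (cN n : ℚ) ≠ 0 := by exact_mod_cast hN.ne'
          rw [h6] at h5
          have hd' : (((e / cN n : ℤ) : ℚ)) * cN n + i = e := by exact_mod_cast hd
          unfold qn
          rw [hL, hjn]
          have h7 : ((K : ℚ) + 2) ≠ 0 := by positivity
          apply mul_left_cancel₀ hN'
          rw [← h5, ← hd']
          field_simp
          ring
        refine ⟨.out n i hi2, ?_⟩
        have hr : rho q = n + 3 / 2 := by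
          have h3 : rho q = nr K + j - 1 / 2 := rho_succ h1 h2 hj
          have h4 : (n : ℝ) + 2 = nr K + j := by exact_mod_cast hn
          rw [h3]
          linarith
        rw [hq, hr]
        nth_rewrite 1 [hq2]
        rw [Rat.cast_add, Rat.cast_intCast, mid_add, pp_add_int]
        rfl

lemma fc_marked' (c : ℚ) {z : YY.S} (hz : z ∈ YY.marked) : fc c z ∈ YY.marked := by
  rw [marked_iff] at hz ⊢
  rcases hz with ⟨b, hb⟩ | ⟨q, hq⟩
  · left
    refine ⟨b, ?_⟩
    rw [fc_val, hb, Ph_pp, gm_small (by norm_num), al_small (by norm_num), la_small (by norm_num)]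
    simp
  · right
    refine ⟨q + c, ?_⟩
    rw [fc_val, hq, Ph_pp, gm_large (rho_ge q), pr_mid, rd_rho, tau_mid]
    push_cast
    rfl

lemma fc_marked (c : ℚ) : fc c '' YY.marked = YY.marked := by
  ext z
  constructor
  · rintro ⟨y, hy, rfl⟩
    exact fc_marked' c hy
  · intro hz
    exact ⟨fc (-c) z, fc_marked' (-c) hz, fc_neg' c z⟩

/-! ### the polygons -/

/-- the polygons in the disc of radius `M + 1` -/
noncomputable def FM (M : ℕ) : Finset Vx := (rk_finite M).toFinset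

lemma mem_FM {M : ℕ} {v : Vx} : v ∈ FM M ↔ rk v ≤ M := by
  unfold FM
  simp

lemma mem_subF {M : ℕ} (hM : 1 ≤ M) {z : YY.S} : z ∈ YY.sub (FM M) ↔ ‖(z : ℂ)‖ ≤ M + 1 := by
  rw [RigidSurface.mem_sub]
  constructor
  · rintro ⟨v, hv, hz⟩
    have h1 := PV_norm_le (v := v) hz
    have h2 : (rk v : ℝ) ≤ M := by exact_mod_cast mem_FM.1 hv
    linarith
  · intro h
    obtain ⟨z, hz⟩ := z
    have hz' := hz
    rw [YY_S] at hz'
    obtain ⟨x, hx, rfl⟩ := hz'
    obtain ⟨v, hv, hv2⟩ := cover hx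
    refine ⟨v, mem_FM.2 ?_, hv⟩
    rcases hv2 with h1 | h1
    · omega
    · have h2 : x.1 ≤ M + 1 := by
        simp only at h
        rw [pp_norm] at h
        exact (le_max_left _ _).trans h
      have h3 : (rk v : ℝ) < ((M + 1 : ℕ) : ℝ) := by
        push_cast
        linarith
      have h4 : rk v < M + 1 := by exact_mod_cast h3
      omega

lemma conn_aux (M : ℕ) (v : Vx) (hv : rk v ≤ M) :
    ∃ t ⊆ YY.sub (FM M), IsPreconnected t ∧ YY.ptS Vx.root ∈ t ∧ YY.poly v ⊆ t := by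
  have hsub : ∀ v, rk v ≤ M → YY.poly v ⊆ YY.sub (FM M) := fun v hv x hx =>
    RigidSurface.mem_sub.2 ⟨v, mem_FM.2 hv, hx⟩
  induction hn : rk v using Nat.strong_induction_on generalizing v with
  | _ n ih =>
    by_cases h : v = .root
    · subst h
      exact ⟨YY.poly Vx.root, hsub _ hv, (RigidSurface.poly_conn (X := YY) Vx.root).2,
        RigidSurface.ptS_mem (X := YY) Vx.root, Subset.rfl⟩
    · have h1 := rk_par h
      rw [hn] at h1
      obtain ⟨t, ht1, ht2, ht3, ht4⟩ := ih _ h1 (par v) (by omega) rfl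
      obtain ⟨y, hy1, hy2⟩ := RigidSurface.adj_nonempty (X := YY) (TG_par h)
      refine ⟨t ∪ YY.poly v, union_subset ht1 (hsub v hv), ?_, Or.inl ht3, subset_union_right⟩
      exact IsPreconnected.union y (ht4 hy1) hy2 ht2 (RigidSurface.poly_conn (X := YY) v).2

lemma FM_adm (M : ℕ) : YY.Admissible (FM M) := by
  have h0 : Vx.root ∈ FM M := mem_FM.2 (Nat.zero_le _)
  refine ⟨⟨_, h0⟩, ⟨YY.ptS Vx.root, RigidSurface.mem_sub.2
    ⟨_, h0, RigidSurface.ptS_mem (X := YY) Vx.root⟩⟩, ?_⟩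
  refine isPreconnected_of_forall (YY.ptS Vx.root) fun y hy => ?_
  obtain ⟨v, hv, hy2⟩ := RigidSurface.mem_sub.1 hy
  obtain ⟨t, ht1, ht2, ht3, ht4⟩ := conn_aux M v (mem_FM.1 hv)
  exact ⟨t, ht1, ht3, ht4 hy2, ht2⟩

lemma rd_le_iff {K : ℕ} {c : ℚ} (h : Lev K c) (x : ℝ) {r R : ℝ} (hR : nr K + 1 / 4 ≤ R) :
    rd c x r ≤ R ↔ r ≤ R := by
  nth_rewrite 1 [← rd_large h x hR]
  exact (rd_strict c x).le_iff_le

lemma le_rd_iff {K : ℕ} {c : ℚ} (h : Lev K c) (x : ℝ) {r R : ℝ} (hR : nr K + 1 / 4 ≤ R) :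
    R ≤ rd c x r ↔ R ≤ r := by
  nth_rewrite 1 [← rd_large h x hR]
  exact (rd_strict c x).le_iff_le

lemma fc_mem_sub {K : ℕ} {c : ℚ} (h : Lev K c) (z : YY.S) :
    fc c z ∈ YY.sub (FM (nr K)) ↔ z ∈ YY.sub (FM (nr K)) := by
  have h1 : 1 ≤ nr K := by
    have := nr_ge K
    omega
  rw [mem_subF h1, mem_subF h1, fc_val]
  obtain ⟨x, hx⟩ := pp_surj (z : ℂ)
  rw [← hx, Ph_pp, pp_norm, pp_norm, max_le_iff, max_le_iff]
  refine and_congr_left fun _ => ?_
  exact rd_le_iff h _ (by linarith)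

lemma fc_sub {K : ℕ} {c : ℚ} (h : Lev K c) :
    fc c '' YY.sub (FM (nr K)) = YY.sub (FM (nr K)) := by
  ext z
  constructor
  · rintro ⟨y, hy, rfl⟩
    exact (fc_mem_sub h y).2 hy
  · intro hz
    exact ⟨fc (-c) z, (fc_mem_sub h.neg z).2 hz, fc_neg' c z⟩

/-- the image of a polygon outside the disc is a polygon -/
lemma fc_out {K n i : ℕ} {c : ℚ} (h : Lev K c) (hn : nr K ≤ n) (hi' : i < cN n) :
    ∃ (i' : ℕ) (hi2 : i' < cN n), ∀ x : ℝ × ℝ,
      pp (gm c x) ∈ PV (.out n i' hi2) ↔ pp x ∈ PV (.out n i hi') := by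
  have hN := cN_pos n
  have hpz : (0 : ℤ) < cN n := by exact_mod_cast hN
  obtain ⟨k, hk⟩ := h.mono (Lv_ge (n := n) (K := K) (by omega))
  have hk' : (cN n : ℚ) * c = k := hk
  have hj0 : 0 ≤ ((i : ℤ) + k) % cN n := Int.emod_nonneg _ hpz.ne'
  have hj1 : ((i : ℤ) + k) % cN n < cN n := Int.emod_lt_of_pos _ hpz
  obtain ⟨i', hi2⟩ := Int.eq_ofNat_of_zero_le hj0
  have hi3 : i' < cN n := by
    have : (i' : ℤ) < cN n := by rw [← hi2]; exact hj1
    exact_mod_cast this
  obtain ⟨e, hd⟩ : ∃ e : ℤ, ((i' : ℤ)) + e * cN n = i + k := by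
    refine ⟨((i : ℤ) + k) / cN n, ?_⟩
    have := Int.ediv_mul_add_emod ((i : ℤ) + k) (cN n)
    rw [hi2] at this
    have h5 : (((i : ℤ) + k) / (cN n : ℤ)) * (cN n : ℤ) + (i' : ℤ) = i + k := by
      exact_mod_cast this
    linarith
  refine ⟨i', hi3, fun x => ?_⟩
  have hnr : (nr K : ℝ) ≤ n := by exact_mod_cast hn
  rw [mem_out, mem_out]
  unfold gm
  simp only
  rw [le_rd_iff h _ (by linarith), rd_le_iff h _ (by linarith)]
  refine and_congr_right fun h1 => and_congr_right fun _ => ?_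
  have h2 : (0 : ℝ) ≤ n := by positivity
  rw [al_large (by linarith)]
  have key : ∀ m : ℤ, Sec (cN n) i (x.2 + m) ↔
      Sec (cN n) i' (tau c x.2 + ((m - e : ℤ) : ℝ)) := by
    intro m
    rw [← sec_tau hN hk', tau_add_int, ← hd]
    have e1 : tau c x.2 + (m : ℝ) = tau c x.2 + ((m - e : ℤ) : ℝ) + (e : ℝ) := by
      push_cast
      ring
    rw [e1, sec_add hN]
  constructor
  · rintro ⟨m, hm⟩
    refine ⟨m + e, (key _).2 ?_⟩
    rwa [add_sub_cancel_right]
  · rintro ⟨m, hm⟩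
    exact ⟨_, (key m).1 hm⟩

lemma fc_wit {K : ℕ} {c : ℚ} (h : Lev K c) : YY.Wit (fc c) (FM (nr K)) (FM (nr K)) := by
  refine ⟨FM_adm _, FM_adm _, fc_sub h, fun v hv => ?_⟩
  have hv' : nr K < rk v := by
    by_contra hcon
    push Not at hcon
    exact hv (mem_FM.2 hcon)
  have hnr := nr_ge K
  rcases v with _ | b | ⟨n, i, hi'⟩
  · exact absurd hv' (by simp [rk])
  · simp only [rk] at hv'
    omega
  · simp only [rk] at hv'
    obtain ⟨i', hi2, key⟩ := fc_out h (by omega : nr K ≤ n) hi'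
    refine ⟨.out n i' hi2, fun h1 => ?_, ?_⟩
    · have := mem_FM.1 h1
      simp only [rk] at this
      omega
    · have key2 : ∀ z : YY.S, fc c z ∈ YY.poly (Vx.out n i' hi2) ↔
          z ∈ YY.poly (Vx.out n i hi') := by
        intro z
        change (fc c z : ℂ) ∈ PV (Vx.out n i' hi2) ↔ (z : ℂ) ∈ PV (Vx.out n i hi')
        rw [fc_val]
        obtain ⟨x, hx⟩ := pp_surj (z : ℂ)
        rw [← hx, Ph_pp]
        exact key x
      ext z
      constructor
      · rintro ⟨y, hy, rfl⟩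
        exact (key2 y).2 hy
      · intro hz
        refine ⟨fc (-c) z, ?_, fc_neg' c z⟩
        rw [← key2, fc_neg']
        exact hz

end Pool.Agent.H65.Qm
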