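import Pool.Agent.H65.Qm.Ori

/-!
# The rotations by full turns are not isotopic to the identity
-/

set_option autoImplicit false

namespace Pool.Agent.H65.Qm

open Set Topology Filter
open Pool.Agent.Q238.AR (pp pp_eq pp_norm pp_cont pp_surj RigidSurface ee ee_eq ee_cont ee_norm ee_ne)

lemma log_lift {g : ℝ × ℝ → ℂ} (hg : Continuous g) (h0 : ∀ x, g x ≠ 0) :
    ∃ f : ℝ × ℝ → ℂ, Continuous f ∧ ∀ x, Complex.exp (f x) = g x := by
  have hs : IsSimplyConnected (univ : Set (ℝ × ℝ)) := by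
    have : ContractibleSpace (univ : Set (ℝ × ℝ)) := convex_univ.contractibleSpace univ_nonempty
    exact SimplyConnectedSpace.ofContractible _
  obtain ⟨f, hf1, hf2⟩ := Complex.exists_continuousOn_eqOn_exp_comp hs isOpen_univ hg.continuousOn
    (by
      rintro ⟨x, -, hx⟩
      exact h0 x hx)
  exact ⟨f, continuousOn_univ.1 hf1, fun x => hf2 (mem_univ x)⟩

lemma lift_unique {u v : ℝ → ℂ} (hu : Continuous u) (hv : Continuous v)
    (h : ∀ x ∈ Icc (0 : ℝ) 1, Complex.exp (u x) = Complex.exp (v x)) (h0 : u 0 = v 0) :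
    u 1 = v 1 := by
  have hpi : (2 * (Real.pi : ℂ) * Complex.I) ≠ 0 := Complex.two_pi_I_ne_zero
  let w : ℝ → ℝ := fun x => ((u x - v x) / (2 * Real.pi * Complex.I)).re
  have hw : Continuous w := by
    have : Continuous fun x => (u x - v x) / (2 * Real.pi * Complex.I) := by fun_prop
    exact Complex.continuous_re.comp this
  have hint : ∀ x ∈ Icc (0 : ℝ) 1, ∃ n : ℤ, w x = n ∧ u x = v x + n * (2 * Real.pi * Complex.I) := by
    intro x hx
    obtain ⟨n, hn⟩ := Complex.exp_eq_exp_iff_exists_int.1 (h x hx)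
    refine ⟨n, ?_, hn⟩
    have : (u x - v x) / (2 * Real.pi * Complex.I) = (n : ℂ) := by
      rw [hn]
      field_simp
      ring
    change ((u x - v x) / (2 * Real.pi * Complex.I)).re = n
    rw [this]
    simp
  have hpre : IsPreconnected (w '' Icc (0 : ℝ) 1) := isPreconnected_Icc.image _ hw.continuousOn
  have hw0 : (0 : ℝ) ∈ w '' Icc (0 : ℝ) 1 := by
    refine ⟨0, by simp, ?_⟩
    change ((u 0 - v 0) / (2 * Real.pi * Complex.I)).re = 0
    rw [h0]
    simp
  obtain ⟨n, hn, hn2⟩ := hint 1 (by simp)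
  have hwn : (n : ℝ) ∈ w '' Icc (0 : ℝ) 1 := ⟨1, by simp, hn⟩
  have hnot : ∀ m : ℤ, ((m : ℝ) + 1 / 2) ∉ w '' Icc (0 : ℝ) 1 := by
    rintro m ⟨x, hx, hx2⟩
    obtain ⟨l, hl, -⟩ := hint x hx
    rw [hl] at hx2
    have h1 : ((2 * l : ℤ) : ℝ) = ((2 * m + 1 : ℤ) : ℝ) := by
      push_cast
      linarith
    have h2 : 2 * l = 2 * m + 1 := by exact_mod_cast h1
    omega
  have hn0 : n = 0 := by
    rcases lt_trichotomy n 0 with h1 | h1 | h1
    · exfalso
      have h2 : (n : ℝ) ≤ -1 := by exact_mod_cast (by omega : n ≤ -1)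
      exact hnot (-1) (hpre.Icc_subset hwn hw0 ⟨by push_cast; linarith, by norm_num⟩)
    · exact h1
    · exfalso
      have h2 : (1 : ℝ) ≤ n := by exact_mod_cast (by omega : 1 ≤ n)
      exact hnot 0 (hpre.Icc_subset hw0 hwn ⟨by norm_num, by push_cast; linarith⟩)
  rw [hn2, hn0]
  simp

lemma loop_lemma {F G : ℝ × ℝ → ℂ} (hF : Continuous F) (hG : Continuous G) (hF0 : ∀ x, F x ≠ 0)
    (hG0 : ∀ x, G x ≠ 0) (h0 : ∀ x ∈ Icc (0 : ℝ) 1, F (0, x) = G (0, x))
    (h1 : ∀ x ∈ Icc (0 : ℝ) 1, F (1, x) = G (1, x))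
    (hb : ∀ s ∈ Icc (0 : ℝ) 1, F (s, 0) = G (s, 0))
    (ht : ∀ s ∈ Icc (0 : ℝ) 1, F (s, 1) = F (0, 1)) {g : ℝ → ℂ} (hg : Continuous g)
    (hg2 : ∀ s ∈ Icc (0 : ℝ) 1, Complex.exp (g s) = G (s, 1)) : g 1 = g 0 := by
  obtain ⟨f0, hf0, hf1⟩ := log_lift hF hF0
  obtain ⟨k, hk, hk1⟩ := log_lift hG hG0
  let f : ℝ × ℝ → ℂ := fun x => f0 x + (k (0, 0) - f0 (0, 0))
  have hf : Continuous f := by fun_prop
  have hfe : ∀ x, Complex.exp (f x) = F x := by
    intro x
    change Complex.exp (f0 x + (k (0, 0) - f0 (0, 0))) = F x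
    rw [Complex.exp_add, Complex.exp_sub, hf1, hf1, hk1, h0 0 (by simp), div_self (hG0 _), mul_one]
  have hf00 : f (0, 0) = k (0, 0) := by
    change f0 (0, 0) + (k (0, 0) - f0 (0, 0)) = k (0, 0)
    ring
  have e1 : f (0, 1) = k (0, 1) := lift_unique (u := fun x => f (0, x)) (v := fun x => k (0, x))
    (by fun_prop) (by fun_prop) (fun x hx => by rw [hfe, hk1, h0 x hx]) hf00
  have e2 : f (1, 0) = k (1, 0) := lift_unique (u := fun x => f (x, 0)) (v := fun x => k (x, 0))
    (by fun_prop) (by fun_prop) (fun x hx => by rw [hfe, hk1, hb x hx]) hf00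
  have e3 : f (1, 1) = k (1, 1) := lift_unique (u := fun x => f (1, x)) (v := fun x => k (1, x))
    (by fun_prop) (by fun_prop) (fun x hx => by rw [hfe, hk1, h1 x hx]) e2
  have e4 : f (1, 1) = f (0, 1) := lift_unique (u := fun x => f (x, 1)) (v := fun _ => f (0, 1))
    (by fun_prop) (by fun_prop) (fun x hx => by rw [hfe, hfe, ht x hx]) rfl
  have e5 : g 1 = k (1, 1) + (g 0 - k (0, 1)) := lift_unique (u := g)
    (v := fun x => k (x, 1) + (g 0 - k (0, 1))) hg (by fun_prop) (fun x hx => by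
      rw [Complex.exp_add, Complex.exp_sub, hk1, hk1, hg2 x hx, hg2 0 (by simp),
        div_self (hG0 _), mul_one]) (by ring)
  rw [e5, ← e3, e4, e1]
  ring

/-- the clamp -/
noncomputable def cp (x : ℝ) : ℝ := max 0 (min 1 x)

lemma cp_mem (x : ℝ) : 0 ≤ cp x ∧ cp x ≤ 1 :=
  ⟨le_max_left _ _, max_le zero_le_one (min_le_left _ _)⟩

lemma cp_zero : cp 0 = 0 := by
  unfold cp
  norm_num

lemma cp_one : cp 1 = 1 := by
  unfold cp
  norm_num

lemma cp_cont : Continuous cp := by unfold cp; fun_prop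

/-- the path between two punctures in polar coordinates -/
noncomputable def pa (x : ℝ) : ℝ × ℝ := (1 / 4 + 5 / 8 * cp x, hi 0 / 4 + hi 0 / 4 * cp x)

lemma pa_cont : Continuous pa := by
  have := cp_cont
  unfold pa
  fun_prop

lemma pa_S (x : ℝ) : pp (pa x) ∈ YY.S := by
  rw [YY_S, pp_SS]
  apply St_small
  have := (cp_mem x).2
  unfold pa
  simp only
  linarith

/-- the path on the surface -/
noncomputable def al' (x : ℝ) : YY.S := ⟨pp (pa x), pa_S x⟩

lemma al'_cont : Continuous al' := by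
  unfold al'
  exact Continuous.subtype_mk (pp_cont.comp pa_cont) _

lemma la_large' {r : ℝ} (h : 5 / 8 ≤ r) : la r = 1 := la_large h

lemma twist_ne {k x s : ℝ} : pp ((pa x).1, (pa x).2 + k * s * la (pa x).1) ≠ pp (1 / 4, tn true) := by
  intro h
  have hw := hi_zero
  have hw1 := hi_zero_lt
  obtain ⟨h1, m, h2⟩ := pp_inj h (by
    have := (cp_mem x).1
    unfold pa
    simp only
    linarith)
  have h3 : cp x = 0 := by
    unfold pa at h1
    simp only at h1
    linarith
  have h4 : pa x = (1 / 4, hi 0 / 4) := by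
    unfold pa
    rw [h3]
    simp
  rw [h4] at h2
  simp only at h2
  rw [la_small (by norm_num), mul_zero, add_zero, tn_true] at h2
  have h5 : m = 0 := int_zero (by linarith) (by linarith)
  rw [h5] at h2
  push_cast at h2
  linarith

lemma gm_int (k : ℤ) (x : ℝ × ℝ) : gm k x = (x.1, x.2 + k * la x.1) := by
  unfold gm
  rw [rd_int, al_int]

theorem twist_inf {k : ℤ} (h : YY.Isotopic (fc k)) : k = 0 := by
  obtain ⟨Ψ, hΨ1, hΨ2, hΨ3, hΨ4⟩ := h
  have hw := hi_zero
  have hw1 := hi_zero_lt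
  set B : ℂ := pp (1 / 4, tn true) with hB
  have hBS : B ∈ YY.S := by
    rw [YY_S, hB, pp_SS]
    exact St_small (by norm_num)
  have hBm : (⟨B, hBS⟩ : YY.S) ∈ YY.marked := ⟨Vx.notch true, rfl⟩
  have hA : al' 0 ∈ YY.marked := by
    refine ⟨Vx.notch false, ?_⟩
    change pp (pa 0) = pp (1 / 4, tn false)
    unfold pa
    rw [cp_zero, tn_false]
    simp
  have hC : al' 1 ∈ YY.marked := by
    refine ⟨Vx.root, ?_⟩
    change pp (pa 1) = pp (7 / 8, hi 0 / 2)
    unfold pa
    rw [cp_one]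
    congr 2
    · norm_num
    · ring
  let pj : ℝ → unitInterval := projIcc 0 1 zero_le_one
  have hpj : Continuous pj := continuous_projIcc
  have hpj0 : pj 0 = 0 := projIcc_left zero_le_one
  have hpj1 : pj 1 = 1 := projIcc_right zero_le_one
  let F : ℝ × ℝ → ℂ := fun p => ((Ψ (pj p.1, al' p.2)).2 : ℂ) - B
  let G : ℝ × ℝ → ℂ := fun p => pp ((pa p.2).1, (pa p.2).2 + k * p.1 * la (pa p.2).1) - B
  have hFc : Continuous F := by
    have h1 : Continuous fun p : ℝ × ℝ => (pj p.1, al' p.2) :=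
      (hpj.comp continuous_fst).prodMk (al'_cont.comp continuous_snd)
    have h2 : Continuous fun p : ℝ × ℝ => (Ψ (pj p.1, al' p.2)).2 :=
      continuous_snd.comp (Ψ.continuous.comp h1)
    exact (continuous_subtype_val.comp h2).sub continuous_const
  have hGc : Continuous G := by
    have h1 := pa_cont
    have h2 := la_cont
    have h4 : Continuous fun p : ℝ × ℝ => pa p.2 := h1.comp continuous_snd
    have h3 : Continuous fun p : ℝ × ℝ => ((pa p.2).1, (pa p.2).2 + k * p.1 * la (pa p.2).1) :=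
      (continuous_fst.comp h4).prodMk ((continuous_snd.comp h4).add
        ((continuous_const.mul continuous_fst).mul (h2.comp (continuous_fst.comp h4))))
    exact (pp_cont.comp h3).sub continuous_const
  have hF0 : ∀ p, F p ≠ 0 := by
    rintro ⟨s, x⟩ h
    have h1 : ((Ψ (pj s, al' x)).2 : ℂ) = B := sub_eq_zero.1 h
    have h2 : Ψ (pj s, al' x) = Ψ (pj s, ⟨B, hBS⟩) := by
      rw [hΨ2 _ _ hBm]
      refine Prod.ext (hΨ1 _) (Subtype.ext h1)
    have h3 := congrArg Prod.snd (Ψ.injective h2)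
    have h4 : pp (pa x) = B := congrArg Subtype.val h3
    have h5 := twist_ne (k := 0) (x := x) (s := 0)
    rw [zero_mul, zero_mul, add_zero] at h5
    exact h5 h4
  have hG0 : ∀ p, G p ≠ 0 := by
    rintro ⟨s, x⟩ h
    exact twist_ne (sub_eq_zero.1 h)
  have e0 : ∀ x ∈ Icc (0 : ℝ) 1, F (0, x) = G (0, x) := by
    intro x _
    change ((Ψ (pj 0, al' x)).2 : ℂ) - B = pp ((pa x).1, (pa x).2 + k * 0 * la (pa x).1) - B
    rw [hpj0, hΨ3, mul_zero, zero_mul, add_zero]
    rfl
  have e1 : ∀ x ∈ Icc (0 : ℝ) 1, F (1, x) = G (1, x) := by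
    intro x _
    change ((Ψ (pj 1, al' x)).2 : ℂ) - B = pp ((pa x).1, (pa x).2 + k * 1 * la (pa x).1) - B
    rw [hpj1, hΨ4, mul_one]
    change (fc k (al' x) : ℂ) - B = _
    rw [fc_val]
    change Ph k (pp (pa x)) - B = _
    rw [Ph_pp, gm_int]
  have eb : ∀ s ∈ Icc (0 : ℝ) 1, F (s, 0) = G (s, 0) := by
    intro s _
    change ((Ψ (pj s, al' 0)).2 : ℂ) - B = pp ((pa 0).1, (pa 0).2 + k * s * la (pa 0).1) - B
    rw [hΨ2 _ _ hA]
    have h1 : (pa 0).1 = 1 / 4 := by
      unfold pa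
      rw [cp_zero]
      simp
    have h2 : la (pa 0).1 = 0 := la_small (by rw [h1]; norm_num)
    rw [h2, mul_zero, add_zero]
    rfl
  have et : ∀ s ∈ Icc (0 : ℝ) 1, F (s, 1) = F (0, 1) := by
    intro s _
    change ((Ψ (pj s, al' 1)).2 : ℂ) - B = ((Ψ (pj 0, al' 1)).2 : ℂ) - B
    rw [hΨ2 _ _ hC, hΨ2 _ _ hC]
  have hpa1 : pa 1 = (7 / 8, hi 0 / 2) := by
    unfold pa
    rw [cp_one]
    ext
    · norm_num
    · ring
  have hBn : ‖B‖ = 1 / 4 := by
    rw [hB, pp_norm]
    norm_num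
  let E : ℝ → ℂ := fun s => ee (hi 0 / 2 + k * s)
  have hEc : Continuous E := by
    have := ee_cont
    fun_prop
  have hE0 : ∀ s, E s ≠ 0 := fun s => ee_ne _
  have hE1 : ∀ s, ‖E s‖ = 1 := fun s => ee_norm _
  let D : ℝ → ℂ := fun s => 1 - 8 / 7 * B / E s
  have hDc : Continuous D := by
    have : Continuous fun s => 8 / 7 * B / E s := Continuous.div (by fun_prop) hEc hE0
    fun_prop
  have hD : ∀ s, D s ∈ Complex.slitPlane := by
    intro s
    left
    have h1 : ‖8 / 7 * B / E s‖ = 2 / 7 := by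
      rw [norm_div, norm_mul, hE1, hBn]
      norm_num
    have h2 := Complex.re_le_norm (8 / 7 * B / E s)
    change 0 < (1 - 8 / 7 * B / E s).re
    rw [Complex.sub_re, Complex.one_re]
    linarith
  let g : ℝ → ℂ := fun s => Complex.log (7 / 8) +
    2 * Real.pi * ((hi 0 / 2 + k * s : ℝ) : ℂ) * Complex.I + Complex.log (D s)
  have hgc : Continuous g := by
    have h1 : Continuous fun s => Complex.log (D s) := hDc.clog hD
    fun_prop
  have hg : ∀ s ∈ Icc (0 : ℝ) 1, Complex.exp (g s) = G (s, 1) := by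
    intro s _
    have h1 : Complex.exp (g s) = 7 / 8 * E s * D s := by
      change Complex.exp (_ + _ + _) = _
      rw [Complex.exp_add, Complex.exp_add, Complex.exp_log (by norm_num),
        Complex.exp_log (Complex.slitPlane_ne_zero (hD s))]
      rfl
    have h2 : G (s, 1) = 7 / 8 * E s - B := by
      change pp ((pa 1).1, (pa 1).2 + k * s * la (pa 1).1) - B = _
      rw [hpa1]
      simp only
      rw [la_large (by norm_num), mul_one]
      unfold pp
      simp only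
      rw [max_eq_left (by norm_num)]
      push_cast
      rfl
    rw [h1, h2]
    change 7 / 8 * E s * (1 - 8 / 7 * B / E s) = _
    have := hE0 s
    field_simp
  have hfin := loop_lemma hFc hGc hF0 hG0 e0 e1 eb et hgc hg
  have hE : E 1 = E 0 := by
    change ee _ = ee _
    rw [ee_eq]
    exact ⟨k, by ring⟩
  have hD1 : D 1 = D 0 := by
    change 1 - 8 / 7 * B / E 1 = 1 - 8 / 7 * B / E 0
    rw [hE]
  change Complex.log (7 / 8) + 2 * Real.pi * ((hi 0 / 2 + k * 1 : ℝ) : ℂ) * Complex.I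
    + Complex.log (D 1) = Complex.log (7 / 8) + 2 * Real.pi * ((hi 0 / 2 + k * 0 : ℝ) : ℂ)
    * Complex.I + Complex.log (D 0) at hfin
  rw [hD1] at hfin
  have h1 := add_left_cancel (add_right_cancel hfin)
  have h2 : (2 * Real.pi * Complex.I) * (k : ℂ) = 0 := by
    push_cast at h1
    linear_combination h1
  rcases mul_eq_zero.1 h2 with h3 | h3
  · exact absurd h3 Complex.two_pi_I_ne_zero
  · exact_mod_cast h3

end Pool.Agent.H65.Qm
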