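import Pool.Agent.H65.Qm.Grp

/-!
# The action preserves the orientation
-/

set_option autoImplicit false

namespace Pool.Agent.H65.Qm

open Set Topology Filter
open Pool.Agent.Q238.AR (pp pp_eq pp_norm pp_cont pp_surj RigidSurface)

/-- functions on the product of the line and the plane are continuous if they are continuous in
polar coordinates -/
lemma cont_of_pp {f : ℝ × ℂ → ℂ} (h : Continuous fun p : ℝ × (ℝ × ℝ) => f (p.1, pp p.2)) :
    Continuous f := by
  have hD : IsClosed (Ici (0 : ℝ) ×ˢ Icc (0 : ℝ) 1) := isClosed_Ici.prod isClosed_Icc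
  let q : (Ici (0 : ℝ) ×ˢ Icc (0 : ℝ) 1 : Set (ℝ × ℝ)) → ℂ := fun x => pp x.1
  have hq : Continuous q := pp_cont.comp continuous_subtype_val
  have hprop : IsProperMap q := by
    rw [isProperMap_iff_isCompact_preimage]
    refine ⟨hq, fun K hK => ?_⟩
    obtain ⟨R, hR⟩ := hK.isBounded.subset_closedBall (0 : ℂ)
    have h1 : IsCompact (Icc (0 : ℝ) R ×ˢ Icc (0 : ℝ) 1) := isCompact_Icc.prod isCompact_Icc
    have h2 := hD.isClosedEmbedding_subtypeVal.isCompact_preimage h1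
    refine h2.of_isClosed_subset (hK.isClosed.preimage hq) ?_
    intro x hx
    have h3 := hR hx
    rw [mem_closedBall_zero_iff] at h3
    have h4 : ‖pp x.1‖ ≤ R := h3
    rw [pp_norm] at h4
    exact ⟨⟨x.2.1, (le_max_left _ _).trans h4⟩, x.2.2⟩
  have hsurj : Function.Surjective q := by
    intro z
    obtain ⟨x, rfl⟩ := pp_surj z
    refine ⟨⟨(max x.1 0, Int.fract x.2), ⟨show (0 : ℝ) ≤ max x.1 0 from le_max_right _ _,
      Int.fract_nonneg _, (Int.fract_lt_one _).le⟩⟩, ?_⟩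
    change pp (max x.1 0, Int.fract x.2) = pp x
    rw [pp_eq]
    by_cases hx : x.1 ≤ 0
    · left
      exact ⟨by simp [hx], hx⟩
    · right
      push Not at hx
      refine ⟨max_eq_left hx.le, -⌊x.2⌋, ?_⟩
      simp only [Int.fract]
      push_cast
      ring
  have h1 : IsProperMap (Prod.map (id : ℝ → ℝ) q) := isProperMap_id.prodMap hprop
  have h2 : IsQuotientMap (Prod.map (id : ℝ → ℝ) q) :=
    h1.isClosedMap.isQuotientMap h1.continuous
      (Function.surjective_id.prodMap hsurj)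
  rw [h2.continuous_iff]
  exact h.comp (f := fun p : ℝ × (Ici (0 : ℝ) ×ˢ Icc (0 : ℝ) 1 : Set (ℝ × ℝ)) =>
    ((p.1, (p.2 : ℝ × ℝ)) : ℝ × (ℝ × ℝ))) (by fun_prop)

/-- the radial part of the homotopy -/
noncomputable def ra (c : ℚ) (s r t : ℝ) : ℝ := (1 - s) * r + s * rd c (pr t) r

/-- the homotopy in polar coordinates -/
noncomputable def hm (c : ℚ) (s : ℝ) (x : ℝ × ℝ) : ℝ × ℝ :=
  (ra c s x.1 x.2, (1 - s) * x.2 + s * al c (ra c s x.1 x.2) x.2)

lemma comb_strict' {f : ℝ → ℝ} (hf : StrictMono f) {s : ℝ} (h0 : 0 ≤ s) (h1 : s ≤ 1) :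
    StrictMono fun r => (1 - s) * r + s * f r := by
  intro a b h
  have h2 := hf h
  simp only
  rcases h0.lt_or_eq with h3 | h3
  · have h4 := mul_lt_mul_of_pos_left h2 h3
    have h5 := mul_le_mul_of_nonneg_left h.le (show 0 ≤ 1 - s by linarith)
    linarith
  · rw [← h3]
    linarith

lemma ra_small {c : ℚ} {s r : ℝ} (h : r ≤ 3 / 4) (t : ℝ) : ra c s r t = r := by
  unfold ra
  rw [rd_small _ _ h]
  ring

lemma ra_int {c : ℚ} {s r t : ℝ} (m : ℤ) : ra c s r (t + m) = ra c s r t := by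
  unfold ra
  rw [pr_add, rd_per]

lemma ra_nonpos {c : ℚ} {s r t : ℝ} (h0 : 0 ≤ s) (h1 : s ≤ 1) : ra c s r t ≤ 0 ↔ r ≤ 0 := by
  have h2 := comb_strict' (rd_strict c (pr t)) h0 h1
  have h3 : ra c s 0 t = 0 := ra_small (by norm_num) t
  constructor
  · intro h
    by_contra hcon
    push Not at hcon
    have h4 : ra c s 0 t < ra c s r t := h2 hcon
    linarith
  · intro h
    rw [ra_small (by linarith)]
    exact h

lemma ra_cont (c : ℚ) : Continuous fun p : ℝ × (ℝ × ℝ) => ra c p.1 p.2.1 p.2.2 := by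
  have h1 := rd_cont c
  have h3 : Continuous fun p : ℝ × (ℝ × ℝ) => (pr p.2.2, p.2.1) := by
    have := pr_cont
    fun_prop
  have h4 := h1.comp h3
  have h5 : Continuous fun p : ℝ × (ℝ × ℝ) => rd c (pr p.2.2) p.2.1 := h4
  unfold ra
  fun_prop

lemma hm_cont (c : ℚ) : Continuous fun p : ℝ × (ℝ × ℝ) => hm c p.1 p.2 := by
  have h1 := ra_cont c
  have h2 : Continuous fun p : ℝ × (ℝ × ℝ) => al c (ra c p.1 p.2.1 p.2.2) p.2.2 :=
    (al_cont c).comp (h1.prodMk (by fun_prop))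
  unfold hm
  fun_prop

lemma hm_compat {c : ℚ} {s : ℝ} {x y : ℝ × ℝ} (h : pp x = pp y) :
    pp (hm c s x) = pp (hm c s y) := by
  rw [pp_eq] at h
  rw [pp_eq]
  rcases h with ⟨h1, h2⟩ | ⟨h1, m, h2⟩
  · left
    unfold hm
    simp only
    rw [ra_small (by linarith), ra_small (by linarith)]
    exact ⟨h1, h2⟩
  · right
    unfold hm
    simp only
    rw [h1, h2, ra_int, al_add_int]
    exact ⟨rfl, m, by ring⟩

lemma hm_inj {c : ℚ} {s : ℝ} (h0 : 0 ≤ s) (h1 : s ≤ 1) {x y : ℝ × ℝ}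
    (h : pp (hm c s x) = pp (hm c s y)) : pp x = pp y := by
  rw [pp_eq] at h
  rw [pp_eq]
  unfold hm at h
  simp only at h
  rcases h with ⟨h2, h3⟩ | ⟨h2, m, h3⟩
  · left
    exact ⟨(ra_nonpos h0 h1).1 h2, (ra_nonpos h0 h1).1 h3⟩
  · right
    have h4 := comb_strict' (al_strict c (ra c s y.1 y.2)) h0 h1
    rw [h2] at h3
    have h5 : x.2 = y.2 + m := by
      apply h4.injective
      simp only
      rw [h3, al_add_int]
      ring
    refine ⟨?_, m, h5⟩
    rw [h5, ra_int] at h2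
    exact (comb_strict' (rd_strict c (pr y.2)) h0 h1).injective h2

lemma hm_zero (c : ℚ) (x : ℝ × ℝ) : hm c 0 x = x := by
  have h : ra c 0 x.1 x.2 = x.1 := by
    unfold ra
    ring
  unfold hm
  rw [h]
  ext <;> simp

lemma hm_one (c : ℚ) (x : ℝ × ℝ) : hm c 1 x = gm c x := by
  obtain ⟨r, t⟩ := x
  have h : ra c 1 r t = rd c (pr t) r := by
    unfold ra
    ring
  unfold hm
  simp only
  rw [h]
  rcases le_total r (3 / 4) with h1 | h1
  · rw [gm_small h1, rd_small _ _ h1]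
    ext <;> simp
  · rw [gm_large h1, al_large (rd_ge c _ h1)]
    ext <;> simp

/-- the homotopy -/
noncomputable def HM (c : ℚ) (p : ℝ × ℂ) : ℂ := pp (hm c p.1 (Function.surjInv pp_surj p.2))

lemma HM_pp (c : ℚ) (s : ℝ) (x : ℝ × ℝ) : HM c (s, pp x) = pp (hm c s x) :=
  hm_compat (Function.surjInv_eq pp_surj (pp x))

lemma HM_cont (c : ℚ) : Continuous (HM c) := by
  refine cont_of_pp ?_
  have h : (fun p : ℝ × (ℝ × ℝ) => HM c (p.1, pp p.2)) = fun p => pp (hm c p.1 p.2) :=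
    funext fun p => HM_pp c p.1 p.2
  rw [h]
  exact pp_cont.comp (hm_cont c)

lemma fc_or (c : ℚ) : YY.OrPres (fc c) := by
  intro z
  refine ⟨univ, Filter.univ_mem, fun p => HM c (p.1, (p.2 : ℂ)), ?_, ?_, ?_, ?_⟩
  · have := HM_cont c
    exact Continuous.continuousOn (by fun_prop)
  · intro s hs x _ y _ hxy
    simp only at hxy
    obtain ⟨a, ha⟩ := pp_surj (x : ℂ)
    obtain ⟨b, hb⟩ := pp_surj (y : ℂ)
    rw [← ha, ← hb, HM_pp, HM_pp] at hxy
    apply Subtype.ext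
    rw [← ha, ← hb]
    exact hm_inj hs.1 hs.2 hxy
  · intro x _
    obtain ⟨a, ha⟩ := pp_surj (x : ℂ)
    simp only
    rw [← ha, HM_pp, hm_zero]
  · intro x _
    obtain ⟨a, ha⟩ := pp_surj (x : ℂ)
    simp only
    rw [fc_val, ← ha, HM_pp, hm_one, Ph_pp]

lemma fc_grp (c : ℚ) : YY.IsGrp (fc c) :=
  ⟨fc_marked c, ⟨_, _, fc_wit (lev_spec c)⟩, fc_or c⟩

/-- the action as a homomorphism -/
noncomputable def FC : Multiplicative ℚ →* YY.Grp where
  toFun c := ⟨fc c.toAdd, fc_grp _⟩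
  map_one' := Subtype.ext fc_zero
  map_mul' c d := Subtype.ext (fc_add c.toAdd d.toAdd)

end Pool.Agent.H65.Qm
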