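import Pool.Agent.H65.Qm.Geo

/-!
# The polygons
-/

set_option autoImplicit false

namespace Pool.Agent.H65.Qm

open Set Topology Filter
open Pool.Agent.Q238.AR (pp pp_eq pp_norm pp_cont pp_surj RigidSurface)

/-- the vertices of the tree -/
inductive Vx : Type
  | root : Vx
  | notch (b : Bool) : Vx
  | out (n i : ℕ) (h : i < cN n) : Vx

/-- the parent of a vertex -/
def par : Vx → Vx
  | .root => .root
  | .notch _ => .root
  | .out 0 _ _ => .root
  | .out (n + 1) i h => .out n (i / dN n) (div_lt_cN h)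

/-- the rank of a vertex -/
def rk : Vx → ℕ
  | .root => 0
  | .notch _ => 1
  | .out n _ _ => n + 1

lemma rk_par {v : Vx} (h : v ≠ .root) : rk (par v) < rk v := by
  rcases v with _ | b | ⟨_ | n, i, hi⟩
  · exact absurd rfl h
  · exact Nat.zero_lt_one
  · exact Nat.succ_pos _
  · exact Nat.lt_succ_self _

lemma par_ne {v : Vx} (h : v ≠ .root) : par v ≠ v := fun h1 => by
  have := rk_par h
  rw [h1] at this
  exact lt_irrefl _ this

/-- the tree -/
def TG : SimpleGraph Vx where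
  Adj a b := a ≠ b ∧ (a = par b ∨ b = par a)
  symm := ⟨fun _ _ h => ⟨h.1.symm, h.2.symm⟩⟩
  loopless := ⟨fun _ h => h.1 rfl⟩

lemma TG_adj {a b : Vx} : TG.Adj a b ↔ a ≠ b ∧ (a = par b ∨ b = par a) := Iff.rfl

lemma TG_par {v : Vx} (h : v ≠ .root) : TG.Adj (par v) v := ⟨par_ne h, Or.inl rfl⟩

lemma TG_reach (v : Vx) : TG.Reachable .root v := by
  induction hn : rk v using Nat.strong_induction_on generalizing v with
  | _ n ih =>
    by_cases h : v = .root
    · rw [h]
    · have h1 := rk_par h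
      rw [hn] at h1
      exact (ih _ h1 (par v) rfl).trans (TG_par h).reachable

lemma TG_conn : TG.Connected := by
  rw [SimpleGraph.connected_iff]
  exact ⟨fun a b => (TG_reach a).symm.trans (TG_reach b), ⟨.root⟩⟩

lemma TG_down {v w : Vx} (h : TG.Adj v w) (hr : rk w ≤ rk v) : w = par v := by
  rw [TG_adj] at h
  obtain ⟨h1, h2 | h2⟩ := h
  · by_cases h3 : w = .root
    · subst h3
      exact absurd h2 h1
    · have := rk_par h3
      rw [← h2] at this
      omega
  · exact h2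

lemma TG_acyclic : TG.IsAcyclic := by
  classical
  intro v c hc
  obtain ⟨m, hm, hmax⟩ := c.support.toFinset.exists_max_image rk ⟨v, by simp⟩
  simp only [List.mem_toFinset] at hm hmax
  have hr := hc.rotate hm
  have hsupp : ∀ x, x ∈ (c.rotate m hm).support → rk x ≤ rk m := by
    intro x hx
    apply hmax
    exact (c.mem_support_rotate_iff m hm).1 hx
  have h1 : TG.Adj m (c.rotate m hm).snd := (c.rotate m hm).adj_snd hr.not_nil
  have h2 : TG.Adj (c.rotate m hm).penultimate m := (c.rotate m hm).adj_penultimate hr.not_nil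
  have h3 := hsupp _ ((c.rotate m hm).getVert_mem_support 1)
  have h4 := hsupp _ ((c.rotate m hm).getVert_mem_support ((c.rotate m hm).length - 1))
  apply hr.snd_ne_penultimate
  rw [TG_down h1 h3, TG_down h2.symm h4]

lemma TG_tree : TG.IsTree := ⟨TG_conn, TG_acyclic⟩

/-- the polygons -/
def PV : Vx → Set ℂ
  | .root => pp '' R0
  | .notch b => pp '' RN b
  | .out n i _ => pp '' RO n i

lemma mem_root {x : ℝ × ℝ} : pp x ∈ PV .root ↔ x.1 ≤ ep x.2 := mem_R0

lemma mem_notch {b : Bool} {x : ℝ × ℝ} : pp x ∈ PV (.notch b) ↔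
    (∃ m : ℤ, 1 / 8 + 35 * |x.2 + m - tn b| ≤ x.1) ∧ x.1 ≤ 1 := mem_RN

lemma mem_out {n i : ℕ} {h : i < cN n} {x : ℝ × ℝ} : pp x ∈ PV (.out n i h) ↔
    n + 1 ≤ x.1 ∧ x.1 ≤ n + 2 ∧ ∃ m : ℤ, Sec (cN n) i (x.2 + m) := mem_RO

lemma PV_disc (v : Vx) : Nonempty (PV v ≃ₜ Metric.closedBall (0 : ℂ) 1) := by
  rcases v with _ | b | ⟨n, i, hi⟩
  · exact root_disc
  · exact notch_disc b
  · exact out_disc n i

lemma notch_abs {b : Bool} {m : ℤ} {x : ℝ × ℝ} (h : 1 / 8 + 35 * |x.2 + m - tn b| ≤ x.1)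
    (h' : x.1 ≤ 1) : |x.2 + m - tn b| ≤ 1 / 40 := by linarith

lemma sec_mod {N : ℕ} (hN : 0 < N) {i j : ℕ} (hi : i < N) (hj : j < N) {t : ℝ} {m m' : ℤ}
    (h : Sec N i (t + m)) (h' : Sec N j (t + m')) : i = j := by
  have h1 := (sec_add hN (m' - m)).2 h
  have e : t + (m : ℝ) + ((m' - m : ℤ) : ℝ) = t + m' := by
    push_cast
    ring
  rw [e] at h1
  have h2 := sec_unique hN h1 h'
  have h3 : (i : ℤ) < N := by exact_mod_cast hi
  have h4 : (j : ℤ) < N := by exact_mod_cast hj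
  have h5 : (0 : ℤ) < N := by exact_mod_cast hN
  have h6 : m' - m = 0 := by
    have f1 : m' - m < 1 := by nlinarith
    have f2 : -1 < m' - m := by nlinarith
    omega
  rw [h6] at h2
  omega

lemma sec_zero {i : ℕ} (hi' : i < cN 0) {t : ℝ} : Sec (cN 0) i t ↔ hi 0 ≤ t ∧ t ≤ 1 := by
  have h0 : i = 0 := by
    rw [cN_zero] at hi'
    omega
  subst h0
  unfold Sec
  rw [cN_zero]
  have h1 := lo_int 1
  push_cast at h1
  simp [h1]

lemma notch_out {b : Bool} {n i : ℕ} {h : i < cN n} {x : ℝ × ℝ} (h1 : pp x ∈ PV (.notch b))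
    (h2 : pp x ∈ PV (.out n i h)) : False := by
  obtain ⟨⟨m, h3⟩, h4⟩ := mem_notch.1 h1
  obtain ⟨h5, -, m', h6⟩ := mem_out.1 h2
  have h7 : n = 0 := by
    have : (n : ℝ) ≤ 0 := by linarith
    exact_mod_cast le_antisymm this (by positivity)
  subst h7
  rw [sec_zero h] at h6
  obtain ⟨a1, a2⟩ := abs_le.1 (notch_abs h3 h4)
  obtain ⟨b1, b2⟩ := tn_mem b
  have hw := hi_zero
  have hw1 := hi_zero_lt
  have e : ((m' - m : ℤ) : ℝ) = (x.2 + m') - (x.2 + m) := by
    push_cast
    ring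
  have c1 : 0 < ((m' - m : ℤ) : ℝ) := by
    rw [e]
    linarith [h6.1]
  have c2 : ((m' - m : ℤ) : ℝ) < 1 := by
    rw [e]
    linarith [h6.2]
  have d1 : 0 < m' - m := by exact_mod_cast c1
  have d2 : m' - m < 1 := by exact_mod_cast c2
  omega

lemma notch_notch {b b' : Bool} {x : ℝ × ℝ} (h1 : pp x ∈ PV (.notch b))
    (h2 : pp x ∈ PV (.notch b')) : b = b' := by
  have key : ¬ (pp x ∈ PV (.notch false) ∧ pp x ∈ PV (.notch true)) := by
    rintro ⟨h1, h2⟩
    obtain ⟨⟨m, h3⟩, h4⟩ := mem_notch.1 h1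
    obtain ⟨⟨m', h5⟩, -⟩ := mem_notch.1 h2
    obtain ⟨a1, a2⟩ := abs_le.1 (notch_abs h3 h4)
    obtain ⟨b1, b2⟩ := abs_le.1 (notch_abs h5 h4)
    rw [tn_false] at a1 a2
    rw [tn_true] at b1 b2
    have hw := hi_zero
    have hw1 := hi_zero_lt
    have e : ((m' - m : ℤ) : ℝ) = (x.2 + m') - (x.2 + m) := by
      push_cast
      ring
    have c1 : 0 < ((m' - m : ℤ) : ℝ) := by
      rw [e]
      linarith
    have c2 : ((m' - m : ℤ) : ℝ) < 1 := by
      rw [e]
      linarith
    have d1 : 0 < m' - m := by exact_mod_cast c1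
    have d2 : m' - m < 1 := by exact_mod_cast c2
    omega
  cases b <;> cases b'
  · rfl
  · exact absurd ⟨h1, h2⟩ key
  · exact absurd ⟨h2, h1⟩ key
  · rfl

/-- where polygons meet -/
lemma meet_le {v w : Vx} {x : ℝ × ℝ} (hv : pp x ∈ PV v) (hw : pp x ∈ PV w) (hvw : v ≠ w)
    (hr : rk v ≤ rk w) : v = par w := by
  rcases v with _ | b | ⟨n, i, hi⟩
  · rcases w with _ | b' | ⟨n', i', hi'⟩
    · exact absurd rfl hvw
    · rfl
    · have h1 := mem_root.1 hv
      have h2 := (mem_out.1 hw).1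
      have h3 := ep_le x.2
      have h7 : n' = 0 := by
        have : (n' : ℝ) ≤ 0 := by linarith
        exact_mod_cast le_antisymm this (by positivity)
      subst h7
      rfl
  · rcases w with _ | b' | ⟨n', i', hi'⟩
    · simp [rk] at hr
    · exact absurd (by rw [notch_notch hv hw]) hvw
    · exact (notch_out hv hw).elim
  · rcases w with _ | b' | ⟨n', i', hi'⟩
    · simp [rk] at hr
    · exact (notch_out hw hv).elim
    · have hn : n ≤ n' := by simpa [rk] using hr
      obtain ⟨-, h1, m, h2⟩ := mem_out.1 hv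
      obtain ⟨h3, -, m', h4⟩ := mem_out.1 hw
      have h5 : n' ≤ n + 1 := by
        have : (n' : ℝ) ≤ n + 1 := by linarith
        exact_mod_cast this
      rcases Nat.lt_or_ge n n' with h6 | h6
      · have h7 : n' = n + 1 := by omega
        subst h7
        rw [cN_succ] at h4
        have h8 := sec_div (cN_pos n) (dN_pos n) h4
        have h9 : ((i' : ℤ) / (dN n : ℤ)) = ((i' / dN n : ℕ) : ℤ) := by push_cast; rfl
        rw [h9] at h8
        have h10 := sec_mod (cN_pos n) hi (div_lt_cN hi') h2 h8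
        subst h10
        rfl
      · have h7 : n = n' := by omega
        subst h7
        have h10 := sec_mod (cN_pos n) hi hi' h2 h4
        subst h10
        exact absurd rfl hvw

lemma push {w : Vx} (h0 : w ≠ .root) {x : ℝ × ℝ} (hv : pp x ∈ PV (par w)) (hw : pp x ∈ PV w) :
    (∀ s, x.1 < s → pp (s, x.2) ∉ PV (par w)) ∧ ∀ s, s < x.1 → pp (s, x.2) ∉ PV w := by
  rcases w with _ | b | ⟨_ | n, i, hi⟩
  · exact absurd rfl h0
  · have h1 := mem_root.1 hv
    obtain ⟨⟨m, h2⟩, h3⟩ := mem_notch.1 hw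
    have h4 : ∀ m : ℤ, |x.2 + m - tn b| ≤ 1 / 40 → ep x.2 = 1 / 8 + 35 * |x.2 + m - tn b| := by
      intro m h
      rw [← ep_add x.2 m]
      exact ep_near h
    have h5 := h4 m (notch_abs h2 h3)
    refine ⟨fun s hs hs2 => ?_, fun s hs hs2 => ?_⟩
    · have h6 := mem_root.1 hs2
      simp only at h6
      linarith
    · obtain ⟨⟨m', h6⟩, h7⟩ := mem_notch.1 hs2
      simp only at h6 h7
      have h8 := h4 m' (by linarith)
      linarith
  · have h1 := mem_root.1 hv
    obtain ⟨h2, -, -⟩ := mem_out.1 hw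
    have h3 := ep_le x.2
    push_cast at h2
    refine ⟨fun s hs hs2 => ?_, fun s hs hs2 => ?_⟩
    · have h6 := mem_root.1 hs2
      simp only at h6
      linarith
    · have h6 := (mem_out.1 hs2).1
      push_cast at h6
      linarith
  · obtain ⟨-, h1, -⟩ := mem_out.1 hv
    obtain ⟨h2, -, -⟩ := mem_out.1 hw
    push_cast at h2
    refine ⟨fun s hs hs2 => ?_, fun s hs hs2 => ?_⟩
    · have h6 := (mem_out.1 hs2).2.1
      simp only at h6
      linarith
    · have h6 := (mem_out.1 hs2).1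
      push_cast at h6
      linarith

lemma not_int_up {A : Set ℂ} {x : ℝ × ℝ} (h : ∀ s, x.1 < s → pp (s, x.2) ∉ A) :
    pp x ∉ interior A := by
  intro hx
  have hc : Continuous fun s : ℝ => pp (s, x.2) := pp_cont.comp (by fun_prop)
  have h1 : ∀ᶠ s in 𝓝 x.1, pp (s, x.2) ∈ interior A :=
    hc.continuousAt.eventually (isOpen_interior.mem_nhds hx)
  have h2 : ∀ᶠ s in 𝓝[>] x.1, pp (s, x.2) ∈ interior A := nhdsWithin_le_nhds h1
  obtain ⟨s, hs, hs2⟩ := (h2.and self_mem_nhdsWithin).exists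
  exact h s hs2 (interior_subset hs)

lemma not_int_down {A : Set ℂ} {x : ℝ × ℝ} (h : ∀ s, s < x.1 → pp (s, x.2) ∉ A) :
    pp x ∉ interior A := by
  intro hx
  have hc : Continuous fun s : ℝ => pp (s, x.2) := pp_cont.comp (by fun_prop)
  have h1 : ∀ᶠ s in 𝓝 x.1, pp (s, x.2) ∈ interior A :=
    hc.continuousAt.eventually (isOpen_interior.mem_nhds hx)
  have h2 : ∀ᶠ s in 𝓝[<] x.1, pp (s, x.2) ∈ interior A := nhdsWithin_le_nhds h1
  obtain ⟨s, hs, hs2⟩ := (h2.and self_mem_nhdsWithin).exists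
  exact h s hs2 (interior_subset hs)

lemma PV_inter {v w : Vx} (hvw : v ≠ w) : Disjoint (interior (PV v)) (PV w) := by
  rw [Set.disjoint_left]
  intro z hv hw
  obtain ⟨x, rfl⟩ := pp_surj z
  have hv' := interior_subset hv
  rcases le_total (rk v) (rk w) with h1 | h1
  · have h2 := meet_le hv' hw hvw h1
    have h3 : w ≠ .root := fun h => by
      rw [h] at h2 hvw
      exact hvw h2
    rw [h2] at hv hv'
    exact not_int_up (push h3 hv' hw).1 hv
  · have h2 := meet_le hw hv' hvw.symm h1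
    have h3 : v ≠ .root := fun h => by
      rw [h] at h2 hvw
      exact hvw h2.symm
    rw [h2] at hw
    exact not_int_down (push h3 hw hv').2 hv

lemma PV_far {v w : Vx} (hvw : v ≠ w) (h : ¬ TG.Adj v w) : Disjoint (PV v) (PV w) := by
  rw [Set.disjoint_left]
  intro z hv hw
  obtain ⟨x, rfl⟩ := pp_surj z
  rcases le_total (rk v) (rk w) with h1 | h1
  · exact h ⟨hvw, Or.inl (meet_le hv hw hvw h1)⟩
  · exact h ⟨hvw, Or.inr (meet_le hw hv hvw.symm h1)⟩

lemma PV_norm_ge {v : Vx} {z : ℂ} (h : z ∈ PV v) : (rk v : ℝ) - 1 ≤ ‖z‖ := by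
  obtain ⟨x, rfl⟩ := pp_surj z
  rcases v with _ | b | ⟨n, i, hi⟩
  · have := norm_nonneg (pp x)
    simp only [rk]
    push_cast
    linarith
  · have := norm_nonneg (pp x)
    simp only [rk]
    push_cast
    linarith
  · have h1 := (mem_out.1 h).1
    have h2 : x.1 ≤ ‖pp x‖ := by
      rw [pp_norm]
      exact le_max_left _ _
    simp only [rk]
    push_cast
    linarith

lemma PV_norm_le {v : Vx} {z : ℂ} (h : z ∈ PV v) : ‖z‖ ≤ rk v + 1 := by
  obtain ⟨x, rfl⟩ := pp_surj z
  rw [pp_norm]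
  rcases v with _ | b | ⟨n, i, hi⟩
  · have h1 := mem_root.1 h
    have h2 := ep_le x.2
    simp only [rk]
    push_cast
    exact max_le (by linarith) (by norm_num)
  · have h1 := (mem_notch.1 h).2
    simp only [rk]
    push_cast
    exact max_le (by linarith) (by norm_num)
  · have h1 := (mem_out.1 h).2.1
    simp only [rk]
    push_cast
    exact max_le (by linarith) (by positivity)

lemma rk_finite (N : ℕ) : {v : Vx | rk v ≤ N}.Finite := by
  have h : {v : Vx | rk v ≤ N} ⊆ ({.root} ∪ range Vx.notch) ∪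
      ⋃ n ∈ Iic N, range (fun i : Fin (cN n) => Vx.out n i i.2) := by
    intro v hv
    rcases v with _ | b | ⟨n, i, hi⟩
    · exact Or.inl (Or.inl rfl)
    · exact Or.inl (Or.inr ⟨b, rfl⟩)
    · right
      have hv' : n + 1 ≤ N := hv
      rw [mem_iUnion₂]
      exact ⟨n, mem_Iic.2 (by omega), ⟨i, hi⟩, rfl⟩
  refine Finite.subset ?_ h
  refine ((finite_singleton _).union (finite_range _)).union ?_
  exact (finite_Iic N).biUnion fun n _ => finite_range _

lemma PV_locFin : LocallyFinite PV := by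
  intro z
  refine ⟨Metric.ball z 1, Metric.ball_mem_nhds _ one_pos, ?_⟩
  obtain ⟨N, hN⟩ := exists_nat_gt (‖z‖ + 2)
  refine (rk_finite N).subset ?_
  rintro v ⟨y, hy, hy2⟩
  have h1 := PV_norm_ge hy
  have h2 : ‖y‖ < ‖z‖ + 1 := by
    rw [Metric.mem_ball, dist_eq_norm] at hy2
    have := norm_sub_norm_le y z
    linarith
  have h3 : (rk v : ℝ) ≤ N := by linarith
  exact_mod_cast h3

lemma PV_arc_par {w : Vx} (h0 : w ≠ .root) :
    Nonempty (↥(PV (par w) ∩ PV w) ≃ₜ unitInterval) := by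
  rcases w with _ | b | ⟨_ | n, i, hi'⟩
  · exact absurd rfl h0
  · have h : PV (par (.notch b)) ∩ PV (.notch b)
        = {z | ∃ t ∈ Icc (tn b - 1 / 40) (tn b + 1 / 40), z = pp (ep t, t)} := by
      ext z
      constructor
      · rintro ⟨h1, h2⟩
        obtain ⟨x, rfl⟩ := pp_surj z
        have h1 := mem_root.1 h1
        obtain ⟨⟨m, h2⟩, h3⟩ := mem_notch.1 h2
        have h4 := notch_abs h2 h3
        have h5 := ep_near h4
        rw [ep_add] at h5
        obtain ⟨h6, h7⟩ := abs_le.1 h4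
        refine ⟨x.2 + m, ⟨by linarith, by linarith⟩, ?_⟩
        have h8 : x.1 = ep x.2 := by linarith
        rw [ep_add, ← h8, pp_add_int]
      · rintro ⟨t, ⟨h1, h2⟩, rfl⟩
        have h3 : |t - tn b| ≤ 1 / 40 := abs_le.2 ⟨by linarith, by linarith⟩
        refine ⟨mem_root.2 le_rfl, mem_notch.2 ⟨⟨0, ?_⟩, ep_le t⟩⟩
        simp only [Int.cast_zero, add_zero]
        exact (ep_near h3).ge
    rw [h]
    refine arc_graph (by linarith) (by linarith) ep_cont fun t _ => ?_
    have := ep_ge t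
    linarith
  · have h : PV (par (.out 0 i hi')) ∩ PV (.out 0 i hi')
        = {z | ∃ t ∈ Icc (hi 0) 1, z = pp (1, t)} := by
      ext z
      constructor
      · rintro ⟨h1, h2⟩
        obtain ⟨x, rfl⟩ := pp_surj z
        have h1 := mem_root.1 h1
        obtain ⟨h2, -, m, h3⟩ := mem_out.1 h2
        push_cast at h2
        rw [sec_zero hi'] at h3
        have h4 := ep_le x.2
        have h5 : x.1 = 1 := by linarith
        refine ⟨x.2 + m, h3, ?_⟩
        rw [← h5, pp_add_int]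
      · rintro ⟨t, h1, rfl⟩
        refine ⟨mem_root.2 (ep_slit h1.1 h1.2).ge, mem_out.2 ⟨by simp, by norm_num, 0, ?_⟩⟩
        rw [sec_zero hi']
        simpa using h1
    rw [h]
    have hw := hi_zero
    have hw1 := hi_zero_lt
    exact arc_graph hw1 (by linarith) continuous_const fun _ _ => one_pos
  · have h : PV (par (.out (n + 1) i hi')) ∩ PV (.out (n + 1) i hi')
        = {z | ∃ t ∈ Icc (hi (((i : ℤ) : ℝ) / cN (n + 1))) (lo ((((i : ℤ) : ℝ) + 1) / cN (n + 1))),
          z = pp ((n : ℝ) + 2, t)} := by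
      ext z
      constructor
      · rintro ⟨h1, h2⟩
        obtain ⟨x, rfl⟩ := pp_surj z
        have h1 := (mem_out.1 h1).2.1
        obtain ⟨h2, -, m, h3⟩ := mem_out.1 h2
        push_cast at h2
        have h5 : x.1 = n + 2 := by linarith
        refine ⟨x.2 + m, h3, ?_⟩
        rw [← h5, pp_add_int]
      · rintro ⟨t, h1, rfl⟩
        have h2 : Sec (cN (n + 1)) i t := h1
        have h3 := h2
        rw [cN_succ] at h3
        have h4 := sec_div (cN_pos n) (dN_pos n) h3
        have h9 : ((i : ℤ) / (dN n : ℤ)) = ((i / dN n : ℕ) : ℤ) := by push_cast; rfl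
        rw [h9] at h4
        refine ⟨mem_out.2 ⟨by simp only; linarith, le_rfl, 0, by simpa using h4⟩,
          mem_out.2 ⟨by push_cast; linarith, by push_cast; linarith, 0, by simpa using h2⟩⟩
    rw [h]
    have h1 := sec_lt (cN_pos (n + 1)) i
    refine arc_graph h1 ?_ continuous_const fun _ _ => by positivity
    have h2 := sec_width (cN_pos (n + 1)) (i := i)
      (s := lo ((((i : ℤ) : ℝ) + 1) / cN (n + 1))) (t := hi (((i : ℤ) : ℝ) / cN (n + 1)))
      ⟨h1.le, le_rfl⟩ ⟨le_rfl, h1.le⟩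
    linarith

lemma PV_arc {v w : Vx} (h : TG.Adj v w) : Nonempty (↥(PV v ∩ PV w) ≃ₜ unitInterval) := by
  rw [TG_adj] at h
  obtain ⟨h1, h2 | h2⟩ := h
  · have h3 : w ≠ .root := fun h => by
      rw [h] at h2 h1
      exact h1 h2
    rw [h2]
    exact PV_arc_par h3
  · have h3 : v ≠ .root := fun h => by
      rw [h] at h2 h1
      exact h1 h2.symm
    rw [h2, inter_comm]
    exact PV_arc_par h3

lemma out_St {n : ℕ} {i : ℤ} {x : ℝ × ℝ} (h : x.1 ≤ n + 2) (h' : Sec (cN n) i x.2) : x ∈ St := by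
  intro q h1 h2
  have hN : (0 : ℝ) < cN n := by exact_mod_cast cN_pos n
  have h3 : (i : ℝ) / cN n < q := by
    by_contra hcon
    push Not at hcon
    have := hi_strict.monotone hcon
    linarith [h'.1]
  have h4 : (q : ℝ) < (i + 1) / cN n := by
    by_contra hcon
    push Not at hcon
    have := lo_strict.monotone hcon
    linarith [h'.2]
  have h5 : ¬ lev q ≤ Lv n := by
    rw [lev_le]
    rintro ⟨m, hm⟩
    have hm' : (cN n : ℝ) * q = m := by
      unfold cN
      exact_mod_cast hm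
    rw [div_lt_iff₀ hN, mul_comm, hm'] at h3
    rw [lt_div_iff₀ hN, mul_comm, hm'] at h4
    have h6 : i < m := by exact_mod_cast h3
    have h7 : m < i + 1 := by exact_mod_cast h4
    omega
  have h6 : nr (Lv n + 1) ≤ nr (lev q) := nr_strict.monotone (by omega)
  have h7 := Lv_lt n
  have h8 : ((n + 2 : ℕ) : ℝ) ≤ nr (lev q) := by exact_mod_cast (by omega : n + 2 ≤ nr (lev q))
  push_cast at h8
  unfold sg
  linarith

lemma PV_sub (v : Vx) : PV v ⊆ SS := by
  intro z hz
  obtain ⟨x, rfl⟩ := pp_surj z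
  rw [pp_SS]
  rcases v with _ | b | ⟨n, i, hi⟩
  · exact St_small ((mem_root.1 hz).trans (ep_le _))
  · exact St_small (mem_notch.1 hz).2
  · obtain ⟨-, h1, m, h2⟩ := mem_out.1 hz
    have h3 : (x.1, x.2 + (m : ℝ)) ∈ St := out_St (x := (x.1, x.2 + (m : ℝ))) h1 h2
    have h4 : (x.1, x.2 + (m : ℝ)) = x + (0, (m : ℝ)) := by ext <;> simp
    rwa [h4, St_add_int] at h3

/-- every point of the surface is in a polygon -/
lemma cover {x : ℝ × ℝ} (hx : x ∈ St) : ∃ v, pp x ∈ PV v ∧ (rk v ≤ 1 ∨ (rk v : ℝ) < x.1) := by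
  by_cases h1 : x.1 ≤ 1
  · by_cases h2 : x.1 ≤ ep x.2
    · exact ⟨.root, mem_root.2 h2, Or.inl (by simp [rk])⟩
    · push Not at h2
      have h3 : e0 (Int.fract x.2) < 1 := h2.trans_le h1
      obtain ⟨b, hb⟩ := e0_lt h3
      refine ⟨.notch b, mem_notch.2 ⟨⟨-⌊x.2⌋, ?_⟩, h1⟩, Or.inl (by simp [rk])⟩
      have h4 : x.2 + ((-⌊x.2⌋ : ℤ) : ℝ) = Int.fract x.2 := by
        have := Int.floor_add_fract x.2
        push_cast
        linarith
      rw [h4, ← hb]
      exact h2.le
  · push Not at h1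
    obtain ⟨n, hn1, hn2⟩ : ∃ n : ℕ, n + 1 < x.1 ∧ x.1 ≤ n + 2 := by
      have h2 := Nat.le_ceil x.1
      have h3 := Nat.ceil_lt_add_one (show 0 ≤ x.1 by linarith)
      have h4 : 2 ≤ ⌈x.1⌉₊ := by
        have : (1 : ℝ) < ⌈x.1⌉₊ := by linarith
        have : 1 < ⌈x.1⌉₊ := by exact_mod_cast this
        omega
      obtain ⟨n, hn⟩ := Nat.exists_eq_add_of_le h4
      rw [hn] at h2 h3
      push_cast at h2 h3
      exact ⟨n, by linarith, by linarith⟩
    have hN := cN_pos n
    rcases sec_cover hN x.2 with ⟨i, h2⟩ | ⟨i, h2, h3⟩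
    · have hpz : (0 : ℤ) < cN n := by exact_mod_cast hN
      have hj0 : 0 ≤ i % cN n := Int.emod_nonneg _ hpz.ne'
      have hj1 : i % cN n < cN n := Int.emod_lt_of_pos _ hpz
      obtain ⟨j, hj⟩ := Int.eq_ofNat_of_zero_le hj0
      have hj2 : j < cN n := by
        have : (j : ℤ) < cN n := by rw [← hj]; exact hj1
        exact_mod_cast this
      refine ⟨.out n j hj2, mem_out.2 ⟨hn1.le, hn2, -(i / cN n), ?_⟩, Or.inr (by
        simp only [rk]
        push_cast
        exact hn1)⟩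
      have hd : i + (-(i / cN n)) * cN n = j := by
        have := Int.ediv_mul_add_emod i (cN n)
        rw [hj] at this
        have h5 : ((i / (cN n : ℤ)) * (cN n : ℤ) + (j : ℤ)) = i := by exact_mod_cast this
        linarith
      rw [← hd]
      exact (sec_add hN _).2 h2
    · exfalso
      rw [cast_div'] at h2 h3
      have h4 := hx _ h2 h3
      have h5 : lev ((i : ℚ) / cN n) ≤ Lv n := by
        rw [lev_le]
        refine ⟨i, ?_⟩
        have : ((Lv n + 1).factorial : ℚ) = cN n := rfl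
        rw [this]
        have h6 : (cN n : ℚ) ≠ 0 := by exact_mod_cast hN.ne'
        field_simp
      have h6 : nr (lev ((i : ℚ) / cN n)) ≤ n + 1 := (nr_strict.monotone h5).trans (Lv_le n)
      have h7 : ((nr (lev ((i : ℚ) / cN n)) : ℕ) : ℝ) ≤ ((n + 1 : ℕ) : ℝ) := by exact_mod_cast h6
      push_cast at h7
      unfold sg at h4
      linarith

lemma SS_eq : (⋃ v, PV v) = SS := by
  apply Subset.antisymm (iUnion_subset PV_sub)
  rintro _ ⟨x, hx, rfl⟩
  obtain ⟨v, hv, -⟩ := cover hx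
  exact mem_iUnion.2 ⟨v, hv⟩

/-! ### the punctures -/

/-- the position of the annulus among the annuli of its level -/
def jn (n : ℕ) : ℕ := n + 2 - nr (Lv n)

lemma jn_mem (n : ℕ) : 1 ≤ jn n ∧ jn n ≤ Lv n + 1 ∧ jn n + nr (Lv n) = n + 2 := by
  have h1 := Lv_le n
  have h2 := Lv_lt n
  have h3 : nr (Lv n + 1) = nr (Lv n) + (Lv n + 1) := rfl
  unfold jn
  omega

/-- the rational number of the puncture -/
def qn (n i : ℕ) : ℚ := i / cN n + jn n / ((Lv n + 2) * cN n)

lemma qn_gt (n i : ℕ) : (i : ℚ) / cN n < qn n i := by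
  obtain ⟨h1, h2, -⟩ := jn_mem n
  have hN : (0 : ℚ) < cN n := by exact_mod_cast cN_pos n
  have h3 : (0 : ℚ) < jn n := by exact_mod_cast h1
  have : (0 : ℚ) < jn n / ((Lv n + 2) * cN n) := by positivity
  unfold qn
  linarith

lemma qn_lt (n i : ℕ) : qn n i < ((i : ℚ) + 1) / cN n := by
  obtain ⟨h1, h2, -⟩ := jn_mem n
  have hN : (0 : ℚ) < cN n := by exact_mod_cast cN_pos n
  have h3 : (jn n : ℚ) ≤ Lv n + 1 := by exact_mod_cast h2
  have h4 : (jn n : ℚ) / ((Lv n + 2) * cN n) < 1 / cN n := by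
    rw [div_lt_div_iff₀ (by positivity) hN]
    nlinarith
  unfold qn
  rw [add_div]
  linarith

/-- the punctures -/
noncomputable def ptV : Vx → ℂ
  | .root => pp (7 / 8, hi 0 / 2)
  | .notch b => pp (1 / 4, tn b)
  | .out n i _ => pp (n + 3 / 2, mid (qn n i))

lemma ptV_mem (v : Vx) : ptV v ∈ interior (PV v) := by
  rw [mem_interior]
  rcases v with _ | b | ⟨n, i, hi'⟩
  · refine ⟨pp '' {x | 0 < x.1 ∧ x.1 < ep x.2}, ?_, ?_, ?_⟩
    · rintro _ ⟨x, ⟨-, hx⟩, rfl⟩
      exact mem_root.2 hx.le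
    · refine pp_open ?_ fun x hx => hx.1
      have := ep_cont
      exact (isOpen_lt continuous_const continuous_fst).inter
        (isOpen_lt continuous_fst (by fun_prop))
    · refine ⟨_, ⟨?_, ?_⟩, rfl⟩
      · norm_num
      · simp only
        rw [ep_mid]
        norm_num
  · refine ⟨pp '' {x | 1 / 8 + 35 * |x.2 - tn b| < x.1 ∧ x.1 < 1}, ?_, ?_, ?_⟩
    · rintro _ ⟨x, ⟨h1, h2⟩, rfl⟩
      exact mem_notch.2 ⟨⟨0, by simpa using h1.le⟩, h2.le⟩
    · refine pp_open ?_ fun x hx => ?_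
      · exact (isOpen_lt (by fun_prop) continuous_fst).inter
          (isOpen_lt continuous_fst continuous_const)
      · have h1 : 1 / 8 + 35 * |x.2 - tn b| < x.1 := hx.1
        have := abs_nonneg (x.2 - tn b)
        linarith
    · refine ⟨_, ⟨?_, ?_⟩, rfl⟩
      · simp only
        rw [sub_self, abs_zero]
        norm_num
      · norm_num
  · refine ⟨pp '' {x | ((n : ℝ) + 1 < x.1 ∧ x.1 < n + 2) ∧
      (hi (((i : ℤ) : ℝ) / cN n) < x.2 ∧ x.2 < lo ((((i : ℤ) : ℝ) + 1) / cN n))}, ?_, ?_, ?_⟩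
    · rintro _ ⟨x, ⟨⟨h1, h2⟩, h3, h4⟩, rfl⟩
      refine mem_out.2 ⟨h1.le, h2.le, 0, ?_⟩
      simp only [Int.cast_zero, add_zero]
      exact ⟨h3.le, h4.le⟩
    · refine pp_open ?_ fun x hx => ?_
      · exact ((isOpen_lt continuous_const continuous_fst).inter
          (isOpen_lt continuous_fst continuous_const)).inter
          ((isOpen_lt continuous_const continuous_snd).inter
          (isOpen_lt continuous_snd continuous_const))
      · have h1 : (n : ℝ) + 1 < x.1 := hx.1.1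
        have h2 : (0 : ℝ) ≤ n := by positivity
        linarith
    · refine ⟨_, ⟨⟨?_, ?_⟩, ?_, ?_⟩, rfl⟩
      · simp only
        linarith
      · simp only
        linarith
      · have h1 : (((i : ℤ) : ℝ) / cN n) < ((qn n i : ℚ) : ℝ) := by
          have h0 := qn_gt n i
          have h0' : (((i : ℚ) / cN n : ℚ) : ℝ) < ((qn n i : ℚ) : ℝ) := Rat.cast_lt.2 h0
          push_cast at h0' ⊢
          exact h0'
        exact (hi_lt_lo h1).trans (lo_lt_mid _)
      · have h1 : ((qn n i : ℚ) : ℝ) < (((i : ℤ) : ℝ) + 1) / cN n := by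
          have h0 := qn_lt n i
          have h0' : ((qn n i : ℚ) : ℝ) < ((((i : ℚ) + 1) / cN n : ℚ) : ℝ) := Rat.cast_lt.2 h0
          push_cast at h0' ⊢
          exact h0'
        exact (mid_lt_hi _).trans (hi_lt_lo h1)

/-- the rigid surface -/
noncomputable abbrev YY : RigidSurface where
  V := Vx
  T := TG
  tree := TG_tree
  pt := ptV
  P := PV
  disc := PV_disc
  mem := ptV_mem
  locFin := PV_locFin
  inter := fun _ _ h => PV_inter h
  far := fun _ _ h h' => PV_far h h'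
  arc := fun _ _ h => PV_arc h

lemma YY_S : YY.S = SS := SS_eq

end Pool.Agent.H65.Qm
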