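import Pool.Agent.H65.Qm.Coll

/-!
# The radial part of the action
-/

set_option autoImplicit false

namespace Pool.Agent.H65.Qm

open Set Topology Filter
open scoped Nat
open Pool.Agent.Q238.AR (fib surj_of_near)

/-! ### piecewise linear maps of the line -/

/-- the piecewise linear map which maps `b` to `b'` and is the identity outside of `[x₀, x₁]` -/
noncomputable def nod (x₀ b' x₁ b x : ℝ) : ℝ :=
  min x (max (x₀ + (x - x₀) * ((b' - x₀) / (b - x₀))) (x₁ - (x₁ - x) * ((x₁ - b') / (x₁ - b))))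

section nod

variable {x₀ b' x₁ b : ℝ}

lemma nod_strict (h0 : x₀ < b') (h1 : b' ≤ b) (h2 : b < x₁) : StrictMono (nod x₀ b' x₁ b) := by
  have e1 : 0 < (b' - x₀) / (b - x₀) := div_pos (by linarith) (by linarith)
  have e2 : 0 < (x₁ - b') / (x₁ - b) := div_pos (by linarith) (by linarith)
  intro x y h
  refine min_lt_min h (max_lt_max ?_ ?_)
  · have := mul_lt_mul_of_pos_right (sub_lt_sub_right h x₀) e1
    linarith
  · have := mul_lt_mul_of_pos_right (sub_lt_sub_left h x₁) e2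
    linarith

lemma nod_le (h0 : x₀ < b') (h1 : b' ≤ b) (h2 : b < x₁) {x : ℝ} (hx : x ≤ x₀) :
    nod x₀ b' x₁ b x = x := by
  unfold nod
  apply min_eq_left
  apply le_max_of_le_left
  have e1 : (b' - x₀) / (b - x₀) ≤ 1 := by
    rw [div_le_one (by linarith)]
    linarith
  nlinarith

lemma nod_ge (h0 : x₀ < b') (h1 : b' ≤ b) (h2 : b < x₁) {x : ℝ} (hx : x₁ ≤ x) :
    nod x₀ b' x₁ b x = x := by
  unfold nod
  apply min_eq_left
  apply le_max_of_le_right
  have e1 : 1 ≤ (x₁ - b') / (x₁ - b) := by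
    rw [one_le_div (by linarith)]
    linarith
  nlinarith

lemma nod_mid (h0 : x₀ < b') (h1 : b' ≤ b) (h2 : b < x₁) {x : ℝ} (hx : x₀ ≤ x) (hb : x ≤ b) :
    nod x₀ b' x₁ b x = x₀ + (x - x₀) * ((b' - x₀) / (b - x₀)) := by
  have e1 : (b' - x₀) / (b - x₀) ≤ 1 := by
    rw [div_le_one (by linarith)]
    linarith
  have e3 : 1 ≤ (x₁ - b') / (x₁ - b) := by
    rw [one_le_div (by linarith)]
    linarith
  have e4 : x₁ - (x₁ - x) * ((x₁ - b') / (x₁ - b)) ≤ x₀ + (x - x₀) * ((b' - x₀) / (b - x₀)) := by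
    have e5 : x₁ - (x₁ - x) * ((x₁ - b') / (x₁ - b)) = b' - (b - x) * ((x₁ - b') / (x₁ - b)) := by
      have : x₁ - b ≠ 0 := by linarith
      field_simp
      ring
    have e6 : x₀ + (x - x₀) * ((b' - x₀) / (b - x₀)) = b' - (b - x) * ((b' - x₀) / (b - x₀)) := by
      have : b - x₀ ≠ 0 := by linarith
      field_simp
      ring
    rw [e5, e6]
    have : (b - x) * ((b' - x₀) / (b - x₀)) ≤ (b - x) * ((x₁ - b') / (x₁ - b)) :=
      mul_le_mul_of_nonneg_left (e1.trans e3) (by linarith)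
    linarith
  unfold nod
  rw [max_eq_left e4, min_eq_right]
  nlinarith

lemma nod_b (h0 : x₀ < b') (h1 : b' ≤ b) (h2 : b < x₁) : nod x₀ b' x₁ b b = b' := by
  rw [nod_mid h0 h1 h2 (by linarith) le_rfl]
  have : b - x₀ ≠ 0 := by linarith
  field_simp
  ring

lemma nod_near (h0 : x₀ < b') (h1 : b' ≤ b) (h2 : b < x₁) (x : ℝ) :
    |nod x₀ b' x₁ b x - x| ≤ x₁ - x₀ := by
  have hm := (nod_strict h0 h1 h2).monotone
  rcases le_total x x₀ with h | h
  · rw [nod_le h0 h1 h2 h, sub_self, abs_zero]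
    linarith
  · rcases le_total x₁ x with h' | h'
    · rw [nod_ge h0 h1 h2 h', sub_self, abs_zero]
      linarith
    · have e1 := hm h
      have e2 := hm h'
      rw [nod_le h0 h1 h2 le_rfl] at e1
      rw [nod_ge h0 h1 h2 le_rfl] at e2
      rw [abs_le]
      constructor <;> linarith

lemma nod_self (h0 : x₀ < b) (h2 : b < x₁) (x : ℝ) : nod x₀ b x₁ b x = x := by
  unfold nod
  rw [div_self (by linarith), div_self (by linarith)]
  simp

end nod

/-- the homeomorphism `(x, r) ↦ (x, nod _ _ _ (b x) r)` -/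
noncomputable def Nod (x₀ b' x₁ : ℝ) (b : ℝ → ℝ) (hb : Continuous b) (h0 : x₀ < b')
    (h1 : ∀ x, b' ≤ b x) (h2 : ∀ x, b x < x₁) : ℝ × ℝ ≃ₜ ℝ × ℝ :=
  fib (fun p => nod x₀ b' x₁ (b p.1) p.2)
    (by
      have e1 : ∀ p : ℝ × ℝ, b p.1 - x₀ ≠ 0 := fun p => by linarith [h1 p.1]
      have e2 : ∀ p : ℝ × ℝ, x₁ - b p.1 ≠ 0 := fun p => by linarith [h2 p.1]
      have e3 : Continuous fun p : ℝ × ℝ => (b' - x₀) / (b p.1 - x₀) :=
        Continuous.div (by fun_prop) (by fun_prop) e1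
      have e4 : Continuous fun p : ℝ × ℝ => (x₁ - b') / (x₁ - b p.1) :=
        Continuous.div (by fun_prop) (by fun_prop) e2
      unfold nod
      fun_prop)
    (fun x => nod_strict h0 (h1 x) (h2 x))
    (fun x => by
      refine surj_of_near ?_ _ (nod_near h0 (h1 x) (h2 x))
      have e1 : Continuous fun y : ℝ => nod x₀ b' x₁ (b x) y := by
        unfold nod
        fun_prop
      exact e1)

lemma Nod_apply (x₀ b' x₁ : ℝ) (b : ℝ → ℝ) (hb : Continuous b) (h0 : x₀ < b')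
    (h1 : ∀ x, b' ≤ b x) (h2 : ∀ x, b x < x₁) (p : ℝ × ℝ) :
    Nod x₀ b' x₁ b hb h0 h1 h2 p = (p.1, nod x₀ b' x₁ (b p.1) p.2) := rfl

/-! ### radii -/

/-- the radius at which the slits of level `K` start -/
def nr : ℕ → ℕ
  | 0 => 1
  | K + 1 => nr K + (K + 1)

lemma nr_ge (K : ℕ) : K + 1 ≤ nr K := by
  induction K with
  | zero => simp [nr]
  | succ K ih =>
    unfold nr
    omega

lemma nr_strict : StrictMono nr := strictMono_nat_of_lt_succ fun K => by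
  change nr K < nr K + (K + 1)
  omega

lemma nr_succ (K : ℕ) : ((nr (K + 1) : ℕ) : ℝ) = nr K + (K + 1) := by
  change ((nr K + (K + 1) : ℕ) : ℝ) = _
  push_cast
  ring

lemma nr_ge' (K : ℕ) : (K : ℝ) + 1 ≤ nr K := by exact_mod_cast nr_ge K

/-- a function with the values `0` at the end points of `[0, 1]` and `1` at the points
`j / (K + 2)`, `0 < j < K + 2` -/
noncomputable def ef (K : ℕ) (z : ℝ) : ℝ := min 1 (min ((K + 2) * z) ((K + 2) - (K + 2) * z))

lemma ef_le (K : ℕ) (z : ℝ) : ef K z ≤ 1 := min_le_left _ _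

lemma ef_nonneg (K : ℕ) {z : ℝ} (h0 : 0 ≤ z) (h1 : z ≤ 1) : 0 ≤ ef K z := by
  have hK : (0 : ℝ) < K + 2 := by positivity
  unfold ef
  refine le_min zero_le_one (le_min (by positivity) ?_)
  nlinarith

/-- the target of the slits -/
noncomputable def bf (K : ℕ) (z : ℝ) : ℝ := 1 + (nr (K + 1) - 1) * ef K z

/-- the target of the punctures -/
noncomputable def af (K : ℕ) (z : ℝ) : ℝ :=
  7 / 8 + (nr K + max 1 (min ((K + 2) * z) (K + 1)) - 11 / 8) * ef K z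

lemma bf_ge (K : ℕ) {z : ℝ} (h0 : 0 ≤ z) (h1 : z ≤ 1) : 1 ≤ bf K z := by
  have e1 := ef_nonneg K h0 h1
  have e2 := nr_ge' (K + 1)
  push_cast at e2
  have e3 : (0 : ℝ) ≤ K := by positivity
  unfold bf
  nlinarith

lemma bf_lt (K : ℕ) {z : ℝ} (h0 : 0 ≤ z) (h1 : z ≤ 1) : bf K z < nr (K + 1) + 1 / 4 := by
  have e1 := ef_le K z
  have e2 := nr_ge' (K + 1)
  push_cast at e2
  have e3 : (0 : ℝ) ≤ K := by positivity
  unfold bf
  nlinarith

lemma af_ge (K : ℕ) {z : ℝ} (h0 : 0 ≤ z) (h1 : z ≤ 1) : (bf K z - 3 / 4) / 2 ≤ af K z - 3 / 4 := by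
  have e1 := ef_nonneg K h0 h1
  have e2 := nr_ge' K
  have e3 : (0 : ℝ) ≤ K := by positivity
  have e4 := nr_succ K
  have e5 : (1 : ℝ) ≤ max 1 (min ((K + 2) * z) (K + 1)) := le_max_left _ _
  unfold bf af
  rw [e4]
  have e6 : ((nr K : ℝ) + (K + 1) - 1) / 2 ≤ nr K + max 1 (min ((K + 2) * z) (K + 1)) - 11 / 8 := by
    linarith
  have e7 := mul_le_mul_of_nonneg_right e6 e1
  linarith

lemma af_lt (K : ℕ) {z : ℝ} (h0 : 0 ≤ z) (h1 : z ≤ 1) : af K z < bf K z := by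
  have e1 := ef_nonneg K h0 h1
  have e3 : (0 : ℝ) ≤ K := by positivity
  have e4 := nr_succ K
  have e5 : max 1 (min ((K + 2) * z) (K + 1)) ≤ (K : ℝ) + 1 := max_le (by linarith) (min_le_right _ _)
  unfold bf af
  rw [e4]
  have e6 : nr K + max 1 (min ((K + 2) * z) (K + 1)) - 11 / 8 ≤ ((nr K : ℝ) + (K + 1) - 1) := by
    linarith
  have e7 := mul_le_mul_of_nonneg_right e6 e1
  linarith

/-- the intermediate position of the punctures -/
noncomputable def cf (K : ℕ) (z : ℝ) : ℝ := 3 / 4 + (af K z - 3 / 4) / (4 * (bf K z - 3 / 4))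

lemma cf_ge (K : ℕ) {z : ℝ} (h0 : 0 ≤ z) (h1 : z ≤ 1) : 7 / 8 ≤ cf K z := by
  have e1 := af_ge K h0 h1
  have e2 := bf_ge K h0 h1
  have e3 : 1 / 8 ≤ (af K z - 3 / 4) / (4 * (bf K z - 3 / 4)) := by
    rw [le_div_iff₀ (by linarith)]
    linarith
  unfold cf
  linarith

lemma cf_lt (K : ℕ) {z : ℝ} (h0 : 0 ≤ z) (h1 : z ≤ 1) : cf K z < 1 := by
  have e1 := af_lt K h0 h1
  have e2 := bf_ge K h0 h1
  have e3 : (af K z - 3 / 4) / (4 * (bf K z - 3 / 4)) < 1 / 4 := by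
    rw [div_lt_iff₀ (by linarith)]
    linarith
  unfold cf
  linarith

lemma ef_zero (K : ℕ) : ef K 0 = 0 := by
  have hK : (0 : ℝ) < K + 2 := by positivity
  unfold ef
  rw [mul_zero, sub_zero, min_eq_left hK.le, min_eq_right zero_le_one]

lemma ef_one (K : ℕ) : ef K 1 = 0 := by
  have hK : (0 : ℝ) < K + 2 := by positivity
  unfold ef
  rw [mul_one, sub_self, min_eq_right hK.le, min_eq_right zero_le_one]

lemma bf_zero (K : ℕ) : bf K 0 = 1 := by
  unfold bf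
  rw [ef_zero]
  ring

lemma cf_zero (K : ℕ) : cf K 0 = 7 / 8 := by
  unfold cf af
  rw [bf_zero, ef_zero]
  norm_num

lemma per_cont {f : ℝ → ℝ} (hf : ContinuousOn f (Icc 0 1)) (h : f 0 = f 1) (n : ℝ) :
    Continuous fun x => f (Int.fract (n * x)) :=
  (ContinuousOn.comp_fract'' hf h).comp (continuous_const.mul continuous_id)

/-- the target of the slits as a function of the angle -/
noncomputable def bt (K : ℕ) (x : ℝ) : ℝ := bf K (Int.fract (((K + 1)! : ℝ) * x))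

/-- the intermediate position of the punctures as a function of the angle -/
noncomputable def ct (K : ℕ) (x : ℝ) : ℝ := cf K (Int.fract (((K + 1)! : ℝ) * x))

lemma ef_cont (K : ℕ) : Continuous (ef K) := by unfold ef; fun_prop

lemma bf_cont (K : ℕ) : Continuous (bf K) := by
  have := ef_cont K
  unfold bf
  fun_prop

lemma af_cont (K : ℕ) : Continuous (af K) := by
  have := ef_cont K
  unfold af
  fun_prop

lemma bt_cont (K : ℕ) : Continuous (bt K) := by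
  refine per_cont (bf_cont K).continuousOn ?_ _
  unfold bf
  rw [ef_zero, ef_one]

lemma ct_cont (K : ℕ) : Continuous (ct K) := by
  refine per_cont ?_ ?_ _
  · have h1 := af_cont K
    have h2 := bf_cont K
    unfold cf
    refine continuousOn_const.add (ContinuousOn.div (by fun_prop) (by fun_prop) fun z hz => ?_)
    have := bf_ge K hz.1 hz.2
    linarith
  · unfold cf af bf
    rw [ef_zero, ef_one]
    simp

lemma bt_ge (K : ℕ) (x : ℝ) : 1 ≤ bt K x := bf_ge K (Int.fract_nonneg _) (Int.fract_lt_one _).le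

lemma bt_lt (K : ℕ) (x : ℝ) : bt K x < nr (K + 1) + 1 / 4 :=
  bf_lt K (Int.fract_nonneg _) (Int.fract_lt_one _).le

lemma ct_ge (K : ℕ) (x : ℝ) : 7 / 8 ≤ ct K x :=
  cf_ge K (Int.fract_nonneg _) (Int.fract_lt_one _).le

lemma ct_lt (K : ℕ) (x : ℝ) : ct K x < 1 := cf_lt K (Int.fract_nonneg _) (Int.fract_lt_one _).le

/-- the step of the construction, the angle is the first coordinate -/
noncomputable def mu (K : ℕ) : ℝ × ℝ ≃ₜ ℝ × ℝ :=
  (Nod (3 / 4) 1 (nr (K + 1) + 1 / 4) (bt K) (bt_cont K) (by norm_num) (bt_ge K) (bt_lt K)).trans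
    (Nod (3 / 4) (7 / 8) 1 (ct K) (ct_cont K) (by norm_num) (ct_ge K) (ct_lt K))

lemma mu_apply (K : ℕ) (x r : ℝ) : mu K (x, r) =
    (x, nod (3 / 4) (7 / 8) 1 (ct K x) (nod (3 / 4) 1 (nr (K + 1) + 1 / 4) (bt K x) r)) := rfl

lemma mu_fst (K : ℕ) (p : ℝ × ℝ) : (mu K p).1 = p.1 := rfl

lemma mu_small (K : ℕ) {p : ℝ × ℝ} (h : p.2 ≤ 3 / 4) : mu K p = p := by
  obtain ⟨x, r⟩ := p
  rw [mu_apply, nod_le (by norm_num) (bt_ge K x) (bt_lt K x) h,
    nod_le (by norm_num) (ct_ge K x) (ct_lt K x) h]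

lemma mu_large (K : ℕ) {p : ℝ × ℝ} (h : nr (K + 1) + 1 / 4 ≤ p.2) : mu K p = p := by
  obtain ⟨x, r⟩ := p
  have h1 := nr_ge' (K + 1)
  push_cast at h1
  have h2 : (0 : ℝ) ≤ K := by positivity
  simp only at h
  rw [mu_apply, nod_ge (by norm_num) (bt_ge K x) (bt_lt K x) h,
    nod_ge (by norm_num) (ct_ge K x) (ct_lt K x) (by linarith)]

lemma mu_strict (K : ℕ) (x : ℝ) : StrictMono fun r => (mu K (x, r)).2 := by
  intro r s h
  exact nod_strict (by norm_num) (ct_ge K x) (ct_lt K x)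
    (nod_strict (by norm_num) (bt_ge K x) (bt_lt K x) h)

/-! ### levels of rational numbers -/

/-- `q` is a multiple of `1 / (K + 1)!` -/
def Lev (K : ℕ) (q : ℚ) : Prop := ∃ m : ℤ, ((K + 1)! : ℚ) * q = m

lemma Lev.mono {K K' : ℕ} (h : K ≤ K') {q : ℚ} (hq : Lev K q) : Lev K' q := by
  obtain ⟨m, hm⟩ := hq
  obtain ⟨d, hd⟩ := Nat.factorial_dvd_factorial (Nat.add_le_add_right h 1)
  refine ⟨d * m, ?_⟩
  rw [hd]
  push_cast
  rw [← hm]
  ring

lemma Lev.add {K : ℕ} {p q : ℚ} (hp : Lev K p) (hq : Lev K q) : Lev K (p + q) := by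
  obtain ⟨m, hm⟩ := hp
  obtain ⟨n, hn⟩ := hq
  exact ⟨m + n, by push_cast; rw [← hm, ← hn]; ring⟩

lemma Lev.neg {K : ℕ} {p : ℚ} (hp : Lev K p) : Lev K (-p) := by
  obtain ⟨m, hm⟩ := hp
  exact ⟨-m, by push_cast; rw [← hm]; ring⟩

lemma Lev_den (q : ℚ) : Lev q.den q := by
  have h : q.den ∣ (q.den + 1)! := Nat.dvd_factorial q.den_pos (Nat.le_succ _)
  obtain ⟨d, hd⟩ := h
  refine ⟨d * q.num, ?_⟩
  rw [hd]
  push_cast
  have h1 : (q.den : ℚ) * q = q.num := by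
    rw [mul_comm]
    exact Rat.mul_den_eq_num q
  calc (q.den : ℚ) * d * q = d * (q.den * q) := by ring
    _ = d * q.num := by rw [h1]

lemma Lev_int (K : ℕ) (m : ℤ) : Lev K m := ⟨(K + 1)! * m, by push_cast; ring⟩

lemma Lev_zero {q : ℚ} (h : Lev 0 q) : ∃ m : ℤ, q = m := by
  obtain ⟨m, hm⟩ := h
  refine ⟨m, ?_⟩
  simpa using hm

lemma lev_ex (q : ℚ) : ∃ K, Lev K q := ⟨_, Lev_den q⟩

open Classical in
/-- the level of `q` -/
noncomputable def lev (q : ℚ) : ℕ := Nat.find (lev_ex q)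

open Classical in
lemma lev_spec (q : ℚ) : Lev (lev q) q := Nat.find_spec (lev_ex q)

open Classical in
lemma lev_le {q : ℚ} {K : ℕ} : lev q ≤ K ↔ Lev K q :=
  ⟨fun h => (lev_spec q).mono h, fun h => Nat.find_min' (lev_ex q) h⟩

lemma lev_eq {q : ℚ} {K : ℕ} (h : Lev (K + 1) q) (h' : ¬ Lev K q) : lev q = K + 1 := by
  apply le_antisymm (lev_le.2 h)
  by_contra h1
  exact h' (lev_le.1 (by omega))

lemma lev_add_int (q : ℚ) (m : ℤ) : lev (q + m) = lev q := by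
  have h : ∀ (q : ℚ) (m : ℤ), lev (q + m) ≤ lev q := fun q m =>
    lev_le.2 ((lev_spec q).add (Lev_int _ m))
  apply le_antisymm (h q m)
  have := h (q + m) (-m)
  push_cast at this
  rwa [add_neg_cancel_right] at this

/-- the radius at which the slit at `q` starts -/
noncomputable def sg (q : ℚ) : ℝ := nr (lev q)

/-- the radius of the puncture of `q` -/
noncomputable def rho (q : ℚ) : ℝ :=
  if lev q = 0 then 7 / 8
  else nr (lev q - 1) + (lev q + 1) * Int.fract (((lev q)! : ℝ) * q) - 1 / 2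

lemma sg_ge (q : ℚ) : 1 ≤ sg q := by
  have := nr_ge' (lev q)
  have h : (0 : ℝ) ≤ lev q := by positivity
  unfold sg
  linarith

lemma fac_succ_real (K : ℕ) : ((K + 1 + 1)! : ℝ) = (K + 2) * ((K + 1)! : ℝ) := by
  rw [Nat.factorial_succ (K + 1)]
  push_cast
  ring

/-- the fractional part at a point of level `K + 1` -/
lemma fract_lev {K : ℕ} {q : ℚ} (h : Lev (K + 1) q) (h' : ¬ Lev K q) : ∃ j : ℕ, 1 ≤ j ∧ j ≤ K + 1 ∧
    ((K : ℝ) + 2) * Int.fract (((K + 1)! : ℝ) * q) = j := by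
  obtain ⟨m, hm⟩ := h
  have hK : (0 : ℝ) < K + 2 := by positivity
  have hm' : ((K : ℝ) + 2) * (((K + 1)! : ℝ) * q) = m := by
    rw [← mul_assoc, ← fac_succ_real]
    exact_mod_cast hm
  set z := ((K + 1)! : ℝ) * (q : ℝ) with hz
  have h1 := Int.floor_add_fract z
  have h2 : ((K : ℝ) + 2) * Int.fract z = ((m - (K + 2) * ⌊z⌋ : ℤ) : ℝ) := by
    push_cast
    rw [← hm']
    linear_combination ((K : ℝ) + 2) * h1
  have h3 : 0 < Int.fract z := by
    rcases (Int.fract_nonneg z).lt_or_eq with h4 | h4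
    · exact h4
    · exfalso
      apply h'
      refine ⟨⌊z⌋, ?_⟩
      rw [← h4, add_zero] at h1
      have h5 : (((⌊z⌋ : ℤ) : ℚ) : ℝ) = (((K + 1)! : ℚ) * q : ℚ) := by
        push_cast
        rw [h1, hz]
      exact_mod_cast h5.symm
  have h4 := Int.fract_lt_one z
  have h5 : (0 : ℝ) < ((m - (K + 2) * ⌊z⌋ : ℤ) : ℝ) := by
    rw [← h2]
    positivity
  have h6 : ((m - (K + 2) * ⌊z⌋ : ℤ) : ℝ) < K + 2 := by
    rw [← h2]
    nlinarith
  obtain ⟨j, hj⟩ := Int.eq_ofNat_of_zero_le (Int.cast_pos.1 h5).le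
  rw [hj] at h2 h5 h6
  push_cast at h2 h5 h6
  refine ⟨j, ?_, ?_, h2⟩
  · have : 0 < j := by exact_mod_cast h5
    omega
  · have : j < K + 2 := by exact_mod_cast h6
    omega

lemma fract_lev' {K : ℕ} {q : ℚ} (h : Lev K q) : Int.fract (((K + 1)! : ℝ) * q) = 0 := by
  obtain ⟨m, hm⟩ := h
  have hm' : ((K + 1)! : ℝ) * q = m := by exact_mod_cast hm
  rw [hm', Int.fract_intCast]

lemma rho_succ {K : ℕ} {q : ℚ} (h : Lev (K + 1) q) (h' : ¬ Lev K q) {j : ℕ}
    (hj : ((K : ℝ) + 2) * Int.fract (((K + 1)! : ℝ) * q) = j) : rho q = nr K + j - 1 / 2 := by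
  have h1 := lev_eq h h'
  unfold rho
  rw [h1, if_neg (by omega), Nat.add_sub_cancel]
  push_cast
  rw [← hj]
  ring

lemma sg_succ {K : ℕ} {q : ℚ} (h : Lev (K + 1) q) (h' : ¬ Lev K q) : sg q = nr (K + 1) := by
  unfold sg
  rw [lev_eq h h']

lemma ef_mark {K j : ℕ} (h1 : 1 ≤ j) (h2 : j ≤ K + 1) {z : ℝ} (hz : ((K : ℝ) + 2) * z = j) :
    ef K z = 1 := by
  have e1 : (1 : ℝ) ≤ j := by exact_mod_cast h1
  have e2 : (j : ℝ) ≤ K + 1 := by exact_mod_cast h2
  unfold ef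
  rw [hz]
  exact min_eq_left (le_min e1 (by linarith))

lemma bt_new {K : ℕ} {q : ℚ} (h : Lev (K + 1) q) (h' : ¬ Lev K q) : bt K q = nr (K + 1) := by
  obtain ⟨j, h1, h2, h3⟩ := fract_lev h h'
  unfold bt bf
  rw [ef_mark h1 h2 h3]
  ring

lemma ct_new {K : ℕ} {q : ℚ} (h : Lev (K + 1) q) (h' : ¬ Lev K q) :
    ct K q = 3 / 4 + (rho q - 3 / 4) / (4 * (nr (K + 1) - 3 / 4)) := by
  obtain ⟨j, h1, h2, h3⟩ := fract_lev h h'
  have e1 : (1 : ℝ) ≤ j := by exact_mod_cast h1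
  have e2 : (j : ℝ) ≤ K + 1 := by exact_mod_cast h2
  rw [rho_succ h h' h3]
  unfold ct cf af bf
  rw [ef_mark h1 h2 h3, h3, min_eq_left e2, max_eq_right e1]
  congr 2
  · ring
  · ring

lemma bt_old {K : ℕ} {q : ℚ} (h : Lev K q) : bt K q = 1 := by
  unfold bt
  rw [fract_lev' h, bf_zero]

lemma ct_old {K : ℕ} {q : ℚ} (h : Lev K q) : ct K q = 7 / 8 := by
  unfold ct
  rw [fract_lev' h, cf_zero]

lemma mu_old {K : ℕ} {q : ℚ} (h : Lev K q) (r : ℝ) : mu K ((q : ℝ), r) = ((q : ℝ), r) := by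
  rw [mu_apply]
  have h1 := nr_ge' (K + 1)
  push_cast at h1
  have h2 : (0 : ℝ) ≤ K := by positivity
  have h3 : (1 : ℝ) < nr (K + 1) + 1 / 4 := by linarith
  rw [bt_old h, ct_old h, nod_self (by norm_num) h3, nod_self (by norm_num) (by norm_num)]

lemma rho_new_ge {K : ℕ} {q : ℚ} (h : Lev (K + 1) q) (h' : ¬ Lev K q) :
    nr K + 1 / 2 ≤ rho q ∧ rho q ≤ nr (K + 1) - 1 / 2 := by
  obtain ⟨j, h1, h2, h3⟩ := fract_lev h h'
  have e1 : (1 : ℝ) ≤ j := by exact_mod_cast h1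
  have e2 : (j : ℝ) ≤ K + 1 := by exact_mod_cast h2
  rw [rho_succ h h' h3, nr_succ]
  constructor <;> linarith

lemma mu_rho {K : ℕ} {q : ℚ} (h : Lev (K + 1) q) (h' : ¬ Lev K q) :
    mu K ((q : ℝ), rho q) = ((q : ℝ), 7 / 8) := by
  obtain ⟨h3, h4⟩ := rho_new_ge h h'
  have h1 := nr_ge' K
  have h2 : (0 : ℝ) ≤ K := by positivity
  have e1 := bt_new h h'
  have e2 := ct_new h h'
  have e3 : nod (3 / 4) 1 (nr (K + 1) + 1 / 4) (bt K q) (rho q) = ct K q := by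
    rw [nod_mid (by norm_num) (bt_ge K q) (bt_lt K q) (by linarith) (by rw [e1]; linarith), e1, e2]
    have : (nr (K + 1) : ℝ) - 3 / 4 ≠ 0 := by linarith
    field_simp
    ring
  rw [mu_apply, e3, nod_b (by norm_num) (ct_ge K q) (ct_lt K q)]

lemma mu_sg {K : ℕ} {q : ℚ} (h : Lev (K + 1) q) (h' : ¬ Lev K q) :
    mu K ((q : ℝ), sg q) = ((q : ℝ), 1) := by
  have e1 := bt_new h h'
  have e2 : nod (3 / 4) 1 (nr (K + 1) + 1 / 4) (bt K q) (sg q) = 1 := by
    rw [sg_succ h h', ← e1]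
    exact nod_b (by norm_num) (bt_ge K q) (by rw [e1]; linarith)
  rw [mu_apply, e2, nod_ge (by norm_num) (ct_ge K q) (ct_lt K q) le_rfl]

/-! ### the conjugating homeomorphisms -/

/-- the homeomorphism which moves the slits of level `K` to the radius `1` -/
noncomputable def RK : ℕ → (ℝ × ℝ ≃ₜ ℝ × ℝ)
  | 0 => Homeomorph.refl _
  | K + 1 => (RK K).trans (mu K)

lemma RK_succ (K : ℕ) (p : ℝ × ℝ) : RK (K + 1) p = mu K (RK K p) := rfl

lemma RK_fst (K : ℕ) (p : ℝ × ℝ) : (RK K p).1 = p.1 := by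
  induction K with
  | zero => rfl
  | succ K ih => rw [RK_succ, mu_fst, ih]

lemma RK_small (K : ℕ) {p : ℝ × ℝ} (h : p.2 ≤ 3 / 4) : RK K p = p := by
  induction K with
  | zero => rfl
  | succ K ih => rw [RK_succ, ih, mu_small K h]

lemma RK_large (K : ℕ) {p : ℝ × ℝ} (h : nr K + 1 / 4 ≤ p.2) : RK K p = p := by
  induction K with
  | zero => rfl
  | succ K ih =>
    have h1 : ((nr K : ℕ) : ℝ) ≤ nr (K + 1) := by exact_mod_cast nr_strict.monotone (Nat.le_succ K)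
    rw [RK_succ, ih (by linarith), mu_large K h]

lemma RK_strict (K : ℕ) (x : ℝ) : StrictMono fun r => (RK K (x, r)).2 := by
  induction K with
  | zero => exact fun _ _ h => h
  | succ K ih =>
    have h : ∀ r, (RK (K + 1) (x, r)).2 = (mu K (x, (RK K (x, r)).2)).2 := by
      intro r
      rw [RK_succ]
      have h1 : RK K (x, r) = (x, (RK K (x, r)).2) := Prod.ext (RK_fst K (x, r)) rfl
      rw [← h1]
    intro r s hrs
    simp only
    rw [h, h]
    exact mu_strict K x (ih hrs)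

lemma rho_zero {q : ℚ} (h : Lev 0 q) : rho q = 7 / 8 := by
  unfold rho
  rw [if_pos (Nat.le_zero.1 (lev_le.2 h))]

lemma RK_rho {K : ℕ} {q : ℚ} (h : Lev K q) : RK K ((q : ℝ), rho q) = ((q : ℝ), 7 / 8) := by
  induction K with
  | zero => rw [rho_zero h]; rfl
  | succ K ih =>
    by_cases h' : Lev K q
    · rw [RK_succ, ih h', mu_old h']
    · have h1 := (rho_new_ge h h').1
      rw [RK_succ, RK_large K (by simp only; linarith), mu_rho h h']

lemma RK_sg {K : ℕ} {q : ℚ} (h : Lev K q) : RK K ((q : ℝ), sg q) = ((q : ℝ), 1) := by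
  induction K with
  | zero =>
    have h1 : lev q = 0 := Nat.le_zero.1 (lev_le.2 h)
    have h2 : sg q = 1 := by
      unfold sg
      rw [h1]
      simp [nr]
    rw [h2]
    rfl
  | succ K ih =>
    by_cases h' : Lev K q
    · rw [RK_succ, ih h', mu_old h']
    · have h1 := nr_succ K
      have h2 := sg_succ h h'
      have h3 : (0 : ℝ) ≤ K := by positivity
      rw [RK_succ, RK_large K (by simp only; rw [h2, h1]; linarith), mu_sg h h']

lemma fract_shift {K : ℕ} {c : ℚ} (h : Lev K c) (x : ℝ) :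
    Int.fract (((K + 1)! : ℝ) * (x + c)) = Int.fract (((K + 1)! : ℝ) * x) := by
  obtain ⟨m, hm⟩ := h
  have hm' : ((K + 1)! : ℝ) * c = m := by exact_mod_cast hm
  rw [mul_add, hm', Int.fract_add_intCast]

lemma mu_shift {K : ℕ} {c : ℚ} (h : Lev K c) (p : ℝ × ℝ) :
    mu K (p + ((c : ℝ), 0)) = mu K p + ((c : ℝ), 0) := by
  obtain ⟨x, r⟩ := p
  have h1 : ((x, r) : ℝ × ℝ) + ((c : ℝ), 0) = (x + c, r) := by simp
  have h2 : bt K (x + c) = bt K x := by
    unfold bt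
    rw [fract_shift h]
  have h3 : ct K (x + c) = ct K x := by
    unfold ct
    rw [fract_shift h]
  rw [h1, mu_apply, mu_apply, h2, h3]
  simp

/-- the action in the coordinates (collapsed angle, radius) -/
noncomputable def TK (K : ℕ) (c : ℚ) : ℝ × ℝ ≃ₜ ℝ × ℝ :=
  (RK K).trans ((Homeomorph.addRight (((c : ℝ), 0) : ℝ × ℝ)).trans (RK K).symm)

lemma RK_TK (K : ℕ) (c : ℚ) (p : ℝ × ℝ) : RK K (TK K c p) = RK K p + ((c : ℝ), 0) :=
  (RK K).apply_symm_apply _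

lemma TK_eq {K : ℕ} {c : ℚ} {p p' : ℝ × ℝ} (h : RK K p' = RK K p + ((c : ℝ), 0)) :
    TK K c p = p' := (RK K).injective (by rw [RK_TK, h])

lemma TK_succ {K : ℕ} {c : ℚ} (h : Lev K c) (p : ℝ × ℝ) : TK (K + 1) c p = TK K c p := by
  apply TK_eq
  rw [RK_succ, RK_succ, RK_TK, mu_shift h]

lemma TK_le {K K' : ℕ} (hK : K ≤ K') {c : ℚ} (h : Lev K c) (p : ℝ × ℝ) :
    TK K' c p = TK K c p := by
  induction K', hK using Nat.le_induction with
  | base => rfl
  | succ K' hK ih => rw [TK_succ (h.mono hK), ih]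

lemma TK_lev {K : ℕ} {c : ℚ} (h : Lev K c) (p : ℝ × ℝ) : TK K c p = TK (lev c) c p :=
  TK_le (lev_le.2 h) (lev_spec c) p

lemma TK_fst (K : ℕ) (c : ℚ) (p : ℝ × ℝ) : (TK K c p).1 = p.1 + c := by
  have := congrArg Prod.fst (RK_TK K c p)
  rw [Prod.fst_add, RK_fst, RK_fst] at this
  exact this

lemma TK_add (K : ℕ) (c d : ℚ) (p : ℝ × ℝ) : TK K (c + d) p = TK K c (TK K d p) := by
  apply TK_eq
  rw [RK_TK, RK_TK, add_assoc]
  congr 1
  ext
  · simp [add_comm]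
  · simp

lemma TK_zero (K : ℕ) (p : ℝ × ℝ) : TK K 0 p = p := by
  apply TK_eq
  have : (((0 : ℚ) : ℝ), (0 : ℝ)) = 0 := by ext <;> simp
  rw [this, add_zero]

lemma TK_small (K : ℕ) (c : ℚ) {p : ℝ × ℝ} (h : p.2 ≤ 3 / 4) : TK K c p = p + ((c : ℝ), 0) := by
  apply TK_eq
  rw [RK_small K h, RK_small K (by simpa using h)]

lemma TK_large (K : ℕ) (c : ℚ) {p : ℝ × ℝ} (h : nr K + 1 / 4 ≤ p.2) :
    TK K c p = p + ((c : ℝ), 0) := by
  apply TK_eq
  rw [RK_large K h, RK_large K (by simpa using h)]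

lemma TK_strict (K : ℕ) (c : ℚ) (x : ℝ) : StrictMono fun r => (TK K c (x, r)).2 := by
  intro r s h
  simp only
  have e : ∀ r, (RK K (x + c, (TK K c (x, r)).2)).2 = (RK K (x, r)).2 := by
    intro r
    have h1 : (x + (c : ℝ), (TK K c (x, r)).2) = TK K c (x, r) := Prod.ext (TK_fst K c (x, r)).symm rfl
    rw [h1, RK_TK]
    simp
  have h2 := RK_strict K x h
  simp only at h2
  rw [← e r, ← e s] at h2
  exact (RK_strict K (x + c)).lt_iff_lt.1 h2

/-! ### the radial map -/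

/-- the radial map -/
noncomputable def rd (c : ℚ) (x r : ℝ) : ℝ := (TK (lev c) c (x, r)).2

lemma rd_eq {K : ℕ} {c : ℚ} (h : Lev K c) (x r : ℝ) : rd c x r = (TK K c (x, r)).2 := by
  rw [TK_lev h]
  rfl

lemma TK_rd {K : ℕ} {c : ℚ} (h : Lev K c) (x r : ℝ) : TK K c (x, r) = (x + c, rd c x r) :=
  Prod.ext (TK_fst K c (x, r)) (rd_eq h x r).symm

lemma rd_small (c : ℚ) (x : ℝ) {r : ℝ} (h : r ≤ 3 / 4) : rd c x r = r := by
  unfold rd
  rw [TK_small _ _ h]
  simp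

lemma rd_large {K : ℕ} {c : ℚ} (h : Lev K c) (x : ℝ) {r : ℝ} (hr : nr K + 1 / 4 ≤ r) :
    rd c x r = r := by
  rw [rd_eq h, TK_large _ _ hr]
  simp

lemma rd_strict (c : ℚ) (x : ℝ) : StrictMono (rd c x) := TK_strict _ _ _

lemma rd_cont (c : ℚ) : Continuous fun p : ℝ × ℝ => rd c p.1 p.2 :=
  continuous_snd.comp (TK (lev c) c).continuous

lemma rd_add (c d : ℚ) (x r : ℝ) : rd (c + d) x r = rd c (x + d) (rd d x r) := by
  have hc : Lev (max (lev c) (lev d)) c := lev_le.1 (le_max_left _ _)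
  have hd : Lev (max (lev c) (lev d)) d := lev_le.1 (le_max_right _ _)
  rw [rd_eq (hc.add hd), TK_add, TK_rd hd, TK_rd hc]

lemma rd_zero (x r : ℝ) : rd 0 x r = r := by
  unfold rd
  rw [TK_zero]

lemma rd_int (m : ℤ) (x r : ℝ) : rd m x r = r := by
  rw [rd_eq (Lev_int 0 m), TK_eq (p' := (x + ((m : ℚ) : ℝ), r))]
  change ((x + ((m : ℚ) : ℝ), r) : ℝ × ℝ) = (x, r) + (((m : ℚ) : ℝ), 0)
  simp

lemma rd_per (c : ℚ) (x r : ℝ) (m : ℤ) : rd c (x + m) r = rd c x r := by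
  have h1 := rd_add c m x r
  have h2 := rd_add m c x r
  rw [rd_int] at h1 h2
  rw [Rat.cast_intCast] at h1
  rw [← h1, add_comm, h2]

lemma rd_rho (c q : ℚ) : rd c q (rho q) = rho (q + c) := by
  have hc : Lev (max (lev c) (lev q)) c := lev_le.1 (le_max_left _ _)
  have hq : Lev (max (lev c) (lev q)) q := lev_le.1 (le_max_right _ _)
  rw [rd_eq hc, TK_eq (p' := (((q + c : ℚ) : ℝ), rho (q + c)))]
  rw [RK_rho (hq.add hc), RK_rho hq]
  simp

lemma rd_sg (c q : ℚ) : rd c q (sg q) = sg (q + c) := by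
  have hc : Lev (max (lev c) (lev q)) c := lev_le.1 (le_max_left _ _)
  have hq : Lev (max (lev c) (lev q)) q := lev_le.1 (le_max_right _ _)
  rw [rd_eq hc, TK_eq (p' := (((q + c : ℚ) : ℝ), sg (q + c)))]
  rw [RK_sg (hq.add hc), RK_sg hq]
  simp

end Pool.Agent.H65.Qm
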