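import Pool.Agent.H65.Qm.Act

/-!
# Sectors between the slits
-/

set_option autoImplicit false

namespace Pool.Agent.H65.Qm

open Set Topology Filter
open scoped Nat

/-! ### sectors -/

/-- the angle `t` is between the slits at `i / N` and `(i + 1) / N` -/
def Sec (N : ℕ) (i : ℤ) (t : ℝ) : Prop := hi ((i : ℝ) / N) ≤ t ∧ t ≤ lo (((i : ℝ) + 1) / N)

lemma cast_div' (N : ℕ) (i : ℤ) : ((i : ℝ) / N) = (((i : ℚ) / N : ℚ) : ℝ) := by push_cast; rfl

lemma lo_lt_hi' (N : ℕ) (i : ℤ) : lo ((i : ℝ) / N) < hi ((i : ℝ) / N) := by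
  rw [cast_div']
  exact lo_lt_hi _

lemma sec_lt {N : ℕ} (hN : 0 < N) (i : ℤ) : hi ((i : ℝ) / N) < lo (((i : ℝ) + 1) / N) := by
  apply hi_lt_lo
  have : (0 : ℝ) < N := by exact_mod_cast hN
  gcongr
  linarith

lemma sec_unique_le {N : ℕ} (hN : 0 < N) {i j : ℤ} {t : ℝ} (h : Sec N i t) (h' : Sec N j t) :
    j ≤ i := by
  by_contra hcon
  push Not at hcon
  have h0 : (0 : ℝ) < N := by exact_mod_cast hN
  have h1 : (i : ℝ) + 1 ≤ j := by exact_mod_cast hcon
  have h2 : lo (((i : ℝ) + 1) / N) ≤ lo ((j : ℝ) / N) := by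
    apply lo_strict.monotone
    gcongr
  have h3 := lo_lt_hi' N j
  have h4 := h.2
  have h5 := h'.1
  linarith

lemma sec_unique {N : ℕ} (hN : 0 < N) {i j : ℤ} {t : ℝ} (h : Sec N i t) (h' : Sec N j t) :
    i = j := le_antisymm (sec_unique_le hN h' h) (sec_unique_le hN h h')

lemma sec_add {N : ℕ} (hN : 0 < N) {i : ℤ} {t : ℝ} (m : ℤ) :
    Sec N (i + m * N) (t + m) ↔ Sec N i t := by
  have h0 : (N : ℝ) ≠ 0 := by exact_mod_cast hN.ne'
  have e1 : ((i + m * N : ℤ) : ℝ) / N = i / N + m := by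
    push_cast
    field_simp
  have e2 : (((i + m * N : ℤ) : ℝ) + 1) / N = (i + 1) / N + m := by
    push_cast
    field_simp
    ring
  unfold Sec
  rw [e1, e2, hi_add, lo_add]
  constructor
  · rintro ⟨h1, h2⟩
    exact ⟨by linarith, by linarith⟩
  · rintro ⟨h1, h2⟩
    exact ⟨by linarith, by linarith⟩

/-- the action on the sectors -/
lemma sec_tau {N : ℕ} (hN : 0 < N) {i k : ℤ} {c : ℚ} (hc : (N : ℚ) * c = k) {t : ℝ} :
    Sec N (i + k) (tau c t) ↔ Sec N i t := by
  have h0 : (N : ℝ) ≠ 0 := by exact_mod_cast hN.ne'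
  have hc' : (N : ℝ) * c = k := by exact_mod_cast hc
  have e1 : ((i + k : ℤ) : ℝ) / N = (((i : ℚ) / N : ℚ) : ℝ) + c := by
    push_cast
    rw [← hc']
    field_simp
  have e2 : (((i + k : ℤ) : ℝ) + 1) / N = (((((i : ℚ) + 1) / N : ℚ)) : ℝ) + c := by
    push_cast
    rw [← hc']
    field_simp
    ring
  unfold Sec
  rw [e1, e2, ← tau_hi_eq, ← tau_lo_eq, (tau_strict c).le_iff_le, (tau_strict c).le_iff_le]
  push_cast
  rfl

/-- refinement of the sectors -/
lemma sec_div {N d : ℕ} (hN : 0 < N) (hd : 0 < d) {i : ℤ} {t : ℝ} (h : Sec (N * d) i t) :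
    Sec N (i / d) t := by
  have h0 : (0 : ℝ) < N := by exact_mod_cast hN
  have h1 : (0 : ℝ) < d := by exact_mod_cast hd
  have h2 : (0 : ℤ) < d := by exact_mod_cast hd
  have h3 : (i / d) * d ≤ i := Int.ediv_mul_le i h2.ne'
  have h4 : i + 1 ≤ (i / d + 1) * d := by
    have := Int.lt_ediv_add_one_mul_self i h2
    omega
  have h3' : ((i / d : ℤ) : ℝ) * d ≤ i := by exact_mod_cast h3
  have h4' : (i : ℝ) + 1 ≤ (((i / d : ℤ) : ℝ) + 1) * d := by exact_mod_cast h4
  constructor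
  · refine le_trans ?_ h.1
    apply hi_strict.monotone
    push_cast
    rw [div_le_div_iff₀ h0 (by positivity)]
    nlinarith
  · refine h.2.trans ?_
    apply lo_strict.monotone
    push_cast
    rw [div_le_div_iff₀ (by positivity) h0]
    nlinarith

/-- every angle is in a sector or in a slit -/
lemma sec_cover {N : ℕ} (hN : 0 < N) (t : ℝ) :
    (∃ i, Sec N i t) ∨ ∃ i : ℤ, lo ((i : ℝ) / N) < t ∧ t < hi ((i : ℝ) / N) := by
  have h0 : (0 : ℝ) < N := by exact_mod_cast hN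
  have h1 := Int.floor_le (N * pr t)
  have h2 := Int.lt_floor_add_one (N * pr t)
  set i := ⌊N * pr t⌋ with hi'
  have a1 := lo_pr t
  have a2 := le_hi_pr t
  have h4 : t ≤ lo (((i : ℝ) + 1) / N) := by
    have : pr t < ((i : ℝ) + 1) / N := by
      rw [lt_div_iff₀ h0]
      linarith
    exact a2.trans (hi_lt_lo this).le
  rcases h1.lt_or_eq with h3 | h3
  · left
    refine ⟨i, ?_, h4⟩
    have : (i : ℝ) / N < pr t := by
      rw [div_lt_iff₀ h0]
      linarith
    exact (hi_lt_lo this).le.trans a1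
  · have h5 : pr t = i / N := by
      field_simp
      linarith
    rw [h5] at a1 a2
    rcases a2.lt_or_eq with h6 | h6
    · rcases a1.lt_or_eq with h7 | h7
      · right
        exact ⟨i, h7, h6⟩
      · left
        refine ⟨i - 1, ?_, ?_⟩
        · rw [← h7]
          apply (hi_lt_lo _).le
          push_cast
          gcongr
          linarith
        · rw [← h7]
          push_cast
          rw [sub_add_cancel]
    · left
      exact ⟨i, h6.ge, h4⟩

lemma sec_width {N : ℕ} (hN : 0 < N) {i : ℤ} {s t : ℝ} (h : Sec N i s) (h' : Sec N i t) :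
    s - t < 1 := by
  have h0 : (1 : ℝ) ≤ N := by exact_mod_cast hN
  have h1 : lo (((i : ℝ) + 1) / N) ≤ lo ((i : ℝ) / N + ((1 : ℤ) : ℝ)) := by
    apply lo_strict.monotone
    rw [add_div]
    push_cast
    have : 1 / (N : ℝ) ≤ 1 := by
      rw [div_le_one (by linarith)]
      exact h0
    linarith
  rw [lo_add] at h1
  push_cast at h1
  have h2 := lo_lt_hi' N i
  have h3 := h.2
  have h4 := h'.1
  linarith

/-! ### levels of annuli -/

/-- the level of the annulus between the radii `n + 1` and `n + 2` -/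
def Lv (n : ℕ) : ℕ := Nat.findGreatest (fun K => nr K ≤ n + 1) (n + 1)

lemma Lv_le (n : ℕ) : nr (Lv n) ≤ n + 1 := by
  have h : nr 0 ≤ n + 1 := by simp [nr]
  exact Nat.findGreatest_spec (P := fun K => nr K ≤ n + 1) (Nat.zero_le _) h

lemma Lv_lt (n : ℕ) : n + 1 < nr (Lv n + 1) := by
  by_contra h
  push Not at h
  have h1 := nr_ge (Lv n + 1)
  have h2 : Lv n + 1 ≤ Lv n :=
    Nat.le_findGreatest (P := fun K => nr K ≤ n + 1) (by omega) h
  omega

lemma Lv_unique {n K : ℕ} (h1 : nr K ≤ n + 1) (h2 : n + 1 < nr (K + 1)) : Lv n = K := by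
  have a := Lv_le n
  have b := Lv_lt n
  have c1 : K < Lv n + 1 := nr_strict.lt_iff_lt.1 (h1.trans_lt b)
  have c2 : Lv n < K + 1 := nr_strict.lt_iff_lt.1 (a.trans_lt h2)
  omega

lemma Lv_zero : Lv 0 = 0 := Lv_unique (by simp [nr]) (by simp [nr])

lemma Lv_succ (n : ℕ) : Lv (n + 1) = Lv n ∨ (Lv (n + 1) = Lv n + 1 ∧ nr (Lv n + 1) = n + 2) := by
  have a := Lv_le n
  have b := Lv_lt n
  have c : nr (Lv n + 1) < nr (Lv n + 1 + 1) := nr_strict (by omega)
  by_cases h : nr (Lv n + 1) = n + 2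
  · right
    exact ⟨Lv_unique (by omega) (by omega), h⟩
  · left
    exact Lv_unique (by omega) (by omega)

lemma Lv_ge {n K : ℕ} (h : nr K ≤ n + 1) : K ≤ Lv n := by
  have b := Lv_lt n
  have := nr_strict.lt_iff_lt.1 (h.trans_lt b)
  omega

/-- the number of polygons in the annulus -/
def cN (n : ℕ) : ℕ := (Lv n + 1)!

lemma cN_pos (n : ℕ) : 0 < cN n := Nat.factorial_pos _

lemma cN_zero : cN 0 = 1 := by
  unfold cN
  rw [Lv_zero]
  rfl

/-- the number of children of a polygon of the annulus -/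
def dN (n : ℕ) : ℕ := if Lv (n + 1) = Lv n then 1 else Lv n + 2

lemma dN_pos (n : ℕ) : 0 < dN n := by
  unfold dN
  split_ifs <;> omega

lemma cN_succ (n : ℕ) : cN (n + 1) = cN n * dN n := by
  unfold cN dN
  split_ifs with h
  · rw [h, mul_one]
  · rcases Lv_succ n with h1 | ⟨h1, -⟩
    · exact absurd h1 h
    · rw [h1, Nat.factorial_succ (Lv n + 1), mul_comm]

lemma div_lt_cN {n i : ℕ} (h : i < cN (n + 1)) : i / dN n < cN n := by
  rw [Nat.div_lt_iff_lt_mul (dN_pos n), ← cN_succ]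
  exact h

end Pool.Agent.H65.Qm
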